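import Mathlib
import Pool.Agent.W771.MB
set_option autoImplicit false
set_option linter.unusedSectionVars false

/-!
# The extension operator over slabs
-/

namespace Pool.Agent.T9h8.RS

open MeasureTheory Set Complex
open Pool.Agent.W771.MD (qe em qe_norm em_norm em_enorm em_cont em_meas planchM)
open scoped ENNReal NNReal

variable {k m : ℕ}

/-- the closed cube -/
def Cb (m : ℕ) : Set (Fin m → ℝ) := Icc (-1) 1

theorem Cb_meas : MeasurableSet (Cb m) := measurableSet_Icc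

theorem Cb_vol : volume (Cb m) = 2 ^ m := by
  unfold Cb
  rw [Real.volume_Icc_pi]
  simp only [Pi.one_apply, Pi.neg_apply]
  norm_num

theorem Cb_ne : volume (Cb m) ≠ ∞ := by
  rw [Cb_vol]
  exact ENNReal.pow_ne_top (by norm_num)

instance Cb_fin : IsFiniteMeasure ((volume : Measure (Fin m → ℝ)).restrict (Cb m)) :=
  ⟨by rw [Measure.restrict_apply_univ]; exact Cb_ne.lt_top⟩

theorem em_neg_shift (y w : Fin m → ℝ) (t : ℝ) (v : Fin m → ℝ) :
    em (y + w) t v = em y t v * em w 0 v := by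
  unfold Pool.Agent.W771.MD.em
  rw [← Finset.prod_mul_distrib]
  refine Finset.prod_congr rfl fun i _ => ?_
  unfold qe
  rw [← Complex.exp_add, Pi.add_apply]
  congr 1
  push_cast
  ring

theorem em_symm (y v : Fin m → ℝ) : em y 0 v = em v 0 y := by
  unfold Pool.Agent.W771.MD.em qe
  refine Finset.prod_congr rfl fun i _ => ?_
  congr 1
  push_cast
  ring

/-- the extension operator over the slab `Q × [-1,1]^m` -/
noncomputable def FF (Q : Set (Fin k → ℝ)) (f : (Fin k → ℝ) × (Fin m → ℝ) → ℂ)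
    (p : (Fin k → ℝ) × (Fin m → ℝ) × ℝ) : ℂ :=
  ∫ z in Q ×ˢ Cb m, f z * (em p.1 p.2.2 z.1 * em p.2.1 p.2.2 z.2)

/-- the extension operator in `m` variables -/
noncomputable def EE (g : (Fin m → ℝ) → ℂ) (p : (Fin m → ℝ) × ℝ) : ℂ :=
  ∫ v in Cb m, g v * em p.1 p.2 v

section

variable (Q : Set (Fin k → ℝ)) (hQ : MeasurableSet Q) (hQC : Q ⊆ Cb k)
  (f : (Fin k → ℝ) × (Fin m → ℝ) → ℂ) (hf : Measurable f) (hf1 : ∀ z, ‖f z‖ ≤ 1)

theorem em_cont_y (v : Fin m → ℝ) : Continuous fun p : (Fin m → ℝ) × ℝ => em p.1 p.2 v := by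
  unfold Pool.Agent.W771.MD.em qe
  fun_prop

theorem em_meas3 : Measurable fun p : ((Fin m → ℝ) × ℝ) × (Fin m → ℝ) => em p.1.1 p.1.2 p.2 :=
  em_cont.measurable

include hQ hQC in
theorem QC_prod : (volume.restrict (Q ×ˢ Cb m) : Measure ((Fin k → ℝ) × (Fin m → ℝ))) =
    (volume.restrict Q).prod (volume.restrict (Cb m)) := by
  rw [Measure.prod_restrict]
  rfl

include hQC in
theorem Q_ne : volume Q ≠ ∞ := ((measure_mono hQC).trans_lt Cb_ne.lt_top).ne

include hQC in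
theorem Q_fin : IsFiniteMeasure (volume.restrict Q) :=
  ⟨by rw [Measure.restrict_apply_univ]; exact (Q_ne Q hQC).lt_top⟩

include hQ hQC in
theorem QC_fin : IsFiniteMeasure
    (volume.restrict (Q ×ˢ Cb m) : Measure ((Fin k → ℝ) × (Fin m → ℝ))) := by
  have := Q_fin Q hQC
  rw [QC_prod Q hQ hQC]
  infer_instance

include hf in
theorem FF_ker_meas (p : (Fin k → ℝ) × (Fin m → ℝ) × ℝ) :
    Measurable fun z : (Fin k → ℝ) × (Fin m → ℝ) => f z * (em p.1 p.2.2 z.1 * em p.2.1 p.2.2 z.2) :=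
  hf.mul (((em_meas _ _).comp measurable_fst).mul ((em_meas _ _).comp measurable_snd))

include hf1 in
theorem FF_ker_bd (p : (Fin k → ℝ) × (Fin m → ℝ) × ℝ) (z : (Fin k → ℝ) × (Fin m → ℝ)) :
    ‖f z * (em p.1 p.2.2 z.1 * em p.2.1 p.2.2 z.2)‖ ≤ 1 := by
  rw [norm_mul, norm_mul, em_norm, em_norm, mul_one, mul_one]
  exact hf1 z

include hQ hQC hf hf1 in
theorem FF_ker_int (p : (Fin k → ℝ) × (Fin m → ℝ) × ℝ) :
    IntegrableOn (fun z : (Fin k → ℝ) × (Fin m → ℝ) =>
      f z * (em p.1 p.2.2 z.1 * em p.2.1 p.2.2 z.2)) (Q ×ˢ Cb m) := by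
  have := QC_fin (m := m) Q hQ hQC
  exact Integrable.of_bound (FF_ker_meas f hf p).aestronglyMeasurable 1
    (Filter.Eventually.of_forall (FF_ker_bd f hf1 p))

include hQ hQC hf hf1 in
theorem FF_cont : Continuous (FF Q f) := by
  have := QC_fin (m := m) Q hQ hQC
  refine continuous_of_dominated (bound := fun _ => 1) ?_ ?_ (integrable_const 1) ?_
  · intro p
    exact (FF_ker_meas f hf p).aestronglyMeasurable
  · intro p
    exact Filter.Eventually.of_forall (FF_ker_bd f hf1 p)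
  · refine Filter.Eventually.of_forall fun z => ?_
    have h1 : Continuous fun p : (Fin k → ℝ) × (Fin m → ℝ) × ℝ => em p.1 p.2.2 z.1 :=
      (em_cont_y z.1).comp (by fun_prop : Continuous fun p : (Fin k → ℝ) × (Fin m → ℝ) × ℝ =>
        (p.1, p.2.2))
    have h2 : Continuous fun p : (Fin k → ℝ) × (Fin m → ℝ) × ℝ => em p.2.1 p.2.2 z.2 :=
      (em_cont_y z.2).comp (by fun_prop : Continuous fun p : (Fin k → ℝ) × (Fin m → ℝ) × ℝ =>
        (p.2.1, p.2.2))
    exact continuous_const.mul (h1.mul h2)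

include hQ hQC hf1 in
theorem FF_bd (p : (Fin k → ℝ) × (Fin m → ℝ) × ℝ) : ‖FF Q f p‖ ≤ 2 ^ m * volume.real Q := by
  have := QC_fin (m := m) Q hQ hQC
  have h := norm_setIntegral_le_of_norm_le_const (μ := volume)
    (s := (Q ×ˢ Cb m : Set ((Fin k → ℝ) × (Fin m → ℝ)))) (C := 1)
    (f := fun z => f z * (em p.1 p.2.2 z.1 * em p.2.1 p.2.2 z.2))
    (by
      have h1 := measure_lt_top (volume.restrict (Q ×ˢ Cb m) : Measure ((Fin k → ℝ) × (Fin m → ℝ)))
        univ
      rwa [Measure.restrict_apply_univ] at h1)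
    (fun z _ => FF_ker_bd f hf1 p z)
  refine h.trans (le_of_eq ?_)
  rw [one_mul, Measure.real, Measure.volume_eq_prod, Measure.prod_prod, Cb_vol, ENNReal.toReal_mul,
    mul_comm]
  simp [Measure.real]

include hQ hQC hf hf1 in
/-- Fubini, `u` inside -/
theorem FF_v (p : (Fin k → ℝ) × (Fin m → ℝ) × ℝ) :
    FF Q f p = ∫ v, (Cb m).indicator (fun v => ∫ u in Q, f (u, v) * em p.1 p.2.2 u) v *
      em p.2.1 p.2.2 v := by
  have hfin := Q_fin Q hQC
  have hi := FF_ker_int Q hQ hQC f hf hf1 p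
  unfold IntegrableOn at hi
  unfold FF
  rw [QC_prod Q hQ hQC] at hi ⊢
  rw [integral_prod_symm _ hi]
  rw [← integral_indicator Cb_meas]
  congr 1
  ext v
  by_cases hv : v ∈ Cb m
  · rw [indicator_of_mem hv, indicator_of_mem hv, ← integral_mul_const]
    congr 1
    ext u
    ring
  · rw [indicator_of_notMem hv, indicator_of_notMem hv, zero_mul]

include hQ hQC hf hf1 in
/-- Fubini, `v` inside -/
theorem FF_u (p : (Fin k → ℝ) × (Fin m → ℝ) × ℝ) :
    FF Q f p = ∫ u in Q, em p.1 p.2.2 u * EE (fun v => f (u, v)) (p.2.1, p.2.2) := by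
  have hfin := Q_fin Q hQC
  have hi := FF_ker_int Q hQ hQC f hf hf1 p
  unfold IntegrableOn at hi
  unfold FF
  rw [QC_prod Q hQ hQC] at hi ⊢
  rw [integral_prod _ hi]
  congr 1
  ext u
  unfold EE
  rw [← integral_const_mul]
  congr 1
  ext v
  ring

include hf in
theorem inner_meas (x : Fin k → ℝ) (t : ℝ) :
    Measurable fun v => ∫ u in Q, f (u, v) * em x t u := by
  have h1 : StronglyMeasurable (Function.uncurry fun (v : Fin m → ℝ) (u : Fin k → ℝ) =>
      f (u, v) * em x t u) :=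
    ((hf.comp measurable_swap).mul ((em_meas x t).comp measurable_snd)).stronglyMeasurable
  exact (h1.integral_prod_right (ν := volume.restrict Q)).measurable

include hQC hf hf1 in
theorem inner_bd (x : Fin k → ℝ) (t : ℝ) (v : Fin m → ℝ) :
    ‖∫ u in Q, f (u, v) * em x t u‖ ≤ volume.real Q := by
  have hfin := Q_fin Q hQC
  have h := norm_setIntegral_le_of_norm_le_const (μ := volume) (s := Q) (C := 1)
    (f := fun u => f (u, v) * em x t u) (Q_ne Q hQC).lt_top (fun u _ => by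
      rw [norm_mul, em_norm, mul_one]; exact hf1 _)
  rwa [one_mul] at h

include hQ hQC hf hf1 in
/-- the `L²` norm in `y` -/
theorem FF_y (x : Fin k → ℝ) (t : ℝ) : ∫⁻ y : Fin m → ℝ, ‖FF Q f (x, y, t)‖ₑ ^ 2 =
    ∫⁻ v in Cb m, ‖∫ u in Q, f (u, v) * em x t u‖ₑ ^ 2 := by
  simp_rw [FF_v Q hQ hQC f hf hf1]
  set G : (Fin m → ℝ) → ℂ := (Cb m).indicator (fun v => ∫ u in Q, f (u, v) * em x t u) with hG
  have hGm : Measurable G := (inner_meas Q f hf x t).indicator Cb_meas
  have hGb : ∀ v, ‖G v‖ ≤ volume.real Q := by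
    intro v
    rw [hG]
    refine (norm_indicator_le_norm_self _ _).trans ?_
    exact inner_bd Q hQC f hf hf1 x t v
  have hG1 : MemLp G 1 := by
    rw [hG, memLp_indicator_iff_restrict Cb_meas]
    exact MemLp.of_bound (inner_meas Q f hf x t).aestronglyMeasurable _
      (Filter.Eventually.of_forall (inner_bd Q hQC f hf hf1 x t))
  have hG2 : MemLp G 2 := by
    rw [hG, memLp_indicator_iff_restrict Cb_meas]
    exact MemLp.of_bound (inner_meas Q f hf x t).aestronglyMeasurable _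
      (Filter.Eventually.of_forall (inner_bd Q hQC f hf hf1 x t))
  have h := planchM G (memLp_one_iff_integrable.1 hG1) hG2 t
  rw [h, ← lintegral_indicator Cb_meas]
  congr 1
  ext v
  rw [hG]
  by_cases hv : v ∈ Cb m
  · rw [indicator_of_mem hv, indicator_of_mem hv]
  · rw [indicator_of_notMem hv, indicator_of_notMem hv]
    simp

include hQ hQC hf hf1 in
theorem FF_y_le (x : Fin k → ℝ) (t : ℝ) : ∫⁻ y : Fin m → ℝ, ‖FF Q f (x, y, t)‖ₑ ^ 2 ≤
    2 ^ m * volume Q ^ 2 := by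
  rw [FF_y Q hQ hQC f hf hf1]
  have h1 : ∀ v, ‖∫ u in Q, f (u, v) * em x t u‖ₑ ^ 2 ≤ volume Q ^ 2 := by
    intro v
    have h2 := inner_bd Q hQC f hf hf1 x t v
    have h3 : ‖∫ u in Q, f (u, v) * em x t u‖ₑ ≤ volume Q := by
      rw [← ofReal_norm]
      refine (ENNReal.ofReal_le_ofReal h2).trans (le_of_eq ?_)
      exact ENNReal.ofReal_toReal (Q_ne Q hQC)
    exact pow_le_pow_left' h3 2
  refine (lintegral_mono h1).trans (le_of_eq ?_)
  rw [lintegral_const, Measure.restrict_apply_univ, Cb_vol, mul_comm]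

end

/-- the shift in `y` is a modulation -/
theorem FF_shift (Q : Set (Fin k → ℝ)) (f : (Fin k → ℝ) × (Fin m → ℝ) → ℂ)
    (x : Fin k → ℝ) (y w : Fin m → ℝ) (t : ℝ) :
    FF Q f (x, y + w, t) = FF Q (fun z => f z * em w 0 z.2) (x, y, t) := by
  unfold FF
  congr 1
  ext z
  simp only
  rw [em_neg_shift]
  ring

theorem jens {X : Type*} [MeasurableSpace X] (μ : Measure X) (f : X → ℝ≥0∞)
    (hf : AEMeasurable f μ) (r : ℝ) (hr : 1 ≤ r) :
    (∫⁻ x, f x ∂μ) ^ r ≤ μ univ ^ (r - 1) * ∫⁻ x, f x ^ r ∂μ := by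
  have h1 := eLpNorm'_le_eLpNorm'_mul_rpow_measure_univ (f := f) one_pos hr
    (μ := μ) hf.aestronglyMeasurable
  unfold eLpNorm' at h1
  simp only [enorm_eq_self, ENNReal.rpow_one, div_one] at h1
  have hr0 : 0 < r := by linarith
  calc (∫⁻ x, f x ∂μ) ^ r ≤ ((∫⁻ x, f x ^ r ∂μ) ^ (1 / r) * μ univ ^ (1 - 1 / r)) ^ r := by
        gcongr
    _ = _ := by
        rw [ENNReal.mul_rpow_of_nonneg _ _ hr0.le, ← ENNReal.rpow_mul, ← ENNReal.rpow_mul]
        have e1 : 1 / r * r = 1 := by field_simp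
        have e2 : (1 - 1 / r) * r = r - 1 := by field_simp
        rw [e1, e2, ENNReal.rpow_one, mul_comm]

theorem EE_meas (g : (Fin k → ℝ) × (Fin m → ℝ) → ℂ) (hg : Measurable g) :
    Measurable fun p : ((Fin m → ℝ) × ℝ) × (Fin k → ℝ) => EE (fun v => g (p.2, v)) p.1 := by
  unfold EE
  have h1 : StronglyMeasurable (Function.uncurry
      fun (p : ((Fin m → ℝ) × ℝ) × (Fin k → ℝ)) (v : Fin m → ℝ) =>
        g (p.2, v) * em p.1.1 p.1.2 v) := by
    refine (Measurable.mul ?_ ?_).stronglyMeasurable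
    · exact hg.comp ((measurable_snd.comp measurable_fst).prodMk measurable_snd)
    · exact em_meas3.comp ((measurable_fst.comp measurable_fst).prodMk measurable_snd)
  exact (h1.integral_prod_right (ν := volume.restrict (Cb m))).measurable

/-- the `q`-th moment of a slab on a set of times -/
theorem FF_q (Q : Set (Fin k → ℝ)) (hQ : MeasurableSet Q) (hQC : Q ⊆ Cb k)
    (f : (Fin k → ℝ) × (Fin m → ℝ) → ℂ) (hf : Measurable f) (hf1 : ∀ z, ‖f z‖ ≤ 1)
    (q : ℝ) (hq : 1 ≤ q) (T : Set ℝ) (K : ℝ≥0∞)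
    (hK : ∀ g : (Fin m → ℝ) → ℂ, Measurable g → (∀ v, ‖g v‖ ≤ 1) →
      ∫⁻ p in (univ : Set (Fin m → ℝ)) ×ˢ T, ‖EE g p‖ₑ ^ q ≤ K) (x : Fin k → ℝ) :
    ∫⁻ p in (univ : Set (Fin m → ℝ)) ×ˢ T, ‖FF Q f (x, p.1, p.2)‖ₑ ^ q ≤ volume Q ^ q * K := by
  have hfin := Q_fin Q hQC
  set ν : Measure ((Fin m → ℝ) × ℝ) := volume.restrict ((univ : Set (Fin m → ℝ)) ×ˢ T) with hν
  have hq0 : 0 < q := by linarith
  have hm := EE_meas f hf
  have h1 : ∀ p : (Fin m → ℝ) × ℝ, ‖FF Q f (x, p.1, p.2)‖ₑ ^ q ≤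
      volume Q ^ (q - 1) * ∫⁻ u in Q, ‖EE (fun v => f (u, v)) p‖ₑ ^ q := by
    intro p
    have h2 : ‖FF Q f (x, p.1, p.2)‖ₑ ≤ ∫⁻ u in Q, ‖EE (fun v => f (u, v)) p‖ₑ := by
      rw [FF_u Q hQ hQC f hf hf1]
      refine (enorm_integral_le_lintegral_enorm _).trans (le_of_eq ?_)
      congr 1
      ext u
      rw [enorm_mul, em_enorm, one_mul]
    refine (ENNReal.rpow_le_rpow h2 hq0.le).trans ?_
    have h3 := jens (volume.restrict Q) (fun u => ‖EE (fun v => f (u, v)) p‖ₑ)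
      ((hm.comp (measurable_const.prodMk measurable_id)).enorm.aemeasurable) q hq
    rwa [Measure.restrict_apply_univ] at h3
  have hm2 : Measurable fun p : ((Fin m → ℝ) × ℝ) × (Fin k → ℝ) =>
      ‖EE (fun v => f (p.2, v)) p.1‖ₑ ^ q := hm.enorm.pow_const q
  calc ∫⁻ p, ‖FF Q f (x, p.1, p.2)‖ₑ ^ q ∂ν
      ≤ ∫⁻ p, (volume Q ^ (q - 1) * ∫⁻ u in Q, ‖EE (fun v => f (u, v)) p‖ₑ ^ q) ∂ν :=
        lintegral_mono h1
    _ = volume Q ^ (q - 1) * ∫⁻ p, (∫⁻ u in Q, ‖EE (fun v => f (u, v)) p‖ₑ ^ q) ∂ν := by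
        rw [lintegral_const_mul _ hm2.lintegral_prod_right']
    _ = volume Q ^ (q - 1) * ∫⁻ u in Q, (∫⁻ p, ‖EE (fun v => f (u, v)) p‖ₑ ^ q ∂ν) := by
        rw [lintegral_lintegral_swap hm2.aemeasurable]
    _ ≤ volume Q ^ (q - 1) * ∫⁻ _u in Q, K := by
        gcongr with u
        exact hK _ (hf.comp (measurable_const.prodMk measurable_id)) fun v => hf1 _
    _ = volume Q ^ q * K := by
        rw [lintegral_const, Measure.restrict_apply_univ]
        rcases eq_or_ne (volume Q) 0 with h0 | h0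
        · rw [h0, ENNReal.zero_rpow_of_pos hq0]
          simp
        · have e : volume Q ^ q = volume Q ^ (q - 1) * volume Q := by
            nth_rewrite 3 [← ENNReal.rpow_one (volume Q)]
            rw [← ENNReal.rpow_add _ _ h0 (Q_ne Q hQC)]
            congr 1
            ring
          rw [e]
          ring

/-- Plancherel in all the variables -/
theorem FF_xy (f : (Fin k → ℝ) × (Fin m → ℝ) → ℂ) (hf : Measurable f) (hf1 : ∀ z, ‖f z‖ ≤ 1)
    (t : ℝ) : ∫⁻ x : Fin k → ℝ, ∫⁻ y : Fin m → ℝ, ‖FF (Cb k) f (x, y, t)‖ₑ ^ 2 =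
      ∫⁻ v in Cb m, ∫⁻ u in Cb k, ‖f (u, v)‖ₑ ^ 2 := by
  simp_rw [FF_y (Cb k) Cb_meas (Subset.refl _) f hf hf1]
  have hjm : Measurable fun p : (Fin k → ℝ) × (Fin m → ℝ) =>
      ∫ u in Cb k, f (u, p.2) * em p.1 t u := by
    have h1 : StronglyMeasurable (Function.uncurry
        fun (p : (Fin k → ℝ) × (Fin m → ℝ)) (u : Fin k → ℝ) => f (u, p.2) * em p.1 t u) := by
      refine (Measurable.mul ?_ ?_).stronglyMeasurable
      · exact hf.comp (measurable_snd.prodMk (measurable_snd.comp measurable_fst))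
      · exact em_meas3.comp (((measurable_fst.comp measurable_fst).prodMk
          measurable_const).prodMk measurable_snd)
    exact (h1.integral_prod_right (ν := volume.restrict (Cb k))).measurable
  rw [lintegral_lintegral_swap (hjm.enorm.pow_const 2).aemeasurable]
  refine setLIntegral_congr_fun Cb_meas fun v _ => ?_
  set g : (Fin k → ℝ) → ℂ := (Cb k).indicator fun u => f (u, v) with hg
  have hfv : Measurable fun u => f (u, v) := hf.comp (measurable_id.prodMk measurable_const)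
  have hg1 : MemLp g 1 := by
    rw [hg, memLp_indicator_iff_restrict Cb_meas]
    exact MemLp.of_bound hfv.aestronglyMeasurable 1 (Filter.Eventually.of_forall fun u => hf1 _)
  have hg2 : MemLp g 2 := by
    rw [hg, memLp_indicator_iff_restrict Cb_meas]
    exact MemLp.of_bound hfv.aestronglyMeasurable 1 (Filter.Eventually.of_forall fun u => hf1 _)
  have h := planchM g (memLp_one_iff_integrable.1 hg1) hg2 t
  have e1 : ∀ x : Fin k → ℝ, ∫ u, g u * em x t u = ∫ u in Cb k, f (u, v) * em x t u := by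
    intro x
    rw [← integral_indicator Cb_meas]
    congr 1
    ext u
    rw [hg]
    by_cases hu : u ∈ Cb k
    · rw [indicator_of_mem hu, indicator_of_mem hu]
    · rw [indicator_of_notMem hu, indicator_of_notMem hu, zero_mul]
  simp_rw [e1] at h
  rw [h, ← lintegral_indicator Cb_meas]
  congr 1
  ext u
  rw [hg]
  by_cases hu : u ∈ Cb k
  · rw [indicator_of_mem hu, indicator_of_mem hu]
  · rw [indicator_of_notMem hu, indicator_of_notMem hu]
    simp

end Pool.Agent.T9h8.RS
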