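import Mathlib
import Pool.Agent.T9h8.RS.Slice
set_option autoImplicit false
set_option linter.unusedSectionVars false

/-!
# The mean of the random extension
-/

namespace Pool.Agent.T9h8.RS

open MeasureTheory Set Complex
open Pool.Agent.W771.MD (qe em qe_norm em_norm em_enorm em_cont em_meas planchM)
open scoped ENNReal NNReal

variable {k m : ℕ}

/-- the transform of a measure -/
noncomputable def mh (μ : Measure (Fin m → ℝ)) (v : Fin m → ℝ) : ℂ := ∫ w, em w 0 v ∂μ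

theorem mh_meas (μ : Measure (Fin m → ℝ)) [SFinite μ] : Measurable (mh μ) := by
  unfold mh
  have h1 : StronglyMeasurable (Function.uncurry
      fun (v : Fin m → ℝ) (w : Fin m → ℝ) => em w 0 v) := by
    refine Measurable.stronglyMeasurable ?_
    exact em_meas3.comp ((measurable_snd.prodMk measurable_const).prodMk measurable_fst)
  exact (h1.integral_prod_right (ν := μ)).measurable

theorem mh_bd (μ : Measure (Fin m → ℝ)) [IsProbabilityMeasure μ] (v : Fin m → ℝ) :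
    ‖mh μ v‖ ≤ 1 := by
  unfold mh
  refine (norm_integral_le_integral_norm _).trans (le_of_eq ?_)
  simp [em_norm]

theorem rn_le (μ : Measure (Fin m → ℝ)) [IsProbabilityMeasure μ] (ρ : ℝ≥0)
    (hμ : μ ≤ ρ • (volume : Measure (Fin m → ℝ))) : ∀ᵐ w, μ.rnDeriv volume w ≤ ρ := by
  have hac : μ ≪ (volume : Measure (Fin m → ℝ)) :=
    (Measure.absolutelyContinuous_of_le hμ).trans Measure.smul_absolutelyContinuous
  refine ae_le_of_forall_setLIntegral_le_of_sigmaFinite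
    (Measure.measurable_rnDeriv _ _) fun s hs _ => ?_
  rw [Measure.setLIntegral_rnDeriv hac, setLIntegral_const]
  have h := hμ s
  simpa using h

theorem mh_L2 (μ : Measure (Fin m → ℝ)) [IsProbabilityMeasure μ] (ρ : ℝ≥0)
    (hμ : μ ≤ ρ • (volume : Measure (Fin m → ℝ))) : ∫⁻ v, ‖mh μ v‖ₑ ^ 2 ≤ ρ := by
  have hac : μ ≪ (volume : Measure (Fin m → ℝ)) :=
    (Measure.absolutelyContinuous_of_le hμ).trans Measure.smul_absolutelyContinuous
  have hle := rn_le μ ρ hμ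
  set h : (Fin m → ℝ) → ℝ≥0∞ := μ.rnDeriv volume with hh
  have hm : Measurable h := Measure.measurable_rnDeriv _ _
  have h1 : ∫⁻ w, h w = 1 := by
    rw [hh, Measure.lintegral_rnDeriv hac, measure_univ]
  set g : (Fin m → ℝ) → ℂ := fun w => ((h w).toReal : ℂ) with hg
  have hgm : Measurable g := Complex.measurable_ofReal.comp hm.ennreal_toReal
  have hgn : ∀ᵐ w, ‖g w‖ₑ ≤ h w := by
    refine Filter.Eventually.of_forall fun w => ?_
    rw [hg, ← ofReal_norm]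
    simp only [Complex.norm_real, Real.norm_eq_abs, abs_of_nonneg ENNReal.toReal_nonneg]
    exact ENNReal.ofReal_toReal_le
  have hgi : Integrable g := by
    refine ⟨hgm.aestronglyMeasurable, ?_⟩
    refine (lintegral_mono_ae hgn).trans_lt ?_
    rw [h1]
    exact ENNReal.one_lt_top
  have hsq : ∫⁻ w, ‖g w‖ₑ ^ 2 ≤ ρ := by
    calc ∫⁻ w, ‖g w‖ₑ ^ 2 ≤ ∫⁻ w, ρ * h w := by
          refine lintegral_mono_ae ?_
          filter_upwards [hgn, hle] with w a1 a2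
          rw [sq]
          exact mul_le_mul' (a1.trans a2) a1
      _ = ρ := by
          rw [lintegral_const_mul _ hm, h1, mul_one]
  have hg2 : MemLp g 2 := by
    refine ⟨hgm.aestronglyMeasurable, ?_⟩
    rw [eLpNorm_lt_top_iff_lintegral_rpow_enorm_lt_top (by norm_num) (by norm_num)]
    simp only [ENNReal.toReal_ofNat, ENNReal.rpow_ofNat]
    exact hsq.trans_lt ENNReal.coe_lt_top
  have hp := planchM g hgi hg2 0
  have he : ∀ v, mh μ v = ∫ w, g w * em v 0 w := by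
    intro v
    unfold mh
    rw [← integral_rnDeriv_smul hac]
    congr 1
    ext w
    rw [em_symm, hg, Complex.real_smul]
  simp_rw [he]
  rw [hp]
  exact hsq

section

variable (Q : Set (Fin k → ℝ)) (hQ : MeasurableSet Q) (hQC : Q ⊆ Cb k)
  (f : (Fin k → ℝ) × (Fin m → ℝ) → ℂ) (hf : Measurable f) (hf1 : ∀ z, ‖f z‖ ≤ 1)
  (μ : Measure (Fin m → ℝ)) [IsProbabilityMeasure μ]

include hQ hQC hf hf1 in
theorem mean_FF (x : Fin k → ℝ) (y : Fin m → ℝ) (t : ℝ) :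
    ∫ w, FF Q f (x, y + w, t) ∂μ = FF Q (fun z => f z * mh μ z.2) (x, y, t) := by
  have hfin := QC_fin (m := m) Q hQ hQC
  have hsw : ∫ w, FF Q f (x, y + w, t) ∂μ =
      ∫ z in Q ×ˢ Cb m, ∫ w, f z * (em x t z.1 * em (y + w) t z.2) ∂μ := by
    unfold FF
    refine integral_integral_swap ?_
    refine Integrable.of_bound ?_ 1 (Filter.Eventually.of_forall fun p => ?_)
    · refine Measurable.aestronglyMeasurable ?_
      refine (hf.comp measurable_snd).mul (Measurable.mul ?_ ?_)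
      · exact (em_meas x t).comp (measurable_fst.comp measurable_snd)
      · refine em_meas3.comp (Measurable.prodMk (Measurable.prodMk ?_ measurable_const) ?_)
        · exact measurable_const.add measurable_fst
        · exact measurable_snd.comp measurable_snd
    · exact FF_ker_bd f hf1 (x, y + p.1, t) p.2
  rw [hsw]
  unfold FF
  congr 1
  ext z
  simp only
  unfold mh
  rw [← integral_const_mul, ← integral_mul_const]
  congr 1
  ext w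
  rw [em_neg_shift]
  ring

end

/-- the supremum bound of the mean -/
theorem mean_sup (F : (Fin k → ℝ) × (Fin m → ℝ) → ℂ) (hF : Measurable F) (ρ : ℝ≥0∞)
    (hρ : ∀ u, ∫⁻ v in Cb m, ‖F (u, v)‖ₑ ^ 2 ≤ ρ) (p : (Fin k → ℝ) × (Fin m → ℝ) × ℝ) :
    ‖FF (Cb k) F p‖ₑ ^ 2 ≤ 2 ^ (2 * k + m) * ρ := by
  have hin : ∀ u, (∫⁻ v in Cb m, ‖F (u, v)‖ₑ) ^ 2 ≤ 2 ^ m * ρ := by
    intro u
    have hFu : Measurable fun v => F (u, v) := hF.comp (measurable_const.prodMk measurable_id)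
    have h3 := jens ((volume : Measure (Fin m → ℝ)).restrict (Cb m)) (fun v => ‖F (u, v)‖ₑ)
      hFu.enorm.aemeasurable 2 (by norm_num)
    rw [Measure.restrict_apply_univ, Cb_vol] at h3
    simp only [ENNReal.rpow_ofNat] at h3
    refine h3.trans ?_
    have e : ((2 : ℝ≥0∞) ^ m) ^ ((2 : ℝ) - 1) = 2 ^ m := by
      rw [show (2 : ℝ) - 1 = 1 by norm_num, ENNReal.rpow_one]
    rw [e]
    exact mul_le_mul' le_rfl (hρ u)
  have h1 : ‖FF (Cb k) F p‖ₑ ≤ ∫⁻ u in Cb k, ∫⁻ v in Cb m, ‖F (u, v)‖ₑ := by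
    unfold FF
    refine (enorm_integral_le_lintegral_enorm _).trans (le_of_eq ?_)
    calc ∫⁻ z in Cb k ×ˢ Cb m, ‖F z * (em p.1 p.2.2 z.1 * em p.2.1 p.2.2 z.2)‖ₑ
        = ∫⁻ z in Cb k ×ˢ Cb m, ‖F z‖ₑ := by
          refine lintegral_congr fun z => ?_
          rw [enorm_mul, enorm_mul, em_enorm, em_enorm, mul_one, mul_one]
      _ = _ := by
          rw [QC_prod (Cb k) Cb_meas (Subset.refl _)]
          exact lintegral_prod _ hF.enorm.aemeasurable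
  have hmi : Measurable fun u => ∫⁻ v in Cb m, ‖F (u, v)‖ₑ := hF.enorm.lintegral_prod_right'
  have h2 := jens ((volume : Measure (Fin k → ℝ)).restrict (Cb k))
    (fun u => ∫⁻ v in Cb m, ‖F (u, v)‖ₑ) hmi.aemeasurable 2 (by norm_num)
  rw [Measure.restrict_apply_univ, Cb_vol] at h2
  simp only [ENNReal.rpow_ofNat] at h2
  have e : ((2 : ℝ≥0∞) ^ k) ^ ((2 : ℝ) - 1) = 2 ^ k := by
    rw [show (2 : ℝ) - 1 = 1 by norm_num, ENNReal.rpow_one]
  rw [e] at h2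
  calc ‖FF (Cb k) F p‖ₑ ^ 2 ≤ (∫⁻ u in Cb k, ∫⁻ v in Cb m, ‖F (u, v)‖ₑ) ^ 2 :=
        pow_le_pow_left' h1 2
    _ ≤ 2 ^ k * ∫⁻ u in Cb k, (∫⁻ v in Cb m, ‖F (u, v)‖ₑ) ^ 2 := h2
    _ ≤ 2 ^ k * ∫⁻ _u in Cb k, 2 ^ m * ρ := by
        gcongr with u
        exact hin u
    _ = _ := by
        rw [lintegral_const, Measure.restrict_apply_univ, Cb_vol]
        ring

/-- the energy of the mean -/
theorem mean_L2 (F : (Fin k → ℝ) × (Fin m → ℝ) → ℂ) (hF : Measurable F)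
    (hF1 : ∀ z, ‖F z‖ ≤ 1) (ρ : ℝ≥0∞)
    (hρ : ∀ u, ∫⁻ v in Cb m, ‖F (u, v)‖ₑ ^ 2 ≤ ρ) (t : ℝ) :
    ∫⁻ x : Fin k → ℝ, ∫⁻ y : Fin m → ℝ, ‖FF (Cb k) F (x, y, t)‖ₑ ^ 2 ≤ 2 ^ k * ρ := by
  rw [FF_xy F hF hF1]
  have hm2 : Measurable fun p : (Fin m → ℝ) × (Fin k → ℝ) => ‖F (p.2, p.1)‖ₑ ^ 2 :=
    (hF.comp (measurable_snd.prodMk measurable_fst)).enorm.pow_const 2
  rw [lintegral_lintegral_swap hm2.aemeasurable]
  calc ∫⁻ u in Cb k, ∫⁻ v in Cb m, ‖F (u, v)‖ₑ ^ 2 ≤ ∫⁻ _u in Cb k, ρ :=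
        lintegral_mono fun u => hρ u
    _ = _ := by
        rw [lintegral_const, Measure.restrict_apply_univ, Cb_vol, mul_comm]

/-- interpolation between the supremum and the energy -/
theorem interp_q (G : (Fin k → ℝ) × (Fin m → ℝ) × ℝ → ℂ) (hc : Continuous G) (t : ℝ)
    (S E : ℝ≥0∞) (q : ℝ) (hq : 2 ≤ q) (hS : ∀ p, ‖G p‖ₑ ^ 2 ≤ S)
    (hE : ∫⁻ x : Fin k → ℝ, ∫⁻ y : Fin m → ℝ, ‖G (x, y, t)‖ₑ ^ 2 ≤ E) :
    ∫⁻ x : Fin k → ℝ, ∫⁻ y : Fin m → ℝ, ‖G (x, y, t)‖ₑ ^ q ≤ S ^ ((q - 2) / 2) * E := by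
  have hq2 : 0 ≤ (q - 2) / 2 := by linarith
  have hpt : ∀ p, ‖G p‖ₑ ^ q ≤ S ^ ((q - 2) / 2) * ‖G p‖ₑ ^ 2 := by
    intro p
    have e : ‖G p‖ₑ ^ q = (‖G p‖ₑ ^ 2) ^ ((q - 2) / 2) * ‖G p‖ₑ ^ 2 := by
      have e1 : q = (2 : ℕ) * ((q - 2) / 2) + (2 : ℕ) := by push_cast; ring
      calc ‖G p‖ₑ ^ q = ‖G p‖ₑ ^ ((2 : ℕ) * ((q - 2) / 2) + (2 : ℕ) : ℝ) := by rw [← e1]
        _ = ‖G p‖ₑ ^ ((2 : ℕ) * ((q - 2) / 2) : ℝ) * ‖G p‖ₑ ^ ((2 : ℕ) : ℝ) := by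
            rw [ENNReal.rpow_add_of_nonneg _ _ (by positivity) (by positivity)]
        _ = _ := by
            rw [ENNReal.rpow_mul, ENNReal.rpow_natCast]
    rw [e]
    exact mul_le_mul' (ENNReal.rpow_le_rpow (hS p) hq2) le_rfl
  have hcm : Measurable fun p : (Fin k → ℝ) × (Fin m → ℝ) => ‖G (p.1, p.2, t)‖ₑ ^ 2 := by
    have h1 : Measurable fun p : (Fin k → ℝ) × (Fin m → ℝ) => G (p.1, p.2, t) :=
      hc.measurable.comp (measurable_fst.prodMk (measurable_snd.prodMk measurable_const))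
    exact h1.enorm.pow_const 2
  calc ∫⁻ x : Fin k → ℝ, ∫⁻ y : Fin m → ℝ, ‖G (x, y, t)‖ₑ ^ q
      ≤ ∫⁻ x : Fin k → ℝ, ∫⁻ y : Fin m → ℝ, S ^ ((q - 2) / 2) * ‖G (x, y, t)‖ₑ ^ 2 :=
        lintegral_mono fun x => lintegral_mono fun y => hpt _
    _ = ∫⁻ x : Fin k → ℝ, S ^ ((q - 2) / 2) * ∫⁻ y : Fin m → ℝ, ‖G (x, y, t)‖ₑ ^ 2 := by
        refine lintegral_congr fun x => ?_
        exact lintegral_const_mul _ (hcm.comp (measurable_const.prodMk measurable_id))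
    _ = S ^ ((q - 2) / 2) * ∫⁻ x : Fin k → ℝ, ∫⁻ y : Fin m → ℝ, ‖G (x, y, t)‖ₑ ^ 2 :=
        lintegral_const_mul _ hcm.lintegral_prod_right'
    _ ≤ _ := mul_le_mul' le_rfl hE

/-- the `q`-th moment of the mean at a time -/
theorem mean_q (F : (Fin k → ℝ) × (Fin m → ℝ) → ℂ) (hF : Measurable F)
    (hF1 : ∀ z, ‖F z‖ ≤ 1) (ρ : ℝ≥0∞)
    (hρ : ∀ u, ∫⁻ v in Cb m, ‖F (u, v)‖ₑ ^ 2 ≤ ρ) (q : ℝ) (hq : 2 ≤ q) (t : ℝ) :
    ∫⁻ x : Fin k → ℝ, ∫⁻ y : Fin m → ℝ, ‖FF (Cb k) F (x, y, t)‖ₑ ^ q ≤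
      (2 ^ (2 * k + m) * ρ) ^ (q / 2) := by
  have hc := FF_cont (Cb k) Cb_meas (Subset.refl _) _ hF hF1
  have hE : ∫⁻ x : Fin k → ℝ, ∫⁻ y : Fin m → ℝ, ‖FF (Cb k) F (x, y, t)‖ₑ ^ 2 ≤
      2 ^ (2 * k + m) * ρ := by
    refine (mean_L2 F hF hF1 ρ hρ t).trans (mul_le_mul' ?_ le_rfl)
    exact pow_le_pow_right₀ (by norm_num) (by omega)
  refine (interp_q _ hc t _ _ q hq (mean_sup F hF ρ hρ) hE).trans (le_of_eq ?_)
  have e1 : q / 2 = (q - 2) / 2 + 1 := by ring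
  rw [e1, ENNReal.rpow_add_of_nonneg _ _ (by linarith) zero_le_one, ENNReal.rpow_one]

end Pool.Agent.T9h8.RS
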