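import Mathlib
set_option autoImplicit false
set_option linter.unusedSectionVars false

/-!
# Moments of sums of four-wise independent random variables
-/

namespace Pool.Agent.T9h8.RS

open MeasureTheory ProbabilityTheory Finset

variable {Ω ι : Type*} [MeasurableSpace Ω] {P : Measure Ω}

/-- four-wise independence: each variable is independent of each triple of the others -/
def Four {E : Type*} [MeasurableSpace E] (X : ι → Ω → E) (P : Measure Ω) : Prop :=
  ∀ a b c i, i ≠ a → i ≠ b → i ≠ c → IndepFun (fun ω => (X a ω, X b ω, X c ω)) (X i) P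

theorem Four.comp {E F : Type*} [MeasurableSpace E] [MeasurableSpace F] {X : ι → Ω → E}
    (h : Four X P) {g : ι → E → F} (hg : ∀ i, Measurable (g i)) :
    Four (fun i ω => g i (X i ω)) P := by
  intro a b c i ha hb hc
  have h1 := h a b c i ha hb hc
  have hm : Measurable fun p : E × E × E => (g a p.1, g b p.2.1, g c p.2.2) :=
    ((hg a).comp measurable_fst).prodMk
      (((hg b).comp (measurable_fst.comp measurable_snd)).prodMk
        ((hg c).comp (measurable_snd.comp measurable_snd)))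
  exact h1.comp hm (hg i)

section real

theorem int3 {A B C : Ω → ℝ} (hA : Integrable A P) (hB : Integrable B P) (hC : Integrable C P)
    (b : ℝ) : ∫ ω, (A ω + b * B ω + C ω) ∂P = ∫ ω, A ω ∂P + b * ∫ ω, B ω ∂P + ∫ ω, C ω ∂P := by
  rw [integral_add (f := fun ω => A ω + b * B ω) (hA.add (hB.const_mul b)) hC,
    integral_add hA (hB.const_mul b), integral_const_mul]

theorem int5 {A B C D E : Ω → ℝ} (hA : Integrable A P) (hB : Integrable B P)
    (hC : Integrable C P) (hD : Integrable D P) (hE : Integrable E P) (b c d : ℝ) :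
    ∫ ω, (A ω + b * B ω + c * C ω + d * D ω + E ω) ∂P =
      ∫ ω, A ω ∂P + b * ∫ ω, B ω ∂P + c * ∫ ω, C ω ∂P + d * ∫ ω, D ω ∂P + ∫ ω, E ω ∂P := by
  rw [integral_add (f := fun ω => A ω + b * B ω + c * C ω + d * D ω)
      (((hA.add (hB.const_mul b)).add (hC.const_mul c)).add (hD.const_mul d)) hE,
    integral_add (f := fun ω => A ω + b * B ω + c * C ω)
      ((hA.add (hB.const_mul b)).add (hC.const_mul c)) (hD.const_mul d),
    integral_add (f := fun ω => A ω + b * B ω) (hA.add (hB.const_mul b)) (hC.const_mul c),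
    integral_add hA (hB.const_mul b), integral_const_mul, integral_const_mul, integral_const_mul]

variable [IsProbabilityMeasure P] {Y : ι → Ω → ℝ}

theorem int_of_bd {g : Ω → ℝ} (hg : Measurable g) (B : ℝ) (hB : ∀ ω, |g ω| ≤ B) :
    Integrable g P :=
  Integrable.of_bound hg.aestronglyMeasurable B (Filter.Eventually.of_forall hB)

/-- the product formula -/
theorem prod_form (hm : ∀ i, Measurable (Y i)) (h4 : Four Y P)
    {a b c i : ι} (ha : i ≠ a) (hb : i ≠ b) (hc : i ≠ c) (φ : ℝ × ℝ × ℝ → ℝ) (ψ : ℝ → ℝ)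
    (hφ : Measurable φ) (hψ : Measurable ψ) :
    ∫ ω, φ (Y a ω, Y b ω, Y c ω) * ψ (Y i ω) ∂P =
      (∫ ω, φ (Y a ω, Y b ω, Y c ω) ∂P) * ∫ ω, ψ (Y i ω) ∂P := by
  have h1 := (h4 a b c i ha hb hc).comp hφ hψ
  exact h1.integral_fun_mul_eq_mul_integral
    (hφ.comp ((hm a).prodMk ((hm b).prodMk (hm c)))).aestronglyMeasurable
    (hψ.comp (hm i)).aestronglyMeasurable

variable (hm : ∀ i, Measurable (Y i)) (h4 : Four Y P) (B : ℝ) (hB : ∀ i ω, |Y i ω| ≤ B)
  (h0 : ∀ i, ∫ ω, Y i ω ∂P = 0)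

include hm in
theorem sum_meas (s : Finset ι) : Measurable fun ω => ∑ i ∈ s, Y i ω :=
  Finset.measurable_sum _ fun i _ => hm i

include hB in
theorem sum_bd (s : Finset ι) (ω : Ω) : |∑ i ∈ s, Y i ω| ≤ s.card * B := by
  refine (Finset.abs_sum_le_sum_abs _ _).trans ?_
  refine (Finset.sum_le_sum fun i _ => hB i ω).trans (le_of_eq ?_)
  rw [sum_const, nsmul_eq_mul]

include hm h4 hB in
/-- `E T^j ψ(Y_i)` factorises for `j ≤ 3` -/
theorem sum_fac (s : Finset ι) (i : ι) (hi : i ∉ s) (ψ : ℝ → ℝ) (hψ : Measurable ψ) (D : ℝ)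
    (hD : ∀ ω, |ψ (Y i ω)| ≤ D) :
    (∫ ω, (∑ j ∈ s, Y j ω) * ψ (Y i ω) ∂P =
      (∫ ω, (∑ j ∈ s, Y j ω) ∂P) * ∫ ω, ψ (Y i ω) ∂P) ∧
    (∫ ω, (∑ j ∈ s, Y j ω) ^ 2 * ψ (Y i ω) ∂P =
      (∫ ω, (∑ j ∈ s, Y j ω) ^ 2 ∂P) * ∫ ω, ψ (Y i ω) ∂P) ∧
    (∫ ω, (∑ j ∈ s, Y j ω) ^ 3 * ψ (Y i ω) ∂P =
      (∫ ω, (∑ j ∈ s, Y j ω) ^ 3 ∂P) * ∫ ω, ψ (Y i ω) ∂P) := by
  have hne : ∀ a ∈ s, i ≠ a := fun a ha h => hi (h ▸ ha)
  have hB0 : ∀ a ω, 0 ≤ B := fun a ω => (abs_nonneg _).trans (hB a ω)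
  have hψi : Measurable fun ω => ψ (Y i ω) := hψ.comp (hm i)
  have i1 : ∀ a, Integrable (Y a) P := fun a => int_of_bd (hm a) B (hB a)
  have b2 : ∀ a b ω, |Y a ω * Y b ω| ≤ B * B := fun a b ω => by
    rw [abs_mul]
    exact mul_le_mul (hB a ω) (hB b ω) (abs_nonneg _) (hB0 a ω)
  have b3 : ∀ a b c ω, |Y a ω * Y b ω * Y c ω| ≤ B * B * B := fun a b c ω => by
    rw [abs_mul]
    exact mul_le_mul (b2 a b ω) (hB c ω) (abs_nonneg _) (mul_nonneg (hB0 a ω) (hB0 a ω))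
  have i2 : ∀ a b, Integrable (fun ω => Y a ω * Y b ω) P := fun a b =>
    int_of_bd ((hm a).mul (hm b)) (B * B) (b2 a b)
  have i3 : ∀ a b c, Integrable (fun ω => Y a ω * Y b ω * Y c ω) P := fun a b c =>
    int_of_bd (((hm a).mul (hm b)).mul (hm c)) (B * B * B) (b3 a b c)
  have j1 : ∀ a, Integrable (fun ω => Y a ω * ψ (Y i ω)) P := fun a =>
    (i1 a).mul_bdd (c := D) hψi.aestronglyMeasurable (Filter.Eventually.of_forall hD)
  have j2 : ∀ a b, Integrable (fun ω => Y a ω * Y b ω * ψ (Y i ω)) P := fun a b =>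
    (i2 a b).mul_bdd (c := D) hψi.aestronglyMeasurable (Filter.Eventually.of_forall hD)
  have j3 : ∀ a b c, Integrable (fun ω => Y a ω * Y b ω * Y c ω * ψ (Y i ω)) P := fun a b c =>
    (i3 a b c).mul_bdd (c := D) hψi.aestronglyMeasurable (Filter.Eventually.of_forall hD)
  have e2 : ∀ ω, (∑ j ∈ s, Y j ω) ^ 2 = ∑ a ∈ s, ∑ b ∈ s, Y a ω * Y b ω := by
    intro ω
    rw [sq, sum_mul_sum]
  have e3 : ∀ ω, (∑ j ∈ s, Y j ω) ^ 3 = ∑ a ∈ s, ∑ b ∈ s, ∑ c ∈ s, Y a ω * Y b ω * Y c ω := by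
    intro ω
    rw [pow_succ, e2, sum_mul]
    refine sum_congr rfl fun a _ => ?_
    rw [sum_mul]
    refine sum_congr rfl fun b _ => ?_
    rw [mul_sum]
  refine ⟨?_, ?_, ?_⟩
  · simp_rw [sum_mul]
    rw [integral_finsetSum _ fun a _ => j1 a, integral_finsetSum _ fun a _ => i1 a, sum_mul]
    refine sum_congr rfl fun a ha => ?_
    exact prod_form hm h4 (hne a ha) (hne a ha) (hne a ha) (fun p => p.1) ψ measurable_fst hψ
  · simp_rw [e2, sum_mul]
    rw [integral_finsetSum _ fun a _ => integrable_finsetSum _ fun b _ => j2 a b,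
      integral_finsetSum _ fun a _ => integrable_finsetSum _ fun b _ => i2 a b, sum_mul]
    refine sum_congr rfl fun a ha => ?_
    rw [integral_finsetSum _ fun b _ => j2 a b, integral_finsetSum _ fun b _ => i2 a b, sum_mul]
    refine sum_congr rfl fun b hb => ?_
    exact prod_form hm h4 (hne a ha) (hne b hb) (hne b hb) (fun p => p.1 * p.2.1) ψ
      (by fun_prop) hψ
  · simp_rw [e3, sum_mul]
    rw [integral_finsetSum _ fun a _ => integrable_finsetSum _ fun b _ =>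
        integrable_finsetSum _ fun c _ => j3 a b c,
      integral_finsetSum _ fun a _ => integrable_finsetSum _ fun b _ =>
        integrable_finsetSum _ fun c _ => i3 a b c, sum_mul]
    refine sum_congr rfl fun a ha => ?_
    rw [integral_finsetSum _ fun b _ => integrable_finsetSum _ fun c _ => j3 a b c,
      integral_finsetSum _ fun b _ => integrable_finsetSum _ fun c _ => i3 a b c, sum_mul]
    refine sum_congr rfl fun b hb => ?_
    rw [integral_finsetSum _ fun c _ => j3 a b c, integral_finsetSum _ fun c _ => i3 a b c, sum_mul]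
    refine sum_congr rfl fun c hc => ?_
    exact prod_form hm h4 (hne a ha) (hne b hb) (hne c hc) (fun p => p.1 * p.2.1 * p.2.2) ψ
      (by fun_prop) hψ

include hm h4 hB h0 in
/-- the second and the fourth moment -/
theorem moments (s : Finset ι) :
    (∫ ω, (∑ j ∈ s, Y j ω) ^ 2 ∂P = ∑ j ∈ s, ∫ ω, Y j ω ^ 2 ∂P) ∧
    (∫ ω, (∑ j ∈ s, Y j ω) ^ 4 ∂P ≤
      3 * (∑ j ∈ s, ∫ ω, Y j ω ^ 2 ∂P) ^ 2 + ∑ j ∈ s, ∫ ω, Y j ω ^ 4 ∂P) := by
  classical
  induction s using Finset.induction_on with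
  | empty => simp
  | insert i s hi ih =>
    obtain ⟨ih2, ih4⟩ := ih
    have hT0 : ∫ ω, (∑ j ∈ s, Y j ω) ∂P = 0 := by
      rw [integral_finsetSum _ fun a _ => int_of_bd (hm a) B (hB a)]
      exact sum_eq_zero fun a _ => h0 a
    have hTm := sum_meas hm s
    have hTb := sum_bd B hB s
    set K : ℝ := s.card * B with hK
    have hp : ∀ (r t : ℕ), Integrable (fun ω => (∑ j ∈ s, Y j ω) ^ r * Y i ω ^ t) P := by
      intro r t
      refine int_of_bd ((hTm.pow_const r).mul ((hm i).pow_const t)) (K ^ r * B ^ t) fun ω => ?_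
      rw [abs_mul, abs_pow, abs_pow]
      have hK0 : 0 ≤ K := (abs_nonneg _).trans (hTb ω)
      exact mul_le_mul (pow_le_pow_left₀ (abs_nonneg _) (hTb ω) r)
        (pow_le_pow_left₀ (abs_nonneg _) (hB i ω) t) (by positivity) (by positivity)
    have hbt : ∀ (t : ℕ) ω, |Y i ω ^ t| ≤ B ^ t := fun t ω => by
      rw [abs_pow]
      exact pow_le_pow_left₀ (abs_nonneg _) (hB i ω) t
    have f1 := (sum_fac hm h4 B hB s i hi (fun y => y ^ 1) (by fun_prop) (B ^ 1) (hbt 1))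
    have f2 := (sum_fac hm h4 B hB s i hi (fun y => y ^ 2) (by fun_prop) (B ^ 2) (hbt 2))
    have f3 := (sum_fac hm h4 B hB s i hi (fun y => y ^ 3) (by fun_prop) (B ^ 3) (hbt 3))
    have hV0 : 0 ≤ ∑ j ∈ s, ∫ ω, Y j ω ^ 2 ∂P :=
      sum_nonneg fun j _ => integral_nonneg fun ω => by positivity
    have hv0 : 0 ≤ ∫ ω, Y i ω ^ 2 ∂P := integral_nonneg fun ω => by positivity
    constructor
    · have e : ∀ ω, (∑ j ∈ insert i s, Y j ω) ^ 2 =
          ((∑ j ∈ s, Y j ω) ^ 2 * Y i ω ^ 0 + 2 * ((∑ j ∈ s, Y j ω) ^ 1 * Y i ω ^ 1)) +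
            (∑ j ∈ s, Y j ω) ^ 0 * Y i ω ^ 2 := by
        intro ω
        rw [sum_insert hi]
        ring
      simp_rw [e]
      rw [int3 (hp 2 0) (hp 1 1) (hp 0 2), sum_insert hi]
      have g1 : ∫ ω, (∑ j ∈ s, Y j ω) ^ 1 * Y i ω ^ 1 ∂P = 0 := by
        have := f1.1
        rw [hT0, zero_mul] at this
        simpa using this
      rw [g1]
      simp only [pow_zero, mul_one, one_mul, mul_zero, add_zero]
      rw [ih2]
      ring
    · have e : ∀ ω, (∑ j ∈ insert i s, Y j ω) ^ 4 =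
          ((((∑ j ∈ s, Y j ω) ^ 4 * Y i ω ^ 0 + 4 * ((∑ j ∈ s, Y j ω) ^ 3 * Y i ω ^ 1)) +
            6 * ((∑ j ∈ s, Y j ω) ^ 2 * Y i ω ^ 2)) + 4 * ((∑ j ∈ s, Y j ω) ^ 1 * Y i ω ^ 3)) +
            (∑ j ∈ s, Y j ω) ^ 0 * Y i ω ^ 4 := by
        intro ω
        rw [sum_insert hi]
        ring
      simp_rw [e]
      rw [int5 (hp 4 0) (hp 3 1) (hp 2 2) (hp 1 3) (hp 0 4), sum_insert hi, sum_insert hi]
      have g1 : ∫ ω, (∑ j ∈ s, Y j ω) ^ 3 * Y i ω ^ 1 ∂P = 0 := by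
        have := f1.2.2
        simp only [pow_one] at this ⊢
        rw [this, h0 i, mul_zero]
      have g2 : ∫ ω, (∑ j ∈ s, Y j ω) ^ 2 * Y i ω ^ 2 ∂P =
          (∑ j ∈ s, ∫ ω, Y j ω ^ 2 ∂P) * ∫ ω, Y i ω ^ 2 ∂P := by
        rw [← ih2]
        exact f2.2.1
      have g3 : ∫ ω, (∑ j ∈ s, Y j ω) ^ 1 * Y i ω ^ 3 ∂P = 0 := by
        have := f3.1
        rw [hT0, zero_mul] at this
        simpa using this
      rw [g1, g2, g3]
      simp only [pow_zero, mul_one, one_mul, mul_zero, add_zero]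
      have hsq : 0 ≤ (∫ ω, Y i ω ^ 2 ∂P) ^ 2 := sq_nonneg _
      nlinarith [ih4]

end real

end Pool.Agent.T9h8.RS
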