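import Mathlib
import Pool.Agent.T9h8.RS.Prob
set_option autoImplicit false
set_option linter.unusedSectionVars false

/-!
# A moment inequality of Rosenthal type for four-wise independent variables
-/

namespace Pool.Agent.T9h8.RS

open MeasureTheory ProbabilityTheory Finset

theorem pow_young (q c x : ℝ) (hq2 : 2 ≤ q) (hq4 : q ≤ 4) (hc : 0 < c) :
    |x| ^ q ≤ c ^ (q - 2) * x ^ 2 + c ^ (q - 4) * x ^ 4 := by
  rcases (abs_nonneg x).eq_or_lt with h0 | h0
  · rw [← h0, Real.zero_rpow (by linarith)]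
    positivity
  · rcases le_total |x| c with h | h
    · have e : |x| ^ q = |x| ^ (q - 2) * x ^ 2 := by
        rw [← sq_abs x, ← Real.rpow_natCast |x| 2, ← Real.rpow_add h0]
        norm_num
      rw [e]
      have h1 : |x| ^ (q - 2) ≤ c ^ (q - 2) := Real.rpow_le_rpow h0.le h (by linarith)
      have h2 : 0 ≤ c ^ (q - 4) * x ^ 4 := by positivity
      nlinarith [mul_le_mul_of_nonneg_right h1 (sq_nonneg x)]
    · have e : |x| ^ q = |x| ^ (q - 4) * x ^ 4 := by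
        have : x ^ 4 = |x| ^ 4 := by
          rw [← abs_pow, abs_of_nonneg (by positivity)]
        rw [this, ← Real.rpow_natCast |x| 4, ← Real.rpow_add h0]
        norm_num
      rw [e]
      have h1 : |x| ^ (q - 4) ≤ c ^ (q - 4) :=
        Real.rpow_le_rpow_of_nonpos hc h (by linarith)
      have h2 : 0 ≤ c ^ (q - 2) * x ^ 2 := by positivity
      have h3 : 0 ≤ x ^ 4 := by positivity
      nlinarith [mul_le_mul_of_nonneg_right h1 h3]

theorem add_rpow_le4 (x y r : ℝ) (hx : 0 ≤ x) (hy : 0 ≤ y) (hr0 : 0 ≤ r) (hr : r ≤ 2) :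
    (x + y) ^ r ≤ 4 * (x ^ r + y ^ r) := by
  have h2 : (2 : ℝ) ^ r ≤ 4 := by
    calc (2 : ℝ) ^ r ≤ 2 ^ (2 : ℝ) := Real.rpow_le_rpow_of_exponent_le (by norm_num) hr
      _ = 4 := by norm_num
  have hxr : 0 ≤ x ^ r := by positivity
  have hyr : 0 ≤ y ^ r := by positivity
  rcases le_total x y with h | h
  · calc (x + y) ^ r ≤ (2 * y) ^ r := Real.rpow_le_rpow (by linarith) (by linarith) hr0
      _ = 2 ^ r * y ^ r := Real.mul_rpow (by norm_num) hy
      _ ≤ 4 * y ^ r := mul_le_mul_of_nonneg_right h2 hyr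
      _ ≤ _ := by linarith
  · calc (x + y) ^ r ≤ (2 * x) ^ r := Real.rpow_le_rpow (by linarith) (by linarith) hr0
      _ = 2 ^ r * x ^ r := Real.mul_rpow (by norm_num) hx
      _ ≤ 4 * x ^ r := mul_le_mul_of_nonneg_right h2 hxr
      _ ≤ _ := by linarith

variable {Ω ι : Type*} [MeasurableSpace Ω] {P : Measure Ω} [IsProbabilityMeasure P]

/-- one piece -/
theorem piece {Z : ι → Ω → ℝ} (hm : ∀ i, Measurable (Z i)) (h4 : Four Z P) (b : ℝ) (hb : 0 < b)
    (hB : ∀ i ω, |Z i ω| ≤ b) (q : ℝ) (hq2 : 2 ≤ q) (hq4 : q ≤ 4) (s : Finset ι) (v : ℝ)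
    (hv : ∑ j ∈ s, ∫ ω, Z j ω ^ 2 ∂P ≤ v) :
    ∫ ω, |∑ j ∈ s, (Z j ω - ∫ ω', Z j ω' ∂P)| ^ q ∂P ≤
      32 * (v ^ (q / 2) + b ^ (q - 2) * v) := by
  set Y : ι → Ω → ℝ := fun j ω => Z j ω - ∫ ω', Z j ω' ∂P with hY
  have hYm : ∀ i, Measurable (Y i) := fun i => (hm i).sub_const _
  have hY4 : Four Y P := h4.comp (g := fun i x => x - ∫ ω', Z i ω' ∂P) fun i => by fun_prop
  have hZi : ∀ i, Integrable (Z i) P := fun i => int_of_bd (hm i) b (hB i)
  have hmb : ∀ i, |∫ ω', Z i ω' ∂P| ≤ b := by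
    intro i
    refine (abs_integral_le_integral_abs).trans ?_
    refine (integral_mono (hZi i).abs (integrable_const b) (hB i)).trans (le_of_eq ?_)
    simp
  have hYb : ∀ i ω, |Y i ω| ≤ 2 * b := fun i ω => by
    refine (abs_sub _ _).trans ?_
    linarith [hB i ω, hmb i]
  have hY0 : ∀ i, ∫ ω, Y i ω ∂P = 0 := by
    intro i
    simp only [hY]
    rw [integral_sub (hZi i) (integrable_const _)]
    simp
  have hZ2 : ∀ i, Integrable (fun ω => Z i ω ^ 2) P := fun i =>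
    int_of_bd ((hm i).pow_const 2) (b ^ 2) fun ω => by
      rw [abs_pow]; exact pow_le_pow_left₀ (abs_nonneg _) (hB i ω) 2
  have hY2 : ∀ i, Integrable (fun ω => Y i ω ^ 2) P := fun i =>
    int_of_bd ((hYm i).pow_const 2) ((2 * b) ^ 2) fun ω => by
      rw [abs_pow]; exact pow_le_pow_left₀ (abs_nonneg _) (hYb i ω) 2
  have hY4i : ∀ i, Integrable (fun ω => Y i ω ^ 4) P := fun i =>
    int_of_bd ((hYm i).pow_const 4) ((2 * b) ^ 4) fun ω => by
      rw [abs_pow]; exact pow_le_pow_left₀ (abs_nonneg _) (hYb i ω) 4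
  have hvar : ∀ i, ∫ ω, Y i ω ^ 2 ∂P ≤ ∫ ω, Z i ω ^ 2 ∂P := by
    intro i
    set μ₀ : ℝ := ∫ ω', Z i ω' ∂P with hμ₀
    have e : ∀ ω, Y i ω ^ 2 = Z i ω ^ 2 + (-2 * μ₀) * Z i ω + μ₀ ^ 2 := fun ω => by
      simp only [hY]
      ring
    simp_rw [e]
    rw [int3 (hZ2 i) (hZi i) (integrable_const _), ← hμ₀]
    simp only [integral_const, smul_eq_mul, probReal_univ, one_mul]
    nlinarith [sq_nonneg μ₀]
  have hfour : ∀ i, ∫ ω, Y i ω ^ 4 ∂P ≤ 4 * b ^ 2 * ∫ ω, Y i ω ^ 2 ∂P := by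
    intro i
    rw [← integral_const_mul]
    refine integral_mono (hY4i i) ((hY2 i).const_mul _) fun ω => ?_
    have h1 : Y i ω ^ 2 ≤ 4 * b ^ 2 := by
      have := pow_le_pow_left₀ (abs_nonneg _) (hYb i ω) 2
      rw [sq_abs] at this
      linarith
    have h2 : 0 ≤ Y i ω ^ 2 := sq_nonneg _
    simp only
    nlinarith
  set v' : ℝ := ∑ j ∈ s, ∫ ω, Y j ω ^ 2 ∂P with hv'
  have hv'0 : 0 ≤ v' := sum_nonneg fun j _ => integral_nonneg fun ω => by positivity
  have hv'v : v' ≤ v := (sum_le_sum fun j _ => hvar j).trans hv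
  have hv0 : 0 ≤ v := hv'0.trans hv'v
  obtain ⟨m2, m4⟩ := moments hYm hY4 (2 * b) hYb hY0 s
  rw [← hv'] at m2 m4
  have hsum4 : ∑ j ∈ s, ∫ ω, Y j ω ^ 4 ∂P ≤ 4 * b ^ 2 * v' := by
    rw [hv', mul_sum]
    exact sum_le_sum fun j _ => hfour j
  set c : ℝ := Real.sqrt v + b with hc
  have hsq : 0 ≤ Real.sqrt v := Real.sqrt_nonneg v
  have hc0 : 0 < c := by positivity
  have hcv : v ≤ c ^ 2 := by
    have := Real.sq_sqrt hv0
    nlinarith
  have hcb : b ^ 2 ≤ c ^ 2 := pow_le_pow_left₀ hb.le (by linarith) 2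
  have hTm := sum_meas hYm s
  have hTb := sum_bd (2 * b) hYb s
  have hT2 : Integrable (fun ω => (∑ j ∈ s, Y j ω) ^ 2) P :=
    int_of_bd (hTm.pow_const 2) ((s.card * (2 * b)) ^ 2) fun ω => by
      rw [abs_pow]; exact pow_le_pow_left₀ (abs_nonneg _) (hTb ω) 2
  have hT4 : Integrable (fun ω => (∑ j ∈ s, Y j ω) ^ 4) P :=
    int_of_bd (hTm.pow_const 4) ((s.card * (2 * b)) ^ 4) fun ω => by
      rw [abs_pow]; exact pow_le_pow_left₀ (abs_nonneg _) (hTb ω) 4
  have h1 : ∫ ω, |∑ j ∈ s, Y j ω| ^ q ∂P ≤ c ^ (q - 2) * v' + c ^ (q - 4) * (3 * v' ^ 2 + 4 * b ^ 2 * v') := by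
    calc ∫ ω, |∑ j ∈ s, Y j ω| ^ q ∂P
        ≤ ∫ ω, (c ^ (q - 2) * (∑ j ∈ s, Y j ω) ^ 2 + c ^ (q - 4) * (∑ j ∈ s, Y j ω) ^ 4) ∂P := by
          refine integral_mono_of_nonneg (Filter.Eventually.of_forall fun ω => by positivity)
            ((hT2.const_mul _).add (hT4.const_mul _))
            (Filter.Eventually.of_forall fun ω => pow_young q c _ hq2 hq4 hc0)
      _ = c ^ (q - 2) * v' + c ^ (q - 4) * ∫ ω, (∑ j ∈ s, Y j ω) ^ 4 ∂P := by
          rw [integral_add (hT2.const_mul _) (hT4.const_mul _), integral_const_mul,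
            integral_const_mul, m2]
      _ ≤ _ := by
          have : 0 ≤ c ^ (q - 4) := by positivity
          have h5 := m4.trans (add_le_add_right hsum4 _)
          nlinarith [mul_le_mul_of_nonneg_left h5 this]
  have h2 : c ^ (q - 4) * (3 * v' ^ 2 + 4 * b ^ 2 * v') ≤ 7 * (c ^ (q - 2) * v) := by
    have e : c ^ (q - 2) = c ^ (q - 4) * c ^ 2 := by
      rw [← Real.rpow_natCast c 2, ← Real.rpow_add hc0]
      congr 1
      push_cast
      ring
    rw [e]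
    have h3 : 3 * v' ^ 2 + 4 * b ^ 2 * v' ≤ 7 * (c ^ 2 * v) := by
      have a1 : v' ^ 2 ≤ c ^ 2 * v := by
        calc v' ^ 2 ≤ v ^ 2 := pow_le_pow_left₀ hv'0 hv'v 2
          _ = v * v := sq v
          _ ≤ c ^ 2 * v := mul_le_mul_of_nonneg_right hcv hv0
      have a2 : b ^ 2 * v' ≤ c ^ 2 * v := mul_le_mul hcb hv'v hv'0 (by positivity)
      linarith
    have : 0 ≤ c ^ (q - 4) := by positivity
    nlinarith [mul_le_mul_of_nonneg_left h3 this]
  have h3 : c ^ (q - 2) * v' ≤ c ^ (q - 2) * v := mul_le_mul_of_nonneg_left hv'v (by positivity)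
  have h4' : c ^ (q - 2) ≤ 4 * (v ^ ((q - 2) / 2) + b ^ (q - 2)) := by
    have := add_rpow_le4 (Real.sqrt v) b (q - 2) hsq hb.le (by linarith) (by linarith)
    have e : Real.sqrt v ^ (q - 2) = v ^ ((q - 2) / 2) := by
      rw [Real.sqrt_eq_rpow, ← Real.rpow_mul hv0]
      congr 1
      ring
    rwa [e] at this
  have h5 : v ^ ((q - 2) / 2) * v = v ^ (q / 2) := by
    rcases hv0.eq_or_lt with h | h
    · rw [← h, Real.zero_rpow (show q / 2 ≠ 0 by linarith), mul_zero]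
    · nth_rewrite 2 [← Real.rpow_one v]
      rw [← Real.rpow_add h]
      congr 1
      ring
  calc ∫ ω, |∑ j ∈ s, Y j ω| ^ q ∂P ≤ 8 * (c ^ (q - 2) * v) := by linarith
    _ ≤ 8 * (4 * (v ^ ((q - 2) / 2) + b ^ (q - 2)) * v) := by
        refine mul_le_mul_of_nonneg_left ?_ (by norm_num)
        exact mul_le_mul_of_nonneg_right h4' hv0
    _ = 32 * (v ^ ((q - 2) / 2) * v + b ^ (q - 2) * v) := by ring
    _ = _ := by rw [h5]

/-- truncation at the height `a / 2 ^ l` -/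
noncomputable def lo (a : ℝ) (l : ℕ) (z : ℝ) : ℝ := if |z| ≤ a / 2 ^ l then z else 0

theorem lo_meas (a : ℝ) (l : ℕ) : Measurable (lo a l) := by
  unfold lo
  exact Measurable.ite (measurableSet_le measurable_id.abs measurable_const) measurable_id
    measurable_const

/-- the layers -/
noncomputable def tl (a : ℝ) (L l : ℕ) (z : ℝ) : ℝ :=
  if l < L then lo a l z - lo a (l + 1) z else lo a L z

theorem tl_meas (a : ℝ) (L l : ℕ) : Measurable (tl a L l) := by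
  unfold tl
  split_ifs
  · exact (lo_meas a l).sub (lo_meas a (l + 1))
  · exact lo_meas a L

theorem tl_sum (a : ℝ) (L : ℕ) (z : ℝ) (hz : |z| ≤ a) : ∑ l ∈ range (L + 1), tl a L l z = z := by
  rw [sum_range_succ]
  have h1 : ∑ l ∈ range L, tl a L l z = lo a 0 z - lo a L z := by
    rw [← sum_range_sub' (fun l => lo a l z) L]
    refine sum_congr rfl fun l hl => ?_
    unfold tl
    rw [if_pos (mem_range.1 hl)]
  rw [h1]
  have h2 : tl a L L z = lo a L z := by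
    unfold tl
    rw [if_neg (lt_irrefl _)]
  rw [h2]
  have h3 : lo a 0 z = z := by
    unfold lo
    rw [if_pos (by simpa using hz)]
  rw [h3]
  ring

theorem lo_cases (a : ℝ) (ha : 0 < a) (l : ℕ) (z : ℝ) :
    lo a l z - lo a (l + 1) z = 0 ∨
      (lo a l z - lo a (l + 1) z = z ∧ |z| ≤ a / 2 ^ l ∧ a / 2 ^ l ≤ 2 * |z|) := by
  unfold lo
  have hle : a / 2 ^ (l + 1) ≤ a / 2 ^ l := by
    refine div_le_div_of_nonneg_left ha.le (by positivity) ?_
    exact pow_le_pow_right₀ (by norm_num) (by omega)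
  by_cases h1 : |z| ≤ a / 2 ^ (l + 1)
  · left
    rw [if_pos h1, if_pos (h1.trans hle), sub_self]
  · by_cases h2 : |z| ≤ a / 2 ^ l
    · right
      rw [if_neg h1, if_pos h2, sub_zero]
      refine ⟨rfl, h2, ?_⟩
      rw [not_le] at h1
      have : a / 2 ^ l = 2 * (a / 2 ^ (l + 1)) := by
        rw [pow_succ]
        field_simp
      rw [this]
      linarith
    · left
      rw [if_neg h1, if_neg h2, sub_self]

theorem tl_bd (a : ℝ) (ha : 0 < a) (L l : ℕ) (hl : l ≤ L) (z : ℝ) : |tl a L l z| ≤ a / 2 ^ l := by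
  unfold tl
  split_ifs with h
  · rcases lo_cases a ha l z with h1 | ⟨h1, h2, -⟩
    · rw [h1, abs_zero]; positivity
    · rw [h1]; exact h2
  · have : l = L := by omega
    rw [this]
    unfold lo
    split_ifs with h2
    · exact h2
    · rw [abs_zero]; positivity

theorem tl_sq (a : ℝ) (ha : 0 < a) (L l : ℕ) (z : ℝ) : tl a L l z ^ 2 ≤ z ^ 2 := by
  unfold tl
  split_ifs with h
  · rcases lo_cases a ha l z with h1 | ⟨h1, -, -⟩
    · rw [h1]; nlinarith [sq_nonneg z]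
    · rw [h1]
  · unfold lo
    split_ifs with h2
    · exact le_rfl
    · nlinarith [sq_nonneg z]

theorem tl_q (a : ℝ) (ha : 0 < a) (L l : ℕ) (hl : l < L) (q : ℝ) (hq2 : 2 ≤ q) (hq4 : q ≤ 4)
    (z : ℝ) : (a / 2 ^ l) ^ (q - 2) * tl a L l z ^ 2 ≤ 4 * |z| ^ q := by
  unfold tl
  rw [if_pos hl]
  rcases lo_cases a ha l z with h1 | ⟨h1, h2, h3⟩
  · rw [h1]
    have : 0 ≤ |z| ^ q := by positivity
    simp only [ne_eq, OfNat.ofNat_ne_zero, not_false_eq_true, zero_pow, mul_zero]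
    linarith
  · rw [h1]
    have hal : 0 < a / 2 ^ l := by positivity
    have hz : 0 < |z| := by linarith
    calc (a / 2 ^ l) ^ (q - 2) * z ^ 2 ≤ (2 * |z|) ^ (q - 2) * z ^ 2 :=
          mul_le_mul_of_nonneg_right (Real.rpow_le_rpow hal.le h3 (by linarith)) (sq_nonneg _)
      _ = 2 ^ (q - 2) * |z| ^ q := by
          rw [Real.mul_rpow (by norm_num) hz.le, ← sq_abs z, mul_assoc, ← Real.rpow_natCast |z| 2,
            ← Real.rpow_add hz]
          congr 2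
          push_cast
          ring
      _ ≤ 4 * |z| ^ q := by
          refine mul_le_mul_of_nonneg_right ?_ (by positivity)
          calc (2 : ℝ) ^ (q - 2) ≤ 2 ^ (2 : ℝ) :=
                Real.rpow_le_rpow_of_exponent_le (by norm_num) (by linarith)
            _ = 4 := by norm_num

/-- **A moment inequality for four-wise independent variables.** -/
theorem ros {Z : ι → Ω → ℝ} (hm : ∀ i, Measurable (Z i)) (h4 : Four Z P) (a : ℝ) (ha : 0 < a)
    (hB : ∀ i ω, |Z i ω| ≤ a) (q : ℝ) (hq2 : 2 ≤ q) (hq4 : q ≤ 4) (s : Finset ι) (V M : ℝ)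
    (hV : ∑ j ∈ s, ∫ ω, Z j ω ^ 2 ∂P ≤ V) (hM : ∑ j ∈ s, ∫ ω, |Z j ω| ^ q ∂P ≤ M) (L : ℕ) :
    ∫ ω, |∑ j ∈ s, (Z j ω - ∫ ω', Z j ω' ∂P)| ^ q ∂P ≤
      128 * ((L : ℝ) + 1) ^ q * (V ^ (q / 2) + M + (a / 2 ^ L) ^ (q - 2) * V) := by
  set W : ℕ → ι → Ω → ℝ := fun l j ω => tl a L l (Z j ω) with hW
  have hWm : ∀ l j, Measurable (W l j) := fun l j => (tl_meas a L l).comp (hm j)
  have hW4 : ∀ l, Four (W l) P := fun l => h4.comp (g := fun _ => tl a L l) fun _ => tl_meas a L l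
  have hWb : ∀ l ≤ L, ∀ j ω, |W l j ω| ≤ a / 2 ^ l := fun l hl j ω => tl_bd a ha L l hl _
  have hWi : ∀ l ≤ L, ∀ j, Integrable (W l j) P := fun l hl j =>
    int_of_bd (hWm l j) _ (hWb l hl j)
  have hZ2 : ∀ i, Integrable (fun ω => Z i ω ^ 2) P := fun i =>
    int_of_bd ((hm i).pow_const 2) (a ^ 2) fun ω => by
      rw [abs_pow]; exact pow_le_pow_left₀ (abs_nonneg _) (hB i ω) 2
  have hZq : ∀ i, Integrable (fun ω => |Z i ω| ^ q) P := fun i =>
    int_of_bd ((hm i).abs.pow_const q) (a ^ q) fun ω => by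
      rw [abs_of_nonneg (by positivity)]
      exact Real.rpow_le_rpow (abs_nonneg _) (hB i ω) (by linarith)
  have hW2 : ∀ l ≤ L, ∀ j, Integrable (fun ω => W l j ω ^ 2) P := fun l hl j =>
    int_of_bd ((hWm l j).pow_const 2) ((a / 2 ^ l) ^ 2) fun ω => by
      rw [abs_pow]; exact pow_le_pow_left₀ (abs_nonneg _) (hWb l hl j ω) 2
  have hV0 : 0 ≤ V := le_trans (sum_nonneg fun j _ => integral_nonneg fun ω => by positivity) hV
  have hM0 : 0 ≤ M := le_trans (sum_nonneg fun j _ => integral_nonneg fun ω => by positivity) hM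
  have hvl : ∀ l ≤ L, ∑ j ∈ s, ∫ ω, W l j ω ^ 2 ∂P ≤ V := by
    intro l hl
    refine le_trans (sum_le_sum fun j _ => ?_) hV
    exact integral_mono (hW2 l hl j) (hZ2 j) fun ω => tl_sq a ha L l _
  -- decomposition
  set X : ℕ → Ω → ℝ := fun l ω => ∑ j ∈ s, (W l j ω - ∫ ω', W l j ω' ∂P) with hX
  have hdec : ∀ ω, ∑ j ∈ s, (Z j ω - ∫ ω', Z j ω' ∂P) = ∑ l ∈ range (L + 1), X l ω := by
    intro ω
    simp only [hX]
    rw [sum_comm]
    refine sum_congr rfl fun j _ => ?_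
    rw [sum_sub_distrib]
    congr 1
    · exact (tl_sum a L _ (hB j ω)).symm
    · rw [← integral_finsetSum _ fun l hl => hWi l (by rw [mem_range] at hl; omega) j]
      exact integral_congr_ae (Filter.Eventually.of_forall fun ω' => (tl_sum a L _ (hB j ω')).symm)
  have hXm : ∀ l, Measurable (X l) := fun l =>
    Finset.measurable_sum _ fun j _ => (hWm l j).sub_const _
  have hXb : ∀ l ≤ L, ∃ D, ∀ ω, |X l ω| ≤ D := by
    intro l hl
    refine ⟨∑ j ∈ s, (a / 2 ^ l + |∫ ω', W l j ω' ∂P|), fun ω => ?_⟩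
    refine (Finset.abs_sum_le_sum_abs _ _).trans (sum_le_sum fun j _ => ?_)
    refine (abs_sub _ _).trans ?_
    linarith [hWb l hl j ω]
  have hXq : ∀ l ≤ L, Integrable (fun ω => |X l ω| ^ q) P := by
    intro l hl
    obtain ⟨D, hD⟩ := hXb l hl
    refine int_of_bd ((hXm l).abs.pow_const q) (D ^ q) fun ω => ?_
    rw [abs_of_nonneg (by positivity)]
    exact Real.rpow_le_rpow (abs_nonneg _) (hD ω) (by linarith)
  have hpc : ∀ l ≤ L, ∫ ω, |X l ω| ^ q ∂P ≤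
      32 * (V ^ (q / 2) + (a / 2 ^ l) ^ (q - 2) * ∑ j ∈ s, ∫ ω, W l j ω ^ 2 ∂P) := by
    intro l hl
    have h := piece (hWm l) (hW4 l) (a / 2 ^ l) (by positivity) (hWb l hl) q hq2 hq4 s _ le_rfl
    refine h.trans ?_
    have h0 : 0 ≤ ∑ j ∈ s, ∫ ω, W l j ω ^ 2 ∂P :=
      sum_nonneg fun j _ => integral_nonneg fun ω => by positivity
    have h1 := Real.rpow_le_rpow h0 (hvl l hl) (show 0 ≤ q / 2 by linarith)
    linarith
  have hpl : ∀ l < L, ∫ ω, |X l ω| ^ q ∂P ≤ 32 * V ^ (q / 2) + 128 * M := by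
    intro l hl
    refine (hpc l hl.le).trans ?_
    have h1 : (a / 2 ^ l) ^ (q - 2) * ∑ j ∈ s, ∫ ω, W l j ω ^ 2 ∂P ≤ 4 * M := by
      rw [mul_sum]
      calc ∑ j ∈ s, (a / 2 ^ l) ^ (q - 2) * ∫ ω, W l j ω ^ 2 ∂P
          ≤ ∑ j ∈ s, 4 * ∫ ω, |Z j ω| ^ q ∂P := by
            refine sum_le_sum fun j _ => ?_
            rw [← integral_const_mul, ← integral_const_mul]
            exact integral_mono ((hW2 l hl.le j).const_mul _) ((hZq j).const_mul _) fun ω =>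
              tl_q a ha L l hl q hq2 hq4 _
        _ ≤ 4 * M := by
            rw [← mul_sum]
            linarith
    linarith
  have hpL : ∫ ω, |X L ω| ^ q ∂P ≤ 32 * V ^ (q / 2) + 32 * ((a / 2 ^ L) ^ (q - 2) * V) := by
    refine (hpc L le_rfl).trans ?_
    have h1 : (a / 2 ^ L) ^ (q - 2) * ∑ j ∈ s, ∫ ω, W L j ω ^ 2 ∂P ≤ (a / 2 ^ L) ^ (q - 2) * V :=
      mul_le_mul_of_nonneg_left (hvl L le_rfl) (by positivity)
    linarith
  have hpow : ∀ ω, |∑ j ∈ s, (Z j ω - ∫ ω', Z j ω' ∂P)| ^ q ≤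
      ((L : ℝ) + 1) ^ (q - 1) * ∑ l ∈ range (L + 1), |X l ω| ^ q := by
    intro ω
    rw [hdec ω]
    have h1 := Real.rpow_sum_le_const_mul_sum_rpow (range (L + 1)) (fun l => X l ω)
      (show 1 ≤ q by linarith)
    rw [card_range] at h1
    push_cast at h1
    refine le_trans ?_ h1
    exact Real.rpow_le_rpow (abs_nonneg _) (Finset.abs_sum_le_sum_abs _ _) (by linarith)
  have hL0 : (0 : ℝ) ≤ L := Nat.cast_nonneg L
  have hmain : ∫ ω, |∑ j ∈ s, (Z j ω - ∫ ω', Z j ω' ∂P)| ^ q ∂P ≤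
      ((L : ℝ) + 1) ^ (q - 1) * ∑ l ∈ range (L + 1), ∫ ω, |X l ω| ^ q ∂P := by
    rw [← integral_finsetSum _ fun l hl => hXq l (by rw [mem_range] at hl; omega),
      ← integral_const_mul]
    refine integral_mono_of_nonneg (Filter.Eventually.of_forall fun ω => by positivity) ?_
      (Filter.Eventually.of_forall hpow)
    exact (integrable_finsetSum _ fun l hl => hXq l (by rw [mem_range] at hl; omega)).const_mul _
  refine hmain.trans ?_
  have hs : ∑ l ∈ range (L + 1), ∫ ω, |X l ω| ^ q ∂P ≤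
      128 * ((L : ℝ) + 1) * (V ^ (q / 2) + M + (a / 2 ^ L) ^ (q - 2) * V) := by
    rw [sum_range_succ]
    have h1 : ∑ l ∈ range L, ∫ ω, |X l ω| ^ q ∂P ≤ L * (32 * V ^ (q / 2) + 128 * M) := by
      refine (sum_le_sum fun l hl => hpl l (mem_range.1 hl)).trans (le_of_eq ?_)
      rw [sum_const, card_range, nsmul_eq_mul]
    have hA : 0 ≤ V ^ (q / 2) := by positivity
    have hT : 0 ≤ (a / 2 ^ L) ^ (q - 2) * V := by positivity
    have h2 : 0 ≤ (L : ℝ) * V ^ (q / 2) := by positivity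
    have h3 : 0 ≤ (L : ℝ) * ((a / 2 ^ L) ^ (q - 2) * V) := by positivity
    nlinarith [hpL]
  calc ((L : ℝ) + 1) ^ (q - 1) * ∑ l ∈ range (L + 1), ∫ ω, |X l ω| ^ q ∂P
      ≤ ((L : ℝ) + 1) ^ (q - 1) * (128 * ((L : ℝ) + 1) *
        (V ^ (q / 2) + M + (a / 2 ^ L) ^ (q - 2) * V)) :=
        mul_le_mul_of_nonneg_left hs (by positivity)
    _ = 128 * (((L : ℝ) + 1) ^ (q - 1) * ((L : ℝ) + 1)) *
        (V ^ (q / 2) + M + (a / 2 ^ L) ^ (q - 2) * V) := by ring
    _ = _ := by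
        congr 2
        nth_rewrite 2 [← Real.rpow_one ((L : ℝ) + 1)]
        rw [← Real.rpow_add (by positivity)]
        congr 1
        ring

/-- the complex version -/
theorem rosC {Z : ι → Ω → ℂ} (hm : ∀ i, Measurable (Z i)) (h4 : Four Z P) (a : ℝ) (ha : 0 < a)
    (hB : ∀ i ω, ‖Z i ω‖ ≤ a) (q : ℝ) (hq2 : 2 ≤ q) (hq4 : q ≤ 4) (s : Finset ι) (V M : ℝ)
    (hV : ∑ j ∈ s, ∫ ω, ‖Z j ω‖ ^ 2 ∂P ≤ V) (hM : ∑ j ∈ s, ∫ ω, ‖Z j ω‖ ^ q ∂P ≤ M) (L : ℕ) :
    ∫ ω, ‖∑ j ∈ s, (Z j ω - ∫ ω', Z j ω' ∂P)‖ ^ q ∂P ≤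
      4096 * ((L : ℝ) + 1) ^ q * (V ^ (q / 2) + M + (a / 2 ^ L) ^ (q - 2) * V) := by
  have hZi : ∀ i, Integrable (Z i) P := fun i =>
    Integrable.of_bound (hm i).aestronglyMeasurable a (Filter.Eventually.of_forall (hB i))
  have hZ2 : ∀ i, Integrable (fun ω => ‖Z i ω‖ ^ 2) P := fun i =>
    int_of_bd ((hm i).norm.pow_const 2) (a ^ 2) fun ω => by
      rw [abs_of_nonneg (by positivity)]
      exact pow_le_pow_left₀ (norm_nonneg _) (hB i ω) 2
  have hZq : ∀ i, Integrable (fun ω => ‖Z i ω‖ ^ q) P := fun i =>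
    int_of_bd ((hm i).norm.pow_const q) (a ^ q) fun ω => by
      rw [abs_of_nonneg (by positivity)]
      exact Real.rpow_le_rpow (norm_nonneg _) (hB i ω) (by linarith)
  -- a general bound for a real part
  have key : ∀ (ρ : ℂ →L[ℝ] ℝ), (∀ z, |ρ z| ≤ ‖z‖) →
      Integrable (fun ω => |ρ (∑ j ∈ s, (Z j ω - ∫ ω', Z j ω' ∂P))| ^ q) P ∧
      ∫ ω, |ρ (∑ j ∈ s, (Z j ω - ∫ ω', Z j ω' ∂P))| ^ q ∂P ≤
        128 * ((L : ℝ) + 1) ^ q * (V ^ (q / 2) + M + (a / 2 ^ L) ^ (q - 2) * V) := by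
    intro ρ hρ
    have e : ∀ ω, ρ (∑ j ∈ s, (Z j ω - ∫ ω', Z j ω' ∂P)) =
        ∑ j ∈ s, (ρ (Z j ω) - ∫ ω', ρ (Z j ω') ∂P) := by
      intro ω
      rw [map_sum]
      refine sum_congr rfl fun j _ => ?_
      rw [map_sub, ContinuousLinearMap.integral_comp_comm ρ (hZi j)]
    simp_rw [e]
    have hrm : ∀ i, Measurable fun ω => ρ (Z i ω) := fun i => ρ.continuous.measurable.comp (hm i)
    have hr4 : Four (fun i ω => ρ (Z i ω)) P :=
      h4.comp (g := fun _ z => ρ z) fun _ => ρ.continuous.measurable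
    have hrb : ∀ i ω, |ρ (Z i ω)| ≤ a := fun i ω => (hρ _).trans (hB i ω)
    constructor
    · have hSm : Measurable fun ω => ∑ j ∈ s, (ρ (Z j ω) - ∫ ω', ρ (Z j ω') ∂P) :=
        Finset.measurable_sum _ fun j _ => (hrm j).sub_const _
      refine int_of_bd (hSm.abs.pow_const q)
        ((∑ j ∈ s, (a + |∫ ω', ρ (Z j ω') ∂P|)) ^ q) fun ω => ?_
      rw [abs_of_nonneg (by positivity)]
      refine Real.rpow_le_rpow (abs_nonneg _) ?_ (by linarith)
      refine (Finset.abs_sum_le_sum_abs _ _).trans (sum_le_sum fun j _ => ?_)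
      refine (abs_sub _ _).trans ?_
      linarith [hrb j ω]
    · refine ros hrm hr4 a ha hrb q hq2 hq4 s V M ?_ ?_ L
      · refine le_trans (sum_le_sum fun j _ => ?_) hV
        refine integral_mono_of_nonneg (Filter.Eventually.of_forall fun ω => by positivity) (hZ2 j)
          (Filter.Eventually.of_forall fun ω => ?_)
        simp only
        rw [← sq_abs]
        exact pow_le_pow_left₀ (abs_nonneg _) (hρ _) 2
      · refine le_trans (sum_le_sum fun j _ => ?_) hM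
        refine integral_mono_of_nonneg (Filter.Eventually.of_forall fun ω => by positivity) (hZq j)
          (Filter.Eventually.of_forall fun ω => ?_)
        exact Real.rpow_le_rpow (abs_nonneg _) (hρ _) (by linarith)
  obtain ⟨r1, r2⟩ := key Complex.reCLM fun z => Complex.abs_re_le_norm z
  obtain ⟨i1, i2⟩ := key Complex.imCLM fun z => Complex.abs_im_le_norm z
  have hpt : ∀ z : ℂ, ‖z‖ ^ q ≤ 16 * (|Complex.reCLM z| ^ q + |Complex.imCLM z| ^ q) := by
    intro z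
    have h1 : ‖z‖ ≤ |z.re| + |z.im| := Complex.norm_le_abs_re_add_abs_im z
    have hx : 0 ≤ |z.re| := abs_nonneg _
    have hy : 0 ≤ |z.im| := abs_nonneg _
    have h2 : (2 : ℝ) ^ q ≤ 16 := by
      calc (2 : ℝ) ^ q ≤ 2 ^ (4 : ℝ) := Real.rpow_le_rpow_of_exponent_le (by norm_num) hq4
        _ = 16 := by norm_num
    have hxr : 0 ≤ |z.re| ^ q := by positivity
    have hyr : 0 ≤ |z.im| ^ q := by positivity
    simp only [Complex.reCLM_apply, Complex.imCLM_apply]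
    rcases le_total |z.re| |z.im| with h | h
    · calc ‖z‖ ^ q ≤ (2 * |z.im|) ^ q := Real.rpow_le_rpow (norm_nonneg _) (by linarith) (by linarith)
        _ = 2 ^ q * |z.im| ^ q := Real.mul_rpow (by norm_num) hy
        _ ≤ 16 * |z.im| ^ q := mul_le_mul_of_nonneg_right h2 hyr
        _ ≤ _ := by linarith
    · calc ‖z‖ ^ q ≤ (2 * |z.re|) ^ q := Real.rpow_le_rpow (norm_nonneg _) (by linarith) (by linarith)
        _ = 2 ^ q * |z.re| ^ q := Real.mul_rpow (by norm_num) hx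
        _ ≤ 16 * |z.re| ^ q := mul_le_mul_of_nonneg_right h2 hxr
        _ ≤ _ := by linarith
  calc ∫ ω, ‖∑ j ∈ s, (Z j ω - ∫ ω', Z j ω' ∂P)‖ ^ q ∂P
      ≤ ∫ ω, 16 * (|Complex.reCLM (∑ j ∈ s, (Z j ω - ∫ ω', Z j ω' ∂P))| ^ q +
        |Complex.imCLM (∑ j ∈ s, (Z j ω - ∫ ω', Z j ω' ∂P))| ^ q) ∂P :=
        integral_mono_of_nonneg (Filter.Eventually.of_forall fun ω => by positivity)
          ((r1.add i1).const_mul 16) (Filter.Eventually.of_forall fun ω => hpt _)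
    _ ≤ _ := by
        rw [integral_const_mul, integral_add r1 i1]
        linarith

end Pool.Agent.T9h8.RS
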