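import Mathlib
import Pool.Agent.T9h8.RS.Mean
import Pool.Agent.T9h8.RS.Ros
set_option autoImplicit false
set_option linter.unusedSectionVars false

/-!
# Cells and shifted slabs
-/

namespace Pool.Agent.T9h8.RS

open MeasureTheory Set Complex
open Pool.Agent.W771.MD (qe em qe_norm em_norm em_enorm em_cont em_meas planchM)
open scoped ENNReal NNReal

variable {k m : ℕ}

/-- the cell of a point -/
noncomputable def cell (M : ℝ) (u : Fin k → ℝ) : Fin k → ℤ := fun i => ⌊M * u i⌋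

theorem cell_meas (M : ℝ) : Measurable (cell (k := k) M) :=
  measurable_pi_lambda _ fun i => Int.measurable_floor.comp
    (measurable_const.mul (measurable_pi_apply i))

/-- the points of the cube in a cell -/
def QQ (M : ℝ) (j : Fin k → ℤ) : Set (Fin k → ℝ) := Cb k ∩ cell M ⁻¹' {j}

theorem QQ_meas (M : ℝ) (j : Fin k → ℤ) : MeasurableSet (QQ M j) :=
  Cb_meas.inter (cell_meas M (measurableSet_singleton j))

theorem QQ_sub (M : ℝ) (j : Fin k → ℤ) : QQ M j ⊆ Cb k := inter_subset_left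

theorem QQ_vol (M : ℝ) (hM : 0 < M) (j : Fin k → ℤ) :
    volume (QQ M j) ≤ ENNReal.ofReal (M⁻¹) ^ k := by
  have hs : QQ M j ⊆ Set.pi univ fun i => Ico ((j i : ℝ) / M) (((j i : ℝ) + 1) / M) := by
    rintro u ⟨_, hu⟩ i _
    have h1 : ⌊M * u i⌋ = j i := congrFun hu i
    rw [Int.floor_eq_iff] at h1
    rw [mem_Ico, div_le_iff₀ hM, lt_div_iff₀ hM]
    constructor <;> linarith
  refine (measure_mono hs).trans (le_of_eq ?_)
  rw [Real.volume_pi_Ico]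
  have : ∀ i : Fin k, ENNReal.ofReal (((j i : ℝ) + 1) / M - (j i : ℝ) / M) =
      ENNReal.ofReal M⁻¹ := fun i => by
    congr 1
    rw [← sub_div]
    simp
  simp_rw [this]
  simp

/-- the relevant cells -/
noncomputable def JJ (k : ℕ) (M : ℝ) : Finset (Fin k → ℤ) :=
  Fintype.piFinset fun _ => Finset.Icc ⌊-M⌋ ⌊M⌋

theorem JJ_mem (M : ℝ) (hM : 0 < M) (u : Fin k → ℝ) (hu : u ∈ Cb k) : cell M u ∈ JJ k M := by
  unfold JJ
  rw [Fintype.mem_piFinset]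
  intro i
  have h1 : (-1 : ℝ) ≤ u i := hu.1 i
  have h2 : u i ≤ (1 : ℝ) := hu.2 i
  rw [Finset.mem_Icc]
  constructor
  · apply Int.floor_mono
    nlinarith
  · apply Int.floor_mono
    nlinarith

theorem QQ_disj (M : ℝ) (s : Set (Fin k → ℤ)) : s.Pairwise (Function.onFun Disjoint (QQ M)) := by
  intro a _ b _ hab
  rw [Function.onFun, Set.disjoint_left]
  rintro u ⟨_, h1⟩ ⟨_, h2⟩
  exact hab (h1.symm.trans h2)

theorem QQ_union (M : ℝ) (hM : 0 < M) : (⋃ j ∈ JJ k M, QQ M j) = Cb k := by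
  ext u
  simp only [mem_iUnion, exists_prop]
  constructor
  · rintro ⟨j, _, hj⟩
    exact QQ_sub M j hj
  · intro hu
    exact ⟨cell M u, JJ_mem M hM u hu, hu, rfl⟩

theorem QQ_sum (M : ℝ) (hM : 0 < M) : ∑ j ∈ JJ k M, volume (QQ M j) = 2 ^ k := by
  rw [← measure_biUnion_finset (QQ_disj M _) fun j _ => QQ_meas M j, QQ_union M hM, Cb_vol]

theorem QQ_sumq (M : ℝ) (hM : 0 < M) (q : ℝ) (hq : 1 ≤ q) :
    ∑ j ∈ JJ k M, volume (QQ M j) ^ q ≤ 2 ^ k * (ENNReal.ofReal (M⁻¹) ^ k) ^ (q - 1) := by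
  rw [← QQ_sum (k := k) M hM, Finset.sum_mul]
  refine Finset.sum_le_sum fun j _ => ?_
  have e : volume (QQ M j) ^ q = volume (QQ M j) * volume (QQ M j) ^ (q - 1) := by
    nth_rewrite 2 [← ENNReal.rpow_one (volume (QQ M j))]
    rw [← ENNReal.rpow_add_of_nonneg _ _ zero_le_one (by linarith)]
    congr 1
    ring
  rw [e]
  exact mul_le_mul' le_rfl (ENNReal.rpow_le_rpow (QQ_vol M hM j) (by linarith))

theorem FF_congr (Q : Set (Fin k → ℝ)) (hQ : MeasurableSet Q)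
    (f g : (Fin k → ℝ) × (Fin m → ℝ) → ℂ) (h : ∀ z, z.1 ∈ Q → f z = g z)
    (p : (Fin k → ℝ) × (Fin m → ℝ) × ℝ) : FF Q f p = FF Q g p := by
  unfold FF
  refine setIntegral_congr_fun (hQ.prod Cb_meas) fun z hz => ?_
  rw [h z hz.1]

theorem FF_split (M : ℝ) (hM : 0 < M) (f : (Fin k → ℝ) × (Fin m → ℝ) → ℂ) (hf : Measurable f)
    (hf1 : ∀ z, ‖f z‖ ≤ 1) (p : (Fin k → ℝ) × (Fin m → ℝ) × ℝ) :
    FF (Cb k) f p = ∑ j ∈ JJ k M, FF (QQ M j) f p := by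
  unfold FF
  rw [← integral_biUnion_finset (JJ k M) (s := fun j => QQ M j ×ˢ Cb m)
    (fun j _ => (QQ_meas M j).prod Cb_meas) ?_ ?_]
  · congr 2
    rw [← QQ_union M hM]
    ext z
    simp only [mem_prod, mem_iUnion, exists_prop]
    constructor
    · rintro ⟨⟨j, hj, h1⟩, h2⟩
      exact ⟨j, hj, h1, h2⟩
    · rintro ⟨j, hj, h1, h2⟩
      exact ⟨⟨j, hj, h1⟩, h2⟩
  · intro a ha b hb hab
    rw [Function.onFun, Set.disjoint_prod]
    exact Or.inl (QQ_disj M _ ha hb hab)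
  · intro j _
    exact FF_ker_int (QQ M j) (QQ_meas M j) (QQ_sub M j) f hf hf1 p

/-- the function with shifted slabs -/
noncomputable def sh (M : ℝ) (f : (Fin k → ℝ) × (Fin m → ℝ) → ℂ)
    (w : (Fin k → ℤ) → (Fin m → ℝ)) (z : (Fin k → ℝ) × (Fin m → ℝ)) : ℂ :=
  f z * em (w (cell M z.1)) 0 z.2

theorem sh_meas (M : ℝ) (f : (Fin k → ℝ) × (Fin m → ℝ) → ℂ) (hf : Measurable f)
    (w : (Fin k → ℤ) → (Fin m → ℝ)) : Measurable (sh M f w) := by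
  unfold sh
  refine hf.mul ?_
  refine em_meas3.comp (Measurable.prodMk (Measurable.prodMk ?_ measurable_const) measurable_snd)
  exact (Measurable.of_discrete (f := w)).comp ((cell_meas M).comp measurable_fst)

theorem sh_bd (M : ℝ) (f : (Fin k → ℝ) × (Fin m → ℝ) → ℂ) (hf1 : ∀ z, ‖f z‖ ≤ 1)
    (w : (Fin k → ℤ) → (Fin m → ℝ)) (z : (Fin k → ℝ) × (Fin m → ℝ)) : ‖sh M f w z‖ ≤ 1 := by
  unfold sh
  rw [norm_mul, em_norm, mul_one]
  exact hf1 z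

theorem FF_sh (M : ℝ) (hM : 0 < M) (f : (Fin k → ℝ) × (Fin m → ℝ) → ℂ) (hf : Measurable f)
    (hf1 : ∀ z, ‖f z‖ ≤ 1) (w : (Fin k → ℤ) → (Fin m → ℝ)) (x : Fin k → ℝ) (y : Fin m → ℝ)
    (t : ℝ) : FF (Cb k) (sh M f w) (x, y, t) = ∑ j ∈ JJ k M, FF (QQ M j) f (x, y + w j, t) := by
  rw [FF_split M hM _ (sh_meas M f hf w) (sh_bd M f hf1 w)]
  refine Finset.sum_congr rfl fun j _ => ?_
  rw [FF_shift]
  refine FF_congr _ (QQ_meas M j) _ _ (fun z hz => ?_) _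
  unfold sh
  have : cell M z.1 = j := hz.2
  rw [this]

/-- the mean function -/
noncomputable def mnf (M : ℝ) (f : (Fin k → ℝ) × (Fin m → ℝ) → ℂ)
    (μ : (Fin k → ℤ) → Measure (Fin m → ℝ)) (z : (Fin k → ℝ) × (Fin m → ℝ)) : ℂ :=
  f z * mh (μ (cell M z.1)) z.2

theorem mnf_meas (M : ℝ) (f : (Fin k → ℝ) × (Fin m → ℝ) → ℂ) (hf : Measurable f)
    (μ : (Fin k → ℤ) → Measure (Fin m → ℝ)) (hμ : ∀ j, IsProbabilityMeasure (μ j)) :
    Measurable (mnf M f μ) := by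
  unfold mnf
  refine hf.mul ?_
  have h1 : Measurable fun p : (Fin k → ℤ) × (Fin m → ℝ) => mh (μ p.1) p.2 :=
    measurable_from_prod_countable_right fun j => mh_meas (μ j)
  exact h1.comp (((cell_meas M).comp measurable_fst).prodMk measurable_snd)

theorem mnf_bd (M : ℝ) (f : (Fin k → ℝ) × (Fin m → ℝ) → ℂ) (hf1 : ∀ z, ‖f z‖ ≤ 1)
    (μ : (Fin k → ℤ) → Measure (Fin m → ℝ)) (hμ : ∀ j, IsProbabilityMeasure (μ j))
    (z : (Fin k → ℝ) × (Fin m → ℝ)) : ‖mnf M f μ z‖ ≤ 1 := by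
  unfold mnf
  rw [norm_mul]
  exact mul_le_one₀ (hf1 z) (norm_nonneg _) (mh_bd _ _)

theorem mnf_L2 (M : ℝ) (f : (Fin k → ℝ) × (Fin m → ℝ) → ℂ) (hf1 : ∀ z, ‖f z‖ ≤ 1)
    (μ : (Fin k → ℤ) → Measure (Fin m → ℝ)) (hμ : ∀ j, IsProbabilityMeasure (μ j)) (ρ : ℝ≥0)
    (hρ : ∀ j, μ j ≤ ρ • (volume : Measure (Fin m → ℝ))) (u : Fin k → ℝ) :
    ∫⁻ v in Cb m, ‖mnf M f μ (u, v)‖ₑ ^ 2 ≤ ρ := by
  calc ∫⁻ v in Cb m, ‖mnf M f μ (u, v)‖ₑ ^ 2 ≤ ∫⁻ v in Cb m, ‖mh (μ (cell M u)) v‖ₑ ^ 2 := by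
        refine lintegral_mono fun v => ?_
        unfold mnf
        rw [enorm_mul]
        refine pow_le_pow_left' ?_ 2
        have : ‖f (u, v)‖ₑ ≤ 1 := by
          rw [← ofReal_norm]
          exact ENNReal.ofReal_le_one.2 (hf1 _)
        calc ‖f (u, v)‖ₑ * ‖mh (μ (cell M u)) v‖ₑ ≤ 1 * ‖mh (μ (cell M u)) v‖ₑ :=
              mul_le_mul' this le_rfl
          _ = _ := one_mul _
    _ ≤ _ := (setLIntegral_le_lintegral _ _).trans (mh_L2 _ ρ (hρ _))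

theorem FF_mnf (M : ℝ) (hM : 0 < M) (f : (Fin k → ℝ) × (Fin m → ℝ) → ℂ) (hf : Measurable f)
    (hf1 : ∀ z, ‖f z‖ ≤ 1) (μ : (Fin k → ℤ) → Measure (Fin m → ℝ))
    (hμ : ∀ j, IsProbabilityMeasure (μ j)) (x : Fin k → ℝ) (y : Fin m → ℝ) (t : ℝ) :
    ∑ j ∈ JJ k M, ∫ w, FF (QQ M j) f (x, y + w, t) ∂(μ j) = FF (Cb k) (mnf M f μ) (x, y, t) := by
  rw [FF_split M hM _ (mnf_meas M f hf μ hμ) (mnf_bd M f hf1 μ hμ)]
  refine Finset.sum_congr rfl fun j _ => ?_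
  have := hμ j
  rw [mean_FF (QQ M j) (QQ_meas M j) (QQ_sub M j) f hf hf1]
  refine FF_congr _ (QQ_meas M j) _ _ (fun z hz => ?_) _
  unfold mnf
  have : cell M z.1 = j := hz.2
  rw [this]

end Pool.Agent.T9h8.RS
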