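import Mathlib
import Pool.Agent.T9h8.RS.Cells
set_option autoImplicit false
set_option linter.unusedSectionVars false

/-!
# The fluctuation
-/

namespace Pool.Agent.T9h8.RS

open MeasureTheory Set Complex
open Pool.Agent.W771.MD (qe em qe_norm em_norm em_enorm em_cont em_meas planchM)
open scoped ENNReal NNReal

variable {k m : ℕ} {Ω ι : Type*} [MeasurableSpace Ω] {P : Measure Ω} [IsProbabilityMeasure P]

/-- the moment bound with upper integrals -/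
theorem rosE {Z : ι → Ω → ℂ} (hm : ∀ i, Measurable (Z i)) (h4 : Four Z P) (a : ℝ) (ha : 0 < a)
    (hB : ∀ i ω, ‖Z i ω‖ ≤ a) (q : ℝ) (hq2 : 2 ≤ q) (hq4 : q ≤ 4) (s : Finset ι) (V : ℝ)
    (hV0 : 0 ≤ V)
    (hV : ∑ j ∈ s, ∫⁻ ω, ‖Z j ω‖ₑ ^ 2 ∂P ≤ ENNReal.ofReal V) (L : ℕ) :
    ∫⁻ ω, ‖∑ j ∈ s, (Z j ω - ∫ ω', Z j ω' ∂P)‖ₑ ^ q ∂P ≤
      ENNReal.ofReal (4096 * ((L : ℝ) + 1) ^ q) * (ENNReal.ofReal (V ^ (q / 2)) +
        ∑ j ∈ s, ∫⁻ ω, ‖Z j ω‖ₑ ^ q ∂P + ENNReal.ofReal ((a / 2 ^ L) ^ (q - 2) * V)) := by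
  have hq0 : 0 ≤ q := by linarith
  have hZ2 : ∀ i, Integrable (fun ω => ‖Z i ω‖ ^ 2) P := fun i =>
    int_of_bd ((hm i).norm.pow_const 2) (a ^ 2) fun ω => by
      rw [abs_of_nonneg (by positivity)]
      exact pow_le_pow_left₀ (norm_nonneg _) (hB i ω) 2
  have hZq : ∀ i, Integrable (fun ω => ‖Z i ω‖ ^ q) P := fun i =>
    int_of_bd ((hm i).norm.pow_const q) (a ^ q) fun ω => by
      rw [abs_of_nonneg (by positivity)]
      exact Real.rpow_le_rpow (norm_nonneg _) (hB i ω) hq0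
  have e2 : ∀ i, ∫⁻ ω, ‖Z i ω‖ₑ ^ 2 ∂P = ENNReal.ofReal (∫ ω, ‖Z i ω‖ ^ 2 ∂P) := by
    intro i
    rw [ofReal_integral_eq_lintegral_ofReal (hZ2 i)
      (Filter.Eventually.of_forall fun ω => by positivity)]
    refine lintegral_congr fun ω => ?_
    rw [← ofReal_norm, ENNReal.ofReal_pow (norm_nonneg _)]
  have eq' : ∀ i, ∫⁻ ω, ‖Z i ω‖ₑ ^ q ∂P = ENNReal.ofReal (∫ ω, ‖Z i ω‖ ^ q ∂P) := by
    intro i
    rw [ofReal_integral_eq_lintegral_ofReal (hZq i)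
      (Filter.Eventually.of_forall fun ω => by positivity)]
    refine lintegral_congr fun ω => ?_
    rw [← ofReal_norm, ENNReal.ofReal_rpow_of_nonneg (norm_nonneg _) hq0]
  have hV' : ∑ j ∈ s, ∫ ω, ‖Z j ω‖ ^ 2 ∂P ≤ V := by
    simp_rw [e2] at hV
    rw [← ENNReal.ofReal_sum_of_nonneg fun i _ => integral_nonneg fun ω => by positivity] at hV
    exact (ENNReal.ofReal_le_ofReal_iff hV0).1 hV
  have h := rosC hm h4 a ha hB q hq2 hq4 s V _ hV' le_rfl L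
  have hSm : Measurable fun ω => ∑ j ∈ s, (Z j ω - ∫ ω', Z j ω' ∂P) :=
    Finset.measurable_sum _ fun j _ => (hm j).sub_const _
  have hSi : Integrable (fun ω => ‖∑ j ∈ s, (Z j ω - ∫ ω', Z j ω' ∂P)‖ ^ q) P := by
    refine int_of_bd (hSm.norm.pow_const q)
      ((∑ j ∈ s, (a + ‖∫ ω', Z j ω' ∂P‖)) ^ q) fun ω => ?_
    rw [abs_of_nonneg (by positivity)]
    refine Real.rpow_le_rpow (norm_nonneg _) ?_ hq0
    refine (norm_sum_le _ _).trans (Finset.sum_le_sum fun j _ => ?_)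
    exact (norm_sub_le _ _).trans (add_le_add (hB j ω) le_rfl)
  have e3 : ∫⁻ ω, ‖∑ j ∈ s, (Z j ω - ∫ ω', Z j ω' ∂P)‖ₑ ^ q ∂P =
      ENNReal.ofReal (∫ ω, ‖∑ j ∈ s, (Z j ω - ∫ ω', Z j ω' ∂P)‖ ^ q ∂P) := by
    rw [ofReal_integral_eq_lintegral_ofReal hSi
      (Filter.Eventually.of_forall fun ω => by positivity)]
    refine lintegral_congr fun ω => ?_
    rw [← ofReal_norm, ENNReal.ofReal_rpow_of_nonneg (norm_nonneg _) hq0]
  rw [e3]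
  refine (ENNReal.ofReal_le_ofReal h).trans (le_of_eq ?_)
  simp_rw [eq']
  rw [← ENNReal.ofReal_sum_of_nonneg fun i _ => integral_nonneg fun ω => by positivity,
    ← ENNReal.ofReal_add (by positivity) (Finset.sum_nonneg fun i _ =>
      integral_nonneg fun ω => by positivity), ← ENNReal.ofReal_add (add_nonneg (by positivity)
      (Finset.sum_nonneg fun i _ => integral_nonneg fun ω => by positivity)) (by positivity),
    ← ENNReal.ofReal_mul (by positivity)]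

/-- a moment of a sum -/
theorem add_q (a b : ℂ) (q : ℝ) (hq : 1 ≤ q) :
    ‖a‖ₑ ^ q ≤ 2 ^ (q - 1) * (‖a - b‖ₑ ^ q + ‖b‖ₑ ^ q) := by
  have h1 : ‖a‖ₑ ≤ ‖a - b‖ₑ + ‖b‖ₑ := by
    calc ‖a‖ₑ = ‖(a - b) + b‖ₑ := by rw [sub_add_cancel]
      _ ≤ _ := enorm_add_le _ _
  refine (ENNReal.rpow_le_rpow h1 (by linarith)).trans ?_
  have h2 := ENNReal.rpow_add_le_mul_rpow_add_rpow ‖a - b‖ₑ ‖b‖ₑ hq
  exact h2

section

variable (W : (Fin k → ℤ) → Ω → (Fin m → ℝ)) (hW : ∀ j, Measurable (W j)) (h4 : Four W P)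
  (ρ : ℝ≥0) (hρ : ∀ j, P.map (W j) ≤ ρ • (volume : Measure (Fin m → ℝ)))
  (M : ℝ) (hM : 0 < M)
  (f : (Fin k → ℝ) × (Fin m → ℝ) → ℂ) (hf : Measurable f) (hf1 : ∀ z, ‖f z‖ ≤ 1)
  (q : ℝ) (hq2 : 2 ≤ q) (hq4 : q ≤ 4) (L : ℕ)

/-- the second moments -/
theorem second (W : (Fin k → ℤ) → Ω → (Fin m → ℝ)) (hW : ∀ j, Measurable (W j))
    (ρ : ℝ≥0) (hρ : ∀ j, P.map (W j) ≤ ρ • (volume : Measure (Fin m → ℝ)))
    (M : ℝ) (hM : 0 < M)
    (f : (Fin k → ℝ) × (Fin m → ℝ) → ℂ) (hf : Measurable f) (hf1 : ∀ z, ‖f z‖ ≤ 1)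
    (x : Fin k → ℝ) (y : Fin m → ℝ) (t : ℝ) :
    ∑ j ∈ JJ k M, ∫⁻ ω, ‖FF (QQ M j) f (x, y + W j ω, t)‖ₑ ^ 2 ∂P ≤
      2 ^ (k + m) * ρ * ENNReal.ofReal M⁻¹ ^ k := by
  have h1 : ∀ j, ∫⁻ ω, ‖FF (QQ M j) f (x, y + W j ω, t)‖ₑ ^ 2 ∂P ≤
      ρ * (2 ^ m * volume (QQ M j) ^ 2) := by
    intro j
    have hc := FF_cont (QQ M j) (QQ_meas M j) (QQ_sub M j) f hf hf1
    have hm1 : Measurable fun w : Fin m → ℝ => ‖FF (QQ M j) f (x, y + w, t)‖ₑ ^ 2 := by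
      have h2 : Measurable fun w : Fin m → ℝ => FF (QQ M j) f (x, y + w, t) :=
        hc.measurable.comp (measurable_const.prodMk
          ((measurable_const.add measurable_id).prodMk measurable_const))
      exact h2.enorm.pow_const 2
    calc ∫⁻ ω, ‖FF (QQ M j) f (x, y + W j ω, t)‖ₑ ^ 2 ∂P
        = ∫⁻ w, ‖FF (QQ M j) f (x, y + w, t)‖ₑ ^ 2 ∂(P.map (W j)) := by
          rw [lintegral_map hm1 (hW j)]
      _ ≤ ∫⁻ w, ‖FF (QQ M j) f (x, y + w, t)‖ₑ ^ 2 ∂(ρ • (volume : Measure (Fin m → ℝ))) :=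
          lintegral_mono' (hρ j) le_rfl
      _ = ρ * ∫⁻ w, ‖FF (QQ M j) f (x, y + w, t)‖ₑ ^ 2 := by
          rw [lintegral_smul_measure]
          rfl
      _ = ρ * ∫⁻ w, ‖FF (QQ M j) f (x, w, t)‖ₑ ^ 2 := by
          rw [lintegral_add_left_eq_self (fun w => ‖FF (QQ M j) f (x, w, t)‖ₑ ^ 2) y]
      _ ≤ _ := mul_le_mul' le_rfl (FF_y_le _ (QQ_meas M j) (QQ_sub M j) f hf hf1 x t)
  calc ∑ j ∈ JJ k M, ∫⁻ ω, ‖FF (QQ M j) f (x, y + W j ω, t)‖ₑ ^ 2 ∂P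
      ≤ ∑ j ∈ JJ k M, ρ * (2 ^ m * volume (QQ M j) ^ 2) := Finset.sum_le_sum fun j _ => h1 j
    _ ≤ ∑ j ∈ JJ k M, ρ * 2 ^ m * ENNReal.ofReal M⁻¹ ^ k * volume (QQ M j) := by
        refine Finset.sum_le_sum fun j _ => ?_
        rw [sq, mul_assoc (ρ : ℝ≥0∞), mul_assoc (ρ : ℝ≥0∞), mul_assoc ((2 : ℝ≥0∞) ^ m)]
        exact mul_le_mul' le_rfl (mul_le_mul' le_rfl (mul_le_mul' (QQ_vol M hM j) le_rfl))
    _ = _ := by
        rw [← Finset.mul_sum, QQ_sum M hM, pow_add]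
        ring

theorem prod_split {α β : Type*} [MeasurableSpace α] [MeasurableSpace β] (μ : Measure α)
    (ν : Measure β) [SFinite μ] [SFinite ν] (X : Set α) (S : Set β) (g : α × β → ℝ≥0∞)
    (hg : Measurable g) (B : ℝ≥0∞) (hB : ∀ x, ∫⁻ p in S, g (x, p) ∂ν ≤ B) :
    ∫⁻ p in X ×ˢ S, g p ∂(μ.prod ν) ≤ μ X * B := by
  rw [← Measure.prod_restrict, lintegral_prod _ hg.aemeasurable]
  refine (lintegral_mono fun x => hB x).trans (le_of_eq ?_)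
  rw [lintegral_const, Measure.restrict_apply_univ, mul_comm]

theorem swap_sum {α Ω' ι' : Type*} [MeasurableSpace α] [MeasurableSpace Ω'] (μ : Measure α)
    (P' : Measure Ω') [SFinite μ] [SFinite P'] (s : Finset ι') (g : ι' → α × Ω' → ℝ≥0∞)
    (hg : ∀ j, Measurable (g j)) :
    ∫⁻ p, ∑ j ∈ s, ∫⁻ ω, g j (p, ω) ∂P' ∂μ = ∑ j ∈ s, ∫⁻ ω, (∫⁻ p, g j (p, ω) ∂μ) ∂P' := by
  rw [lintegral_finsetSum _ fun j _ => (hg j).lintegral_prod_right']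
  refine Finset.sum_congr rfl fun j _ => ?_
  exact lintegral_lintegral_swap (hg j).aemeasurable

/-- the higher moments, integrated -/
theorem higher (W : (Fin k → ℤ) → Ω → (Fin m → ℝ)) (hW : ∀ j, Measurable (W j))
    (M : ℝ) (hM : 0 < M)
    (f : (Fin k → ℝ) × (Fin m → ℝ) → ℂ) (hf : Measurable f) (hf1 : ∀ z, ‖f z‖ ≤ 1)
    (q : ℝ) (hq : 1 ≤ q) (X : Set (Fin k → ℝ)) (Y : Set (Fin m → ℝ)) (T : Set ℝ) (K : ℝ≥0∞)
    (hK : ∀ g : (Fin m → ℝ) → ℂ, Measurable g → (∀ v, ‖g v‖ ≤ 1) →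
      ∫⁻ p in (univ : Set (Fin m → ℝ)) ×ˢ T, ‖EE g p‖ₑ ^ q ≤ K) :
    ∫⁻ p in X ×ˢ Y ×ˢ T, ∑ j ∈ JJ k M,
        ∫⁻ ω, ‖FF (QQ M j) f (p.1, p.2.1 + W j ω, p.2.2)‖ₑ ^ q ∂P ≤
      volume X * (2 ^ k * (ENNReal.ofReal (M⁻¹) ^ k) ^ (q - 1) * K) := by
  have hc : ∀ j, Continuous (FF (m := m) (QQ M j) f) := fun j =>
    FF_cont (QQ M j) (QQ_meas M j) (QQ_sub M j) f hf hf1
  have hm1 : ∀ j, Measurable fun p : ((Fin k → ℝ) × (Fin m → ℝ) × ℝ) × Ω =>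
      ‖FF (QQ M j) f (p.1.1, p.1.2.1 + W j p.2, p.1.2.2)‖ₑ ^ q := by
    intro j
    have h2 : Measurable fun p : ((Fin k → ℝ) × (Fin m → ℝ) × ℝ) × Ω =>
        FF (QQ M j) f (p.1.1, p.1.2.1 + W j p.2, p.1.2.2) := by
      refine (hc j).measurable.comp ?_
      refine (measurable_fst.comp measurable_fst).prodMk (Measurable.prodMk ?_ ?_)
      · exact (measurable_fst.comp (measurable_snd.comp measurable_fst)).add
          ((hW j).comp measurable_snd)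
      · exact measurable_snd.comp (measurable_snd.comp measurable_fst)
    exact h2.enorm.pow_const q
  have hbound : ∀ (j : Fin k → ℤ) (w : Fin m → ℝ) (x : Fin k → ℝ),
      ∫⁻ p in Y ×ˢ T, ‖FF (QQ M j) f (x, p.1 + w, p.2)‖ₑ ^ q ≤ volume (QQ M j) ^ q * K := by
    intro j w x
    have hg : Measurable fun z : (Fin k → ℝ) × (Fin m → ℝ) => f z * em w 0 z.2 :=
      hf.mul ((em_meas w 0).comp measurable_snd)
    have hg1 : ∀ z : (Fin k → ℝ) × (Fin m → ℝ), ‖f z * em w 0 z.2‖ ≤ 1 := fun z => by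
      rw [norm_mul, em_norm, mul_one]; exact hf1 z
    have h := FF_q (QQ M j) (QQ_meas M j) (QQ_sub M j) _ hg hg1 q hq T K hK x
    refine le_trans ?_ h
    refine (lintegral_mono_set (prod_mono_left (subset_univ Y))).trans (le_of_eq ?_)
    refine lintegral_congr fun p => ?_
    rw [FF_shift]
  refine (swap_sum (volume.restrict (X ×ˢ Y ×ˢ T)) P (JJ k M) _ hm1).le.trans ?_
  have h3 : ∀ j ∈ JJ k M, ∫⁻ ω, (∫⁻ p in X ×ˢ Y ×ˢ T,
        ‖FF (QQ M j) f (p.1, p.2.1 + W j ω, p.2.2)‖ₑ ^ q) ∂P ≤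
        volume X * (volume (QQ M j) ^ q * K) := by
    intro j _
    have h4 : ∀ ω, (∫⁻ p in X ×ˢ Y ×ˢ T,
        ‖FF (QQ M j) f (p.1, p.2.1 + W j ω, p.2.2)‖ₑ ^ q) ≤
        volume X * (volume (QQ M j) ^ q * K) := by
      intro ω
      have hm2 : Measurable fun p : (Fin k → ℝ) × (Fin m → ℝ) × ℝ =>
          ‖FF (QQ M j) f (p.1, p.2.1 + W j ω, p.2.2)‖ₑ ^ q := by
        have h5 := (hm1 j).comp (measurable_prodMk_right (y := ω))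
        exact h5
      exact prod_split volume volume X (Y ×ˢ T) _ hm2 _ fun x => hbound j _ x
    refine (lintegral_mono h4).trans (le_of_eq ?_)
    rw [lintegral_const, measure_univ, mul_one]
  refine (Finset.sum_le_sum h3).trans ?_
  rw [← Finset.mul_sum, ← Finset.sum_mul]
  exact mul_le_mul' le_rfl (mul_le_mul' (QQ_sumq M hM q hq) le_rfl)

end

end Pool.Agent.T9h8.RS
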