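import Mathlib
import Pool.Agent.T9h8.RS.Slice
import Pool.Agent.N248.RC.Mid
import Pool.Agent.N248.RR.P2
import Pool.Agent.N248.RC.Str
set_option autoImplicit false
set_option linter.unusedSectionVars false

/-!
# The weak type bound of Stein and Tomas on slabs of times
-/

namespace Pool.Agent.T9h8.RS

open MeasureTheory Set Complex
open Pool.Agent.W771.MD (qe em qe_norm em_norm em_enorm em_cont em_meas planchM)
open Pool.Agent.N248.RR (ex ex_norm cub cub_meas cub_vol sPhi sPhi_meas cub_fin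
  para_energy kernel_time sPhi_bound ps ps_inner ps_inner_ps hit energy_of block_count Phi_inner)
open Pool.Agent.N248.RC (Eo ker Eo_meas ker_meas weak_of_count dy3)
open Pool.Agent.R412.RT (Phi)
open scoped ENNReal NNReal RealInnerProductSpace

variable {m : ℕ}

theorem weakST (hm : 1 ≤ m) : ∃ C : ℝ, 0 ≤ C ∧ ∀ (R : ℝ) (f : EuclideanSpace ℝ (Fin m) → ℂ),
    Measurable f → (∀ y, ‖f y‖ ≤ 1) → ∀ l : ℝ, 0 < l →
    (volume.restrict (Metric.ball 0 R)).real
      {x | l < ‖Eo (volume.restrict (cub m)) (ker (sPhi (2 * Real.pi))) f x‖} ≤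
        C * l ^ (-(2 + 4 / (m : ℝ))) := by
  have hm0 : (0 : ℝ) < m := by exact_mod_cast hm
  set s : ℝ := 2 * Real.pi with hs
  have hs0 : 0 < s := by positivity
  obtain ⟨ρ0, hρ0, hρ⟩ := sPhi_bound (n := m) s
  set L₀ : ℝ := (|(s / (2 * Real.pi))| ^ m)⁻¹ + (5 * |s| ^ (-(1 / 2) : ℝ)) ^ m with hL₀
  have e1 : 0 ≤ (|(s / (2 * Real.pi))| ^ m)⁻¹ := by positivity
  have e2 : 0 ≤ (5 * |s| ^ (-(1 / 2) : ℝ)) ^ m := by positivity
  have hL₀0 : 0 ≤ L₀ := by linarith
  have hC : Pool.Agent.N248.RR.CEnergy (volume.restrict (cub m)) (sPhi s) (sPhi_meas s)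
      (fun _ : Fin 1 => Fin.last m) L₀ := by
    intro f B hB α τ hτ hBα
    refine (para_energy s hs0.ne' f B hB α τ hτ hBα).trans ?_
    refine mul_le_mul' (ENNReal.ofReal_le_ofReal ?_) le_rfl
    exact mul_le_mul_of_nonneg_right (by linarith) (by linarith)
  obtain ⟨L, hL0, hE⟩ := energy_of (volume.restrict (cub m)) (sPhi s) (sPhi_meas s)
    (fun _ : Fin 1 => Fin.last m) L₀ hL₀0 hC ρ0 hρ0 hρ
  set g : ℝ := (m : ℝ) / 2 with hg
  have hg0 : 0 < g := by positivity
  set L₁ : ℝ := 1 + L + L₀ with hL₁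
  have hcount : ∀ F : Lp ℂ 2 (volume.restrict (cub m)), ‖F‖ ≤ 1 → ∀ lam : ℝ, 0 < lam → lam ≤ 1 →
      ∀ J : Finset (Fin (m + 1) → ℤ),
      (∀ j ∈ J, hit (ps (volume.restrict (cub m)) (sPhi s) (sPhi_meas s)) lam F j) →
      (J.card : ℝ) ≤ (4 * 3 ^ 1 * L₁ * (2 * L₁) ^ (1 / g)) * lam ^ (-(2 + 2 / g)) := by
    intro F hF lam h0 h1 J hJ
    refine block_count (fun _ : Fin 1 => Fin.last m)
      (ps (volume.restrict (cub m)) (sPhi s) (sPhi_meas s)) L₁ g (by linarith) hg0 ?_ ?_ F hF lam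
      h0 h1 J hJ
    · intro f τ hτ J s hJ x hx
      refine (hE f τ hτ J s hJ x hx).trans ?_
      refine mul_le_mul_of_nonneg_right ?_ (by positivity)
      exact mul_le_mul_of_nonneg_right (by linarith) (Nat.cast_nonneg _)
    · intro x y _ ht
      rw [ps_inner_ps]
      refine (kernel_time s hs0.ne' (x - y) ht).trans ?_
      exact mul_le_mul_of_nonneg_right (by linarith) (by positivity)
  set C₀ : ℝ := 4 * 3 ^ 1 * L₁ * (2 * L₁) ^ (1 / g) with hC₀
  have hC₀0 : 0 < C₀ := by positivity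
  set V : ℝ := 1 + (volume.restrict (cub m) : Measure (EuclideanSpace ℝ (Fin m))).real univ with hV
  have hμ0 : 0 ≤ (volume.restrict (cub m) : Measure (EuclideanSpace ℝ (Fin m))).real univ :=
    measureReal_nonneg
  have hexp : 2 + 2 / g = 2 + 4 / (m : ℝ) := by rw [hg]; field_simp; ring
  refine ⟨C₀ * V ^ (2 + 2 / g), by positivity, fun R f hf hf1 l hl => ?_⟩
  rw [← hexp]
  exact weak_of_count (volume.restrict (cub m)) (sPhi s) (sPhi_meas s) C₀ (2 + 2 / g) V hC₀0.le
    (by linarith) (by linarith) hcount R f hf hf1 l hl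

/-- the identification of space-time -/
noncomputable def Ps (p : (Fin m → ℝ) × ℝ) : EuclideanSpace ℝ (Fin (m + 1)) :=
  WithLp.toLp 2 (Fin.snoc (α := fun _ => ℝ) p.1 p.2)

theorem Ps_mp : MeasurePreserving (Ps (m := m)) := by
  have h1 := (volume_preserving_piFinSuccAbove (fun _ : Fin (m + 1) => ℝ) (Fin.last m)).symm
  have h2 : MeasurePreserving (Prod.swap : (Fin m → ℝ) × ℝ → ℝ × (Fin m → ℝ)) volume volume :=
    Measure.measurePreserving_swap
  have h3 := (PiLp.volume_preserving_toLp (Fin (m + 1))).comp (h1.comp h2)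
  have e : Ps (m := m) = WithLp.toLp 2 ∘
      ((MeasurableEquiv.piFinSuccAbove (fun _ : Fin (m + 1) => ℝ) (Fin.last m)).symm ∘
        Prod.swap) := by
    ext p i
    simp only [Ps, Function.comp_apply, Prod.swap]
    simp only [MeasurableEquiv.piFinSuccAbove_symm_apply, Fin.insertNthEquiv_apply]
    rw [Fin.insertNth_last']
  rw [e]
  exact h3

theorem EE_Eo (g : (Fin m → ℝ) → ℂ) (p : (Fin m → ℝ) × ℝ) :
    EE g p = Eo (volume.restrict (cub m)) (ker (sPhi (2 * Real.pi)))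
      (fun ξ => g (WithLp.ofLp ξ)) (Ps p) := by
  unfold EE Eo
  have hmp : MeasurePreserving (WithLp.ofLp (p := 2) (V := Fin m → ℝ)) :=
    PiLp.volume_preserving_ofLp (Fin m)
  have hme : MeasurableEmbedding (WithLp.ofLp (p := 2) (V := Fin m → ℝ)) :=
    (MeasurableEquiv.toLp 2 (Fin m → ℝ)).symm.measurableEmbedding
  have hpre : (WithLp.ofLp (p := 2) (V := Fin m → ℝ)) ⁻¹' Cb m = cub m := by
    ext ξ
    simp only [Cb, cub, mem_preimage, mem_Icc, Pi.le_def, Pi.neg_apply, Pi.one_apply, mem_ofPred_eq,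
      abs_le, forall_and]
  have h := hmp.setIntegral_preimage_emb hme (fun v => g v * em p.1 p.2 v) (Cb m)
  rw [← h, hpre]
  congr 1
  ext ξ
  congr 1
  unfold ker ex sPhi
  rw [inner_smul_left, Phi_inner]
  unfold Pool.Agent.W771.MD.em qe Ps
  rw [← Complex.exp_sum]
  congr 1
  simp only [conj_trivial, Fin.snoc_castSucc, Fin.snoc_last]
  rw [Finset.mul_sum]
  push_cast
  rw [Finset.sum_mul]
  refine Finset.sum_congr rfl fun i _ => ?_
  ring

/-- the weak type bound on the whole of space-time -/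
theorem weakEE (hm : 1 ≤ m) : ∃ C : ℝ, 0 ≤ C ∧ ∀ g : (Fin m → ℝ) → ℂ,
    Measurable g → (∀ y, ‖g y‖ ≤ 1) → ∀ l : ℝ, 0 < l →
    volume {p : (Fin m → ℝ) × ℝ | l < ‖EE g p‖} ≤
      ENNReal.ofReal (C * l ^ (-(2 + 4 / (m : ℝ)))) := by
  obtain ⟨C, hC0, hC⟩ := weakST hm
  refine ⟨C, hC0, fun g hg hg1 l hl => ?_⟩
  have hofm : Measurable (WithLp.ofLp (p := 2) (V := Fin m → ℝ)) :=
    (PiLp.volume_preserving_ofLp (Fin m)).measurable
  have hgm : Measurable fun ξ : EuclideanSpace ℝ (Fin m) => g (WithLp.ofLp ξ) := hg.comp hofm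
  set S : Set (EuclideanSpace ℝ (Fin (m + 1))) :=
    {x | l < ‖Eo (volume.restrict (cub m)) (ker (sPhi (2 * Real.pi)))
      (fun ξ => g (WithLp.ofLp ξ)) x‖} with hS
  have hSm : MeasurableSet S := measurableSet_lt measurable_const
    (Eo_meas _ _ (ker_meas _ (sPhi_meas _)) _ hgm).norm
  have h1 : {p : (Fin m → ℝ) × ℝ | l < ‖EE g p‖} = Ps ⁻¹' S := by
    ext p
    rw [mem_preimage, hS, mem_ofPred_eq, mem_ofPred_eq, EE_Eo]
  rw [h1, Ps_mp.measure_preimage hSm.nullMeasurableSet]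
  have h2 : S = ⋃ n : ℕ, S ∩ Metric.ball 0 n := by
    rw [← inter_iUnion]
    refine (inter_eq_left.2 fun x _ => ?_).symm
    obtain ⟨n, hn⟩ := exists_nat_gt ‖x‖
    rw [mem_iUnion]
    exact ⟨n, by rwa [mem_ball_zero_iff]⟩
  have hmono : Monotone fun n : ℕ => S ∩ Metric.ball (0 : EuclideanSpace ℝ (Fin (m + 1))) n := by
    intro a b hab
    refine inter_subset_inter_right _ (Metric.ball_subset_ball ?_)
    exact_mod_cast hab
  rw [h2, hmono.measure_iUnion]
  refine iSup_le fun n => ?_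
  have h3 := hC n (fun ξ => g (WithLp.ofLp ξ)) hgm (fun ξ => hg1 _) l hl
  rw [measureReal_restrict_apply hSm] at h3
  rw [← ENNReal.ofReal_toReal (show volume (S ∩ Metric.ball 0 (n : ℝ)) ≠ ∞ from
    ((measure_mono inter_subset_right).trans_lt measure_ball_lt_top).ne)]
  exact ENNReal.ofReal_le_ofReal h3

theorem EE_bd (g : (Fin m → ℝ) → ℂ) (hg1 : ∀ y, ‖g y‖ ≤ 1) (p : (Fin m → ℝ) × ℝ) :
    ‖EE g p‖ ≤ 2 ^ m := by
  have h := norm_setIntegral_le_of_norm_le_const (μ := volume) (s := Cb m) (C := 1)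
    (f := fun v => g v * em p.1 p.2 v) Cb_ne.lt_top (fun v _ => by
      rw [norm_mul, em_norm, mul_one]; exact hg1 _)
  refine h.trans (le_of_eq ?_)
  rw [one_mul, Measure.real, Cb_vol]
  simp

theorem EE_meas' (g : (Fin m → ℝ) → ℂ) (hg : Measurable g) : Measurable (EE g) := by
  unfold EE
  have h1 : StronglyMeasurable (Function.uncurry
      fun (p : (Fin m → ℝ) × ℝ) (v : Fin m → ℝ) => g v * em p.1 p.2 v) :=
    ((hg.comp measurable_snd).mul (em_meas3.comp measurable_id)).stronglyMeasurable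
  exact (h1.integral_prod_right (ν := volume.restrict (Cb m))).measurable

theorem EE_L2 (g : (Fin m → ℝ) → ℂ) (hg : Measurable g) (hg1 : ∀ y, ‖g y‖ ≤ 1) (T : Set ℝ) :
    ∫⁻ p in (univ : Set (Fin m → ℝ)) ×ˢ T, ‖EE g p‖ₑ ^ 2 ≤ 2 ^ m * volume T := by
  rw [Measure.volume_eq_prod, ← Measure.prod_restrict, Measure.restrict_univ,
    lintegral_prod_symm _ ((EE_meas' g hg).enorm.pow_const 2).aemeasurable]
  have h1 : ∀ t : ℝ, ∫⁻ y : Fin m → ℝ, ‖EE g (y, t)‖ₑ ^ 2 ≤ 2 ^ m := by
    intro t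
    set G : (Fin m → ℝ) → ℂ := (Cb m).indicator g with hG
    have hG1 : MemLp G 1 := by
      rw [hG, memLp_indicator_iff_restrict Cb_meas]
      exact MemLp.of_bound hg.aestronglyMeasurable 1 (Filter.Eventually.of_forall hg1)
    have hG2 : MemLp G 2 := by
      rw [hG, memLp_indicator_iff_restrict Cb_meas]
      exact MemLp.of_bound hg.aestronglyMeasurable 1 (Filter.Eventually.of_forall hg1)
    have h := planchM G (memLp_one_iff_integrable.1 hG1) hG2 t
    have e1 : ∀ y : Fin m → ℝ, ∫ v, G v * em y t v = EE g (y, t) := by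
      intro y
      unfold EE
      rw [← integral_indicator Cb_meas]
      congr 1
      ext v
      rw [hG]
      by_cases hv : v ∈ Cb m
      · rw [indicator_of_mem hv, indicator_of_mem hv]
      · rw [indicator_of_notMem hv, indicator_of_notMem hv, zero_mul]
    simp_rw [e1] at h
    rw [h]
    calc ∫⁻ v, ‖G v‖ₑ ^ 2 ≤ ∫⁻ v, (Cb m).indicator (fun _ => 1) v := by
          refine lintegral_mono fun v => ?_
          rw [hG]
          by_cases hv : v ∈ Cb m
          · rw [indicator_of_mem hv, indicator_of_mem hv]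
            refine pow_le_one₀ zero_le ?_
            rw [← ofReal_norm]
            exact ENNReal.ofReal_le_one.2 (hg1 v)
          · rw [indicator_of_notMem hv, indicator_of_notMem hv]
            simp
      _ = 2 ^ m := by
          rw [lintegral_indicator Cb_meas, lintegral_const, Measure.restrict_apply_univ, Cb_vol,
            one_mul]
  refine (lintegral_mono fun t => h1 t).trans (le_of_eq ?_)
  rw [lintegral_const, Measure.restrict_apply_univ]

end Pool.Agent.T9h8.RS
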