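import Mathlib
import Pool.Agent.T9h8.RS.ST
set_option autoImplicit false
set_option linter.unusedSectionVars false

/-!
# Local `L^q` bounds from the energy and the weak type bound
-/

namespace Pool.Agent.T9h8.RS

open MeasureTheory Set Complex
open Pool.Agent.N248.RC (dy3)
open scoped ENNReal NNReal

variable {m : ℕ}

/-- a number of dyadic scales -/
theorem scales (r ε : ℝ) (hr : 0 < r) (hε : 0 < ε) : ∃ D : ℝ, 0 ≤ D ∧ ∀ N : ℝ, 1 ≤ N →
    ∃ J : ℕ, N ≤ (2 ^ J : ℝ) ^ r ∧ (J : ℝ) + 1 ≤ D * N ^ ε := by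
  refine ⟨2 + 1 / (ε * Real.log 2 * r), by positivity, fun N hN => ?_⟩
  have hl2 : 0 < Real.log 2 := Real.log_pos (by norm_num)
  have hlN : 0 ≤ Real.log N := Real.log_nonneg hN
  set J : ℕ := ⌈Real.log N / (Real.log 2 * r)⌉₊ with hJ
  refine ⟨J, ?_, ?_⟩
  · have h1 : Real.log N / (Real.log 2 * r) ≤ J := Nat.le_ceil _
    rw [div_le_iff₀ (by positivity)] at h1
    have h2 : Real.log ((2 ^ J : ℝ) ^ r) = J * (Real.log 2 * r) := by
      rw [Real.log_rpow (by positivity), Real.log_pow]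
      ring
    rw [← Real.log_le_log_iff (by linarith) (by positivity), h2]
    exact h1
  · have h1 : (J : ℝ) < Real.log N / (Real.log 2 * r) + 1 := Nat.ceil_lt_add_one (by positivity)
    have h2 : Real.log N ≤ N ^ ε / ε := Real.log_le_rpow_div (by linarith) hε
    have h3 : (1 : ℝ) ≤ N ^ ε := Real.one_le_rpow hN hε.le
    have h4 : Real.log N / (Real.log 2 * r) ≤ N ^ ε * (1 / (ε * Real.log 2 * r)) := by
      rw [div_le_iff₀ (by positivity)]
      calc Real.log N ≤ N ^ ε / ε := h2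
        _ = _ := by field_simp
    nlinarith

theorem Kq (hm : 1 ≤ m) (q ε : ℝ) (hq : 2 < q) (hε : 0 < ε) : ∃ C : ℝ, 0 ≤ C ∧ ∀ N : ℝ, 1 ≤ N →
    ∀ g : (Fin m → ℝ) → ℂ, Measurable g → (∀ v, ‖g v‖ ≤ 1) →
      ∫⁻ p in (univ : Set (Fin m → ℝ)) ×ˢ Icc (-N) N, ‖EE g p‖ₑ ^ q ≤
        ENNReal.ofReal (C * N ^ (max 0 (1 - (q - 2) * m / 4) + ε)) := by
  have hm0 : (0 : ℝ) < m := by exact_mod_cast hm
  obtain ⟨C₁, hC₁, hw⟩ := weakEE hm
  obtain ⟨D, hD, hsc⟩ := scales (q - 2) ε (by linarith) hε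
  set A0 : ℝ := 2 ^ m with hA0
  have hA1 : 1 ≤ A0 := one_le_pow₀ (by norm_num)
  set θ : ℝ := min 1 ((q - 2) * m / 4) with hθ
  have hθ0 : 0 < θ := lt_min (by norm_num) (by
    have : 0 < (q - 2) * m := mul_pos (by linarith) hm0
    linarith)
  have hθ1 : θ ≤ 1 := min_le_left _ _
  have hθ2 : 2 + 4 * θ / m ≤ q := by
    have h1 : θ ≤ (q - 2) * m / 4 := min_le_right _ _
    have h2 : 4 * θ / m ≤ q - 2 := by
      rw [div_le_iff₀ hm0]
      linarith
    linarith
  have hσ : max 0 (1 - (q - 2) * m / 4) = 1 - θ := by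
    rw [hθ]
    rcases le_total 1 ((q - 2) * m / 4) with h | h
    · rw [min_eq_left h, max_eq_left (by linarith)]; ring
    · rw [min_eq_right h, max_eq_right (by linarith)]
  set D₁ : ℝ := 2 ^ q * (2 ^ (m + 1) * (C₁ + 1) * A0 ^ q) with hD₁
  have hD₁0 : 0 ≤ D₁ := by positivity
  refine ⟨A0 ^ q * 2 ^ (m + 1) + D * D₁, by positivity, ?_⟩
  intro N hN g hg hg1
  have hN0 : 0 < N := by linarith
  obtain ⟨J, hJ1, hJ2⟩ := hsc N hN
  set b : ℝ := A0 / 2 ^ J with hb
  have hb0 : 0 < b := by positivity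
  have hbJ : 2 ^ J * b = A0 := by rw [hb]; field_simp
  set μ : Measure ((Fin m → ℝ) × ℝ) :=
    volume.restrict ((univ : Set (Fin m → ℝ)) ×ˢ Icc (-N) N) with hμ
  have hEm := EE_meas' g hg
  set S : ℕ → Set ((Fin m → ℝ) × ℝ) := fun j => {p | 2 ^ j * b < ‖EE g p‖} with hS
  have hSm : ∀ j, MeasurableSet (S j) := fun j => measurableSet_lt measurable_const hEm.norm
  have hL2 : ∫⁻ p, ‖EE g p‖ₑ ^ 2 ∂μ ≤ ENNReal.ofReal (2 ^ (m + 1) * N) := by
    refine (EE_L2 g hg hg1 (Icc (-N) N)).trans (le_of_eq ?_)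
    rw [Real.volume_Icc, ENNReal.ofReal_mul (by positivity), pow_succ,
      ENNReal.ofReal_mul (by positivity), ENNReal.ofReal_pow (by norm_num), ENNReal.ofReal_ofNat,
      show N - -N = 2 * N by ring, ENNReal.ofReal_mul (by norm_num), ENNReal.ofReal_ofNat]
    ring
  -- measures of the superlevel sets
  have hlev : ∀ j < J, μ (S j) * ENNReal.ofReal ((2 ^ (j + 1) * b) ^ q) ≤
      ENNReal.ofReal (D₁ * N ^ (1 - θ)) := by
    intro j hj
    set l : ℝ := 2 ^ j * b with hl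
    have hl0 : 0 < l := by positivity
    have hlA : l ≤ A0 := by
      rw [← hbJ, hl]
      refine mul_le_mul_of_nonneg_right ?_ hb0.le
      exact pow_le_pow_right₀ (by norm_num) hj.le
    set X : ℝ := 2 ^ (m + 1) * N * l ^ (-2 : ℝ) with hX
    set Y : ℝ := C₁ * l ^ (-(2 + 4 / (m : ℝ))) with hY
    have hX0 : 0 ≤ X := by positivity
    have hY0 : 0 ≤ Y := by positivity
    have h1 : μ (S j) ≤ ENNReal.ofReal X := by
      have h2 := meas_ge_le_lintegral_div (μ := μ) (f := fun p => ‖EE g p‖ₑ ^ 2)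
        (hEm.enorm.pow_const 2).aemeasurable (ε := ENNReal.ofReal (l ^ 2))
        (by rw [Ne, ENNReal.ofReal_eq_zero, not_le]; positivity) ENNReal.ofReal_ne_top
      have h3 : S j ⊆ {p | ENNReal.ofReal (l ^ 2) ≤ ‖EE g p‖ₑ ^ 2} := by
        intro p hp
        have hp' : l < ‖EE g p‖ := hp
        show ENNReal.ofReal (l ^ 2) ≤ ‖EE g p‖ₑ ^ 2
        rw [← ofReal_norm, ← ENNReal.ofReal_pow (norm_nonneg _)]
        exact ENNReal.ofReal_le_ofReal (pow_le_pow_left₀ hl0.le hp'.le 2)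
      refine (measure_mono h3).trans (h2.trans ?_)
      refine (ENNReal.div_le_div_right hL2 _).trans (le_of_eq ?_)
      rw [← ENNReal.ofReal_div_of_pos (by positivity), hX]
      congr 1
      rw [Real.rpow_neg hl0.le, Real.rpow_two]
      rfl
    have h2 : μ (S j) ≤ ENNReal.ofReal Y := by
      refine le_trans ?_ (hw g hg hg1 l hl0)
      exact Measure.restrict_apply_le _ _
    have h3 : μ (S j) ≤ ENNReal.ofReal (X ^ (1 - θ) * Y ^ θ) := by
      have h4 : μ (S j) ≤ ENNReal.ofReal (min X Y) := by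
        rcases le_total X Y with h | h
        · rwa [min_eq_left h]
        · rwa [min_eq_right h]
      refine h4.trans (ENNReal.ofReal_le_ofReal ?_)
      have hmin : 0 ≤ min X Y := le_min hX0 hY0
      rcases hmin.eq_or_lt with h0 | h0
      · rw [← h0]; positivity
      · calc min X Y = (min X Y) ^ (1 - θ) * (min X Y) ^ θ := by
              rw [← Real.rpow_add h0]
              simp
          _ ≤ X ^ (1 - θ) * Y ^ θ := by
              refine mul_le_mul (Real.rpow_le_rpow hmin (min_le_left _ _) (by linarith))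
                (Real.rpow_le_rpow hmin (min_le_right _ _) hθ0.le) (by positivity) (by positivity)
    have h5 : X ^ (1 - θ) * Y ^ θ * (2 ^ (j + 1) * b) ^ q ≤ D₁ * N ^ (1 - θ) := by
      have e1 : (2 ^ (j + 1) * b) ^ q = 2 ^ q * l ^ q := by
        rw [← Real.mul_rpow (by norm_num) hl0.le, hl]
        congr 1
        ring
      have e2 : X ^ (1 - θ) = (2 ^ (m + 1)) ^ (1 - θ) * N ^ (1 - θ) * l ^ (-2 * (1 - θ)) := by
        rw [hX, Real.mul_rpow (by positivity) (by positivity), Real.mul_rpow (by positivity)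
          (by positivity), ← Real.rpow_mul hl0.le]
      have e3 : Y ^ θ = C₁ ^ θ * l ^ (-(2 + 4 / (m : ℝ)) * θ) := by
        rw [hY, Real.mul_rpow hC₁ (by positivity), ← Real.rpow_mul hl0.le]
      have e4 : l ^ (-2 * (1 - θ)) * l ^ (-(2 + 4 / (m : ℝ)) * θ) * l ^ q =
          l ^ (q - (2 + 4 * θ / m)) := by
        rw [← Real.rpow_add hl0, ← Real.rpow_add hl0]
        congr 1
        field_simp
        ring
      have e5 : l ^ (q - (2 + 4 * θ / m)) ≤ A0 ^ q := by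
        have h4θ : 0 ≤ 4 * θ / m := by positivity
        calc l ^ (q - (2 + 4 * θ / m)) ≤ A0 ^ (q - (2 + 4 * θ / m)) :=
              Real.rpow_le_rpow hl0.le hlA (by linarith)
          _ ≤ A0 ^ q := Real.rpow_le_rpow_of_exponent_le hA1 (by linarith)
      have e6 : ((2 : ℝ) ^ (m + 1)) ^ (1 - θ) ≤ 2 ^ (m + 1) := by
        calc ((2 : ℝ) ^ (m + 1)) ^ (1 - θ) ≤ ((2 : ℝ) ^ (m + 1)) ^ (1 : ℝ) :=
              Real.rpow_le_rpow_of_exponent_le (one_le_pow₀ (by norm_num)) (by linarith)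
          _ = _ := Real.rpow_one _
      have e7 : C₁ ^ θ ≤ C₁ + 1 := by
        calc C₁ ^ θ ≤ (C₁ + 1) ^ θ := Real.rpow_le_rpow hC₁ (by linarith) hθ0.le
          _ ≤ (C₁ + 1) ^ (1 : ℝ) := Real.rpow_le_rpow_of_exponent_le (by linarith) hθ1
          _ = _ := Real.rpow_one _
      calc X ^ (1 - θ) * Y ^ θ * (2 ^ (j + 1) * b) ^ q
          = 2 ^ q * ((2 ^ (m + 1)) ^ (1 - θ) * C₁ ^ θ *
            (l ^ (-2 * (1 - θ)) * l ^ (-(2 + 4 / (m : ℝ)) * θ) * l ^ q)) * N ^ (1 - θ) := by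
            rw [e1, e2, e3]; ring
        _ = 2 ^ q * ((2 ^ (m + 1)) ^ (1 - θ) * C₁ ^ θ * l ^ (q - (2 + 4 * θ / m))) *
            N ^ (1 - θ) := by rw [e4]
        _ ≤ 2 ^ q * (2 ^ (m + 1) * (C₁ + 1) * A0 ^ q) * N ^ (1 - θ) := by
            gcongr
        _ = _ := rfl
    calc μ (S j) * ENNReal.ofReal ((2 ^ (j + 1) * b) ^ q)
        ≤ ENNReal.ofReal (X ^ (1 - θ) * Y ^ θ) * ENNReal.ofReal ((2 ^ (j + 1) * b) ^ q) :=
          mul_le_mul' h3 le_rfl
      _ = ENNReal.ofReal (X ^ (1 - θ) * Y ^ θ * (2 ^ (j + 1) * b) ^ q) :=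
          (ENNReal.ofReal_mul (by positivity)).symm
      _ ≤ _ := ENNReal.ofReal_le_ofReal h5
  -- the pointwise inequality
  have hpt : ∀ p, ‖EE g p‖ₑ ^ q ≤ ENNReal.ofReal (b ^ (q - 2)) * ‖EE g p‖ₑ ^ 2 +
      ∑ j ∈ Finset.range J, (S j).indicator
        (fun _ => ENNReal.ofReal ((2 ^ (j + 1) * b) ^ q)) p := by
    intro p
    have h1 := dy3 q hq.le b hb0 J ‖EE g p‖ (norm_nonneg _) (by
      rw [hbJ]
      exact EE_bd g hg1 p)
    have e1 : ‖EE g p‖ₑ ^ q = ENNReal.ofReal (‖EE g p‖ ^ q) := by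
      rw [← ofReal_norm, ENNReal.ofReal_rpow_of_nonneg (norm_nonneg _) (by linarith)]
    have e2 : ‖EE g p‖ₑ ^ 2 = ENNReal.ofReal (‖EE g p‖ ^ 2) := by
      rw [← ofReal_norm, ENNReal.ofReal_pow (norm_nonneg _)]
    rw [e1, e2]
    refine (ENNReal.ofReal_le_ofReal h1).trans (le_of_eq ?_)
    rw [ENNReal.ofReal_add (by positivity) (Finset.sum_nonneg fun j _ => by
        split_ifs <;> positivity), ENNReal.ofReal_mul (by positivity),
      ENNReal.ofReal_sum_of_nonneg fun j _ => by split_ifs <;> positivity]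
    congr 1
    refine Finset.sum_congr rfl fun j _ => ?_
    by_cases h : p ∈ S j
    · have h' : 2 ^ j * b < ‖EE g p‖ := h
      rw [indicator_of_mem h, if_pos h', mul_one]
    · have h' : ¬ 2 ^ j * b < ‖EE g p‖ := h
      rw [indicator_of_notMem h, if_neg h', mul_zero, ENNReal.ofReal_zero]
  have hfirst : ENNReal.ofReal (b ^ (q - 2)) * ∫⁻ p, ‖EE g p‖ₑ ^ 2 ∂μ ≤
      ENNReal.ofReal (A0 ^ q * 2 ^ (m + 1)) := by
    refine (mul_le_mul' le_rfl hL2).trans ?_
    rw [← ENNReal.ofReal_mul (by positivity)]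
    refine ENNReal.ofReal_le_ofReal ?_
    have h1 : b ^ (q - 2) * N ≤ A0 ^ q := by
      rw [hb, Real.div_rpow (by positivity) (by positivity), div_mul_eq_mul_div,
        div_le_iff₀ (by positivity)]
      have h2 : A0 ^ (q - 2) ≤ A0 ^ q := Real.rpow_le_rpow_of_exponent_le hA1 (by linarith)
      exact mul_le_mul h2 hJ1 hN0.le (by positivity)
    calc b ^ (q - 2) * (2 ^ (m + 1) * N) = (b ^ (q - 2) * N) * 2 ^ (m + 1) := by ring
      _ ≤ _ := mul_le_mul_of_nonneg_right h1 (by positivity)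
  calc ∫⁻ p, ‖EE g p‖ₑ ^ q ∂μ
      ≤ ∫⁻ p, (ENNReal.ofReal (b ^ (q - 2)) * ‖EE g p‖ₑ ^ 2 +
        ∑ j ∈ Finset.range J, (S j).indicator
          (fun _ => ENNReal.ofReal ((2 ^ (j + 1) * b) ^ q)) p) ∂μ := lintegral_mono hpt
    _ = ENNReal.ofReal (b ^ (q - 2)) * ∫⁻ p, ‖EE g p‖ₑ ^ 2 ∂μ +
        ∑ j ∈ Finset.range J, ENNReal.ofReal ((2 ^ (j + 1) * b) ^ q) * μ (S j) := by
        rw [lintegral_add_left ((hEm.enorm.pow_const 2).const_mul _),
          lintegral_const_mul _ (hEm.enorm.pow_const 2),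
          lintegral_finsetSum _ fun j _ => measurable_const.indicator (hSm j)]
        congr 1
        refine Finset.sum_congr rfl fun j _ => ?_
        rw [lintegral_indicator_const (hSm j)]
    _ ≤ ENNReal.ofReal (A0 ^ q * 2 ^ (m + 1)) +
        ∑ _j ∈ Finset.range J, ENNReal.ofReal (D₁ * N ^ (1 - θ)) := by
        refine add_le_add hfirst (Finset.sum_le_sum fun j hj => ?_)
        rw [mul_comm]
        exact hlev j (Finset.mem_range.1 hj)
    _ = ENNReal.ofReal (A0 ^ q * 2 ^ (m + 1) + J * (D₁ * N ^ (1 - θ))) := by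
        rw [Finset.sum_const, Finset.card_range, nsmul_eq_mul, ← ENNReal.ofReal_natCast,
          ← ENNReal.ofReal_mul (Nat.cast_nonneg _), ← ENNReal.ofReal_add (by positivity)
            (by positivity)]
    _ ≤ _ := by
        refine ENNReal.ofReal_le_ofReal ?_
        rw [hσ, Real.rpow_add hN0]
        have h1 : (1 : ℝ) ≤ N ^ (1 - θ) := Real.one_le_rpow hN (by linarith)
        have h2 : (1 : ℝ) ≤ N ^ ε := Real.one_le_rpow hN hε.le
        have h3 : (J : ℝ) ≤ D * N ^ ε := by linarith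
        have h4 : (J : ℝ) * (D₁ * N ^ (1 - θ)) ≤ D * N ^ ε * (D₁ * N ^ (1 - θ)) :=
          mul_le_mul_of_nonneg_right h3 (by positivity)
        have h5 : A0 ^ q * 2 ^ (m + 1) * 1 ≤ A0 ^ q * 2 ^ (m + 1) * (N ^ (1 - θ) * N ^ ε) :=
          mul_le_mul_of_nonneg_left (one_le_mul_of_one_le_of_one_le h1 h2) (by positivity)
        nlinarith

end Pool.Agent.T9h8.RS
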