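import Mathlib
import Pool.Agent.T9h8.RS.Fluct
import Pool.Agent.T9h8.RS.Kq
set_option autoImplicit false
set_option linter.unusedSectionVars false

/-!
# The main estimate for randomly shifted slabs
-/

namespace Pool.Agent.T9h8.RS

open MeasureTheory Set Complex
open Pool.Agent.W771.MD (qe em qe_norm em_norm em_enorm em_cont em_meas planchM)
open scoped ENNReal NNReal

variable {k m : ℕ}

/-- the box in space and time -/
def Bx (k m : ℕ) (N : ℝ) : Set ((Fin k → ℝ) × (Fin m → ℝ) × ℝ) :=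
  (Icc (fun _ => -N) fun _ => N) ×ˢ (Icc (fun _ => -N) fun _ => N) ×ˢ Icc (-N) N

theorem cube_vol (d : ℕ) (N : ℝ) : volume (Icc (fun _ => -N) fun _ => N : Set (Fin d → ℝ)) =
    ENNReal.ofReal (2 * N) ^ d := by
  rw [Real.volume_Icc_pi]
  simp only [Finset.prod_const, Finset.card_univ, Fintype.card_fin]
  congr 2
  ring

theorem Bx_vol (N : ℝ) : volume (Bx k m N) = ENNReal.ofReal (2 * N) ^ (k + m + 1) := by
  unfold Bx
  rw [Measure.volume_eq_prod, Measure.prod_prod, Measure.volume_eq_prod, Measure.prod_prod,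
    cube_vol, cube_vol, Real.volume_Icc, pow_succ, pow_add, mul_assoc]
  congr 3
  ring

section

variable {Ω : Type*} [MeasurableSpace Ω] {P : Measure Ω} [IsProbabilityMeasure P]

theorem vol_real_le (Q : Set (Fin k → ℝ)) (hQC : Q ⊆ Cb k) : volume.real Q ≤ 2 ^ k := by
  have h1 : volume Q ≤ 2 ^ k := (measure_mono hQC).trans Cb_vol.le
  unfold Measure.real
  have h2 := ENNReal.toReal_mono (ENNReal.pow_ne_top (by norm_num)) h1
  simpa using h2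

theorem split1 {α : Type*} [MeasurableSpace α] (μ : Measure α) (c b : ℝ≥0∞) (g : α → ℝ≥0∞)
    (hg : Measurable g) : ∫⁻ a, c * (g a + b) ∂μ = c * (∫⁻ a, g a ∂μ + b * μ univ) := by
  have h1 : Measurable fun a => g a + b := hg.add measurable_const
  rw [lintegral_const_mul _ h1, lintegral_add_left hg, lintegral_const]

theorem split5 {α : Type*} [MeasurableSpace α] (μ : Measure α) (c0 c1 a1 a3 : ℝ≥0∞)
    (G E : α → ℝ≥0∞) (hG : Measurable G) (hE : Measurable E) :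
    ∫⁻ a, c1 * (c0 * (a1 + G a + a3) + E a) ∂μ =
      c1 * (c0 * (μ univ * a1 + ∫⁻ a, G a ∂μ + μ univ * a3) + ∫⁻ a, E a ∂μ) := by
  have h1 : Measurable fun a => a1 + G a := measurable_const.add hG
  have h2 : Measurable fun a => a1 + G a + a3 := h1.add measurable_const
  have h3 : Measurable fun a => c0 * (a1 + G a + a3) := h2.const_mul _
  have h4 : Measurable fun a => c0 * (a1 + G a + a3) + E a := h3.add hE
  rw [lintegral_const_mul _ h4, lintegral_add_left h3, lintegral_const_mul _ h2,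
    lintegral_add_left h1, lintegral_add_left measurable_const, lintegral_const, lintegral_const,
    mul_comm a1, mul_comm a3]

/-- the pointwise estimate -/
theorem point (W : (Fin k → ℤ) → Ω → (Fin m → ℝ)) (hW : ∀ j, Measurable (W j))
    (h4 : Four W P) (ρ : ℝ≥0) (hρ : ∀ j, P.map (W j) ≤ ρ • (volume : Measure (Fin m → ℝ)))
    (M : ℝ) (hM : 0 < M)
    (f : (Fin k → ℝ) × (Fin m → ℝ) → ℂ) (hf : Measurable f) (hf1 : ∀ z, ‖f z‖ ≤ 1)
    (q : ℝ) (hq2 : 2 ≤ q) (hq4 : q ≤ 4) (V : ℝ) (hV0 : 0 ≤ V)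
    (hV : 2 ^ (k + m) * ρ * ENNReal.ofReal M⁻¹ ^ k ≤ ENNReal.ofReal V) (L : ℕ)
    (p : (Fin k → ℝ) × (Fin m → ℝ) × ℝ) :
    ∫⁻ ω, ‖FF (Cb k) (sh M f fun j => W j ω) p‖ₑ ^ q ∂P ≤
      2 ^ (q - 1) * (ENNReal.ofReal (4096 * ((L : ℝ) + 1) ^ q) *
        (ENNReal.ofReal (V ^ (q / 2)) +
          ∑ j ∈ JJ k M, ∫⁻ ω, ‖FF (QQ M j) f (p.1, p.2.1 + W j ω, p.2.2)‖ₑ ^ q ∂P +
          ENNReal.ofReal ((2 ^ (k + m) / 2 ^ L) ^ (q - 2) * V)) +
        ‖FF (Cb k) (mnf M f fun j => P.map (W j)) p‖ₑ ^ q) := by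
  obtain ⟨x, y, t⟩ := p
  have hμ : ∀ j, IsProbabilityMeasure (P.map (W j)) := fun j =>
    Measure.isProbabilityMeasure_map (hW j).aemeasurable
  have hc : ∀ j, Continuous (FF (m := m) (QQ M j) f) := fun j =>
    FF_cont (QQ M j) (QQ_meas M j) (QQ_sub M j) f hf hf1
  have hcm : ∀ j, Measurable fun w : Fin m → ℝ => FF (QQ M j) f (x, y + w, t) := fun j =>
    (hc j).measurable.comp (measurable_const.prodMk
      ((measurable_const.add measurable_id).prodMk measurable_const))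
  set Z : (Fin k → ℤ) → Ω → ℂ := fun j ω => FF (QQ M j) f (x, y + W j ω, t) with hZ
  have hZm : ∀ j, Measurable (Z j) := fun j => (hcm j).comp (hW j)
  have hZ4 : Four Z P := h4.comp (g := fun j w => FF (QQ M j) f (x, y + w, t)) hcm
  have hZb : ∀ j ω, ‖Z j ω‖ ≤ 2 ^ (k + m) := by
    intro j ω
    refine (FF_bd (QQ M j) (QQ_meas M j) (QQ_sub M j) f hf1 _).trans ?_
    rw [pow_add, mul_comm ((2 : ℝ) ^ k)]
    exact mul_le_mul_of_nonneg_left (vol_real_le _ (QQ_sub M j)) (by positivity)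
  have hZV : ∑ j ∈ JJ k M, ∫⁻ ω, ‖Z j ω‖ₑ ^ 2 ∂P ≤ ENNReal.ofReal V :=
    (second W hW ρ hρ M hM f hf hf1 x y t).trans hV
  have hr := rosE hZm hZ4 (2 ^ (k + m)) (by positivity) hZb q hq2 hq4 (JJ k M) V hV0 hZV L
  have hmean : ∑ j ∈ JJ k M, ∫ ω, Z j ω ∂P =
      FF (Cb k) (mnf M f fun j => P.map (W j)) (x, y, t) := by
    rw [← FF_mnf M hM f hf hf1 (fun j => P.map (W j)) hμ]
    refine Finset.sum_congr rfl fun j _ => ?_
    exact (integral_map (hW j).aemeasurable (hcm j).aestronglyMeasurable).symm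
  have hsum : ∀ ω, FF (Cb k) (sh M f fun j => W j ω) (x, y, t) = ∑ j ∈ JJ k M, Z j ω :=
    fun ω => FF_sh M hM f hf hf1 _ x y t
  set E0 := FF (Cb k) (mnf M f fun j => P.map (W j)) (x, y, t) with hE0
  have hpt : ∀ ω, ‖FF (Cb k) (sh M f fun j => W j ω) (x, y, t)‖ₑ ^ q ≤
      2 ^ (q - 1) * (‖∑ j ∈ JJ k M, (Z j ω - ∫ ω', Z j ω' ∂P)‖ₑ ^ q + ‖E0‖ₑ ^ q) := by
    intro ω
    rw [hsum, Finset.sum_sub_distrib, hmean]
    exact add_q _ _ q (by linarith)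
  have hdm : Measurable fun ω => ‖∑ j ∈ JJ k M, (Z j ω - ∫ ω', Z j ω' ∂P)‖ₑ ^ q := by
    have h1 : Measurable fun ω => ∑ j ∈ JJ k M, (Z j ω - ∫ ω', Z j ω' ∂P) :=
      Finset.measurable_sum _ fun j _ => (hZm j).sub_const _
    exact h1.enorm.pow_const q
  calc ∫⁻ ω, ‖FF (Cb k) (sh M f fun j => W j ω) (x, y, t)‖ₑ ^ q ∂P
      ≤ ∫⁻ ω, 2 ^ (q - 1) * (‖∑ j ∈ JJ k M, (Z j ω - ∫ ω', Z j ω' ∂P)‖ₑ ^ q + ‖E0‖ₑ ^ q) ∂P :=
        lintegral_mono hpt
    _ = 2 ^ (q - 1) * (∫⁻ ω, ‖∑ j ∈ JJ k M, (Z j ω - ∫ ω', Z j ω' ∂P)‖ₑ ^ q ∂P +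
        ‖E0‖ₑ ^ q) := by
        rw [split1 P _ _ _ hdm, measure_univ, mul_one]
    _ ≤ _ := mul_le_mul' le_rfl (add_le_add hr le_rfl)

theorem swapJ {α Ω' : Type*} [MeasurableSpace α] [MeasurableSpace Ω'] (μ : Measure α)
    (P' : Measure Ω') [SFinite μ] [SFinite P'] (g : Ω' × α → ℝ≥0∞) (hg : Measurable g) :
    ∫⁻ ω, ∫⁻ p, g (ω, p) ∂μ ∂P' = ∫⁻ p, ∫⁻ ω, g (ω, p) ∂P' ∂μ :=
  lintegral_lintegral_swap hg.aemeasurable

theorem joint_meas (W : (Fin k → ℤ) → Ω → (Fin m → ℝ)) (hW : ∀ j, Measurable (W j))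
    (M : ℝ) (hM : 0 < M)
    (f : (Fin k → ℝ) × (Fin m → ℝ) → ℂ) (hf : Measurable f) (hf1 : ∀ z, ‖f z‖ ≤ 1) :
    Measurable fun a : Ω × ((Fin k → ℝ) × (Fin m → ℝ) × ℝ) =>
      FF (Cb k) (sh M f fun j => W j a.1) a.2 := by
  have e : (fun a : Ω × ((Fin k → ℝ) × (Fin m → ℝ) × ℝ) =>
      FF (Cb k) (sh M f fun j => W j a.1) a.2) = fun a =>
        ∑ j ∈ JJ k M, FF (QQ M j) f (a.2.1, a.2.2.1 + W j a.1, a.2.2.2) := by
    ext a
    obtain ⟨ω, x, y, t⟩ := a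
    exact FF_sh M hM f hf hf1 _ x y t
  rw [e]
  refine Finset.measurable_sum _ fun j _ => ?_
  have hc : Continuous (FF (m := m) (QQ M j) f) :=
    FF_cont (QQ M j) (QQ_meas M j) (QQ_sub M j) f hf hf1
  have h1 : Measurable fun a : Ω × ((Fin k → ℝ) × (Fin m → ℝ) × ℝ) =>
      (a.2.1, a.2.2.1 + W j a.1, a.2.2.2) := by
    refine (measurable_fst.comp measurable_snd).prodMk (Measurable.prodMk ?_ ?_)
    · exact (measurable_fst.comp (measurable_snd.comp measurable_snd)).add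
        ((hW j).comp measurable_fst)
    · exact measurable_snd.comp (measurable_snd.comp measurable_snd)
  have h2 := hc.measurable.comp h1
  exact h2

/-- the bound of the mean on a box -/
theorem mean_box (F : (Fin k → ℝ) × (Fin m → ℝ) → ℂ) (hF : Measurable F)
    (hF1 : ∀ z, ‖F z‖ ≤ 1) (ρ : ℝ≥0∞)
    (hρ : ∀ u, ∫⁻ v in Cb m, ‖F (u, v)‖ₑ ^ 2 ≤ ρ) (q : ℝ) (hq : 2 ≤ q) (N : ℝ) :
    ∫⁻ p in Bx k m N, ‖FF (Cb k) F p‖ₑ ^ q ≤
      ENNReal.ofReal (2 * N) * (2 ^ (2 * k + m) * ρ) ^ (q / 2) := by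
  have hc : Continuous (FF (Cb k) F) := FF_cont (Cb k) Cb_meas (Subset.refl _) _ hF hF1
  have hm0 : Measurable fun p => ‖FF (Cb k) F p‖ₑ ^ q := hc.measurable.enorm.pow_const q
  have hsub : Bx k m N ⊆ univ ×ˢ univ ×ˢ Icc (-N) N := by
    rintro ⟨x, y, t⟩ ⟨_, _, h⟩
    exact ⟨mem_univ _, mem_univ _, h⟩
  refine (lintegral_mono_set hsub).trans ?_
  have h1 : (volume : Measure ((Fin k → ℝ) × (Fin m → ℝ) × ℝ)).restrict
      (univ ×ˢ univ ×ˢ Icc (-N) N) = (volume : Measure (Fin k → ℝ)).prod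
        ((volume : Measure (Fin m → ℝ)).prod ((volume : Measure ℝ).restrict (Icc (-N) N))) := by
    rw [Measure.volume_eq_prod, ← Measure.prod_restrict, Measure.volume_eq_prod,
      ← Measure.prod_restrict, Measure.restrict_univ, Measure.restrict_univ]
  rw [h1]
  set τ : Measure ℝ := (volume : Measure ℝ).restrict (Icc (-N) N) with hτ
  have h2 : ∫⁻ p, ‖FF (Cb k) F p‖ₑ ^ q ∂((volume : Measure (Fin k → ℝ)).prod
        ((volume : Measure (Fin m → ℝ)).prod τ)) =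
      ∫⁻ t, (∫⁻ x : Fin k → ℝ, ∫⁻ y : Fin m → ℝ, ‖FF (Cb k) F (x, y, t)‖ₑ ^ q) ∂τ := by
    rw [lintegral_prod _ hm0.aemeasurable]
    have h3 : ∀ x : Fin k → ℝ, ∫⁻ p, ‖FF (Cb k) F (x, p)‖ₑ ^ q
        ∂((volume : Measure (Fin m → ℝ)).prod τ) =
        ∫⁻ t, (∫⁻ y : Fin m → ℝ, ‖FF (Cb k) F (x, y, t)‖ₑ ^ q) ∂τ := by
      intro x
      have h4 : Measurable fun p => ‖FF (Cb k) F (x, p)‖ₑ ^ q := by
        have h5 := hm0.comp (measurable_prodMk_left (x := x))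
        exact h5
      rw [lintegral_prod_symm _ h4.aemeasurable]
    simp_rw [h3]
    have h6 : Measurable fun a : ((Fin k → ℝ) × ℝ) × (Fin m → ℝ) =>
        ‖FF (Cb k) F (a.1.1, a.2, a.1.2)‖ₑ ^ q := by
      have h7 : Measurable fun a : ((Fin k → ℝ) × ℝ) × (Fin m → ℝ) => (a.1.1, a.2, a.1.2) :=
        (measurable_fst.comp measurable_fst).prodMk
          (measurable_snd.prodMk (measurable_snd.comp measurable_fst))
      have h8 := hm0.comp h7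
      exact h8
    exact lintegral_lintegral_swap (h6.lintegral_prod_right').aemeasurable
  rw [h2]
  calc ∫⁻ t, (∫⁻ x : Fin k → ℝ, ∫⁻ y : Fin m → ℝ, ‖FF (Cb k) F (x, y, t)‖ₑ ^ q) ∂τ
      ≤ ∫⁻ _t, (2 ^ (2 * k + m) * ρ) ^ (q / 2) ∂τ :=
        lintegral_mono fun t => mean_q F hF hF1 ρ hρ q hq t
    _ = _ := by
        rw [lintegral_const, hτ, Measure.restrict_apply_univ, Real.volume_Icc, mul_comm]
        congr 2
        ring

/-- the estimate on a box with explicit parameters -/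
theorem box (W : (Fin k → ℤ) → Ω → (Fin m → ℝ)) (hW : ∀ j, Measurable (W j))
    (h4 : Four W P) (ρ : ℝ≥0) (hρ : ∀ j, P.map (W j) ≤ ρ • (volume : Measure (Fin m → ℝ)))
    (M : ℝ) (hM : 0 < M)
    (f : (Fin k → ℝ) × (Fin m → ℝ) → ℂ) (hf : Measurable f) (hf1 : ∀ z, ‖f z‖ ≤ 1)
    (q : ℝ) (hq2 : 2 ≤ q) (hq4 : q ≤ 4) (V : ℝ) (hV0 : 0 ≤ V)
    (hV : 2 ^ (k + m) * ρ * ENNReal.ofReal M⁻¹ ^ k ≤ ENNReal.ofReal V) (L : ℕ) (N : ℝ)
    (K : ℝ≥0∞)
    (hK : ∀ g : (Fin m → ℝ) → ℂ, Measurable g → (∀ v, ‖g v‖ ≤ 1) →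
      ∫⁻ p in (univ : Set (Fin m → ℝ)) ×ˢ Icc (-N) N, ‖EE g p‖ₑ ^ q ≤ K) :
    ∫⁻ ω, (∫⁻ p in Bx k m N, ‖FF (Cb k) (sh M f fun j => W j ω) p‖ₑ ^ q) ∂P ≤
      2 ^ (q - 1) * (ENNReal.ofReal (4096 * ((L : ℝ) + 1) ^ q) *
        (ENNReal.ofReal (2 * N) ^ (k + m + 1) * ENNReal.ofReal (V ^ (q / 2)) +
          ENNReal.ofReal (2 * N) ^ k * (2 ^ k * (ENNReal.ofReal (M⁻¹) ^ k) ^ (q - 1) * K) +
          ENNReal.ofReal (2 * N) ^ (k + m + 1) *
            ENNReal.ofReal ((2 ^ (k + m) / 2 ^ L) ^ (q - 2) * V)) +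
        ENNReal.ofReal (2 * N) * (2 ^ (2 * k + m) * ρ) ^ (q / 2)) := by
  have hμ : ∀ j, IsProbabilityMeasure (P.map (W j)) := fun j =>
    Measure.isProbabilityMeasure_map (hW j).aemeasurable
  have hj := joint_meas W hW M hM f hf hf1
  rw [swapJ (volume.restrict (Bx k m N)) P
    (fun a => ‖FF (Cb k) (sh M f fun j => W j a.1) a.2‖ₑ ^ q) (hj.enorm.pow_const q)]
  refine (lintegral_mono fun p => point W hW h4 ρ hρ M hM f hf hf1 q hq2 hq4 V hV0 hV L p).trans ?_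
  set c0 := ENNReal.ofReal (4096 * ((L : ℝ) + 1) ^ q) with hc0
  set a1 := ENNReal.ofReal (V ^ (q / 2)) with ha1
  set a3 := ENNReal.ofReal ((2 ^ (k + m) / 2 ^ L) ^ (q - 2) * V) with ha3
  have hmG : Measurable fun p : (Fin k → ℝ) × (Fin m → ℝ) × ℝ => ∑ j ∈ JJ k M,
      ∫⁻ ω, ‖FF (QQ M j) f (p.1, p.2.1 + W j ω, p.2.2)‖ₑ ^ q ∂P := by
    refine Finset.measurable_sum _ fun j _ => ?_
    have hc : Continuous (FF (m := m) (QQ M j) f) :=
      FF_cont (QQ M j) (QQ_meas M j) (QQ_sub M j) f hf hf1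
    have h1 : Measurable fun a : ((Fin k → ℝ) × (Fin m → ℝ) × ℝ) × Ω =>
        (a.1.1, a.1.2.1 + W j a.2, a.1.2.2) := by
      refine (measurable_fst.comp measurable_fst).prodMk (Measurable.prodMk ?_ ?_)
      · exact (measurable_fst.comp (measurable_snd.comp measurable_fst)).add
          ((hW j).comp measurable_snd)
      · exact measurable_snd.comp (measurable_snd.comp measurable_fst)
    have h2 := (hc.measurable.comp h1).enorm.pow_const q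
    exact h2.lintegral_prod_right'
  have hFm := mnf_meas M f hf (fun j => P.map (W j)) hμ
  have hF1 := mnf_bd M f hf1 (fun j => P.map (W j)) hμ
  have hmE : Measurable fun p : (Fin k → ℝ) × (Fin m → ℝ) × ℝ =>
      ‖FF (Cb k) (mnf M f fun j => P.map (W j)) p‖ₑ ^ q := by
    have hc : Continuous (FF (Cb k) (mnf M f fun j => P.map (W j))) :=
      FF_cont (Cb k) Cb_meas (Subset.refl _) _ hFm hF1
    exact hc.measurable.enorm.pow_const q
  rw [split5 _ _ _ _ _ _ _ hmG hmE, Measure.restrict_apply_univ, Bx_vol]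
  refine mul_le_mul' le_rfl (add_le_add (mul_le_mul' le_rfl
    (add_le_add (add_le_add le_rfl ?_) le_rfl)) ?_)
  · refine (higher W hW M hM f hf hf1 q (by linarith) _ _ _ K hK).trans (le_of_eq ?_)
    rw [cube_vol]
  · exact mean_box _ hFm hF1 ρ (mnf_L2 M f hf1 _ hμ ρ hρ) q hq2 N

end

end Pool.Agent.T9h8.RS
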