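import Mathlib
import Pool.Agent.T9h8.RS.Main
set_option autoImplicit false
set_option linter.unusedSectionVars false

/-!
# The choice of parameters
-/

namespace Pool.Agent.T9h8.RS

open MeasureTheory Set Complex
open scoped ENNReal NNReal

variable {k m : ℕ}

/-- the numerical inequality -/
theorem numer (k m : ℕ) (hk : 1 ≤ k) (hm : 1 ≤ m) (q : ℝ) (hq1 : 2 + 2 / ((k : ℝ) + m) < q)
    (hq2 : 2 + 4 / (4 * (k : ℝ) + m) < q) :
    ∃ κ ε : ℝ, 0 < κ ∧ κ < 1 ∧ 0 < ε ∧ ε ≤ 1 ∧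
      ((k : ℝ) + m + 1) - (1 - κ) * (k + m) * (q / 2) + ε ≤ 0 ∧
      (k : ℝ) - (1 - κ) * k * (q - 1) + (max 0 (1 - (q - 2) * m / 4) + ε) + ε ≤ 0 ∧
      1 - (1 - κ) * m * (q / 2) ≤ 0 := by
  have hk0 : (1 : ℝ) ≤ k := by exact_mod_cast hk
  have hm0 : (1 : ℝ) ≤ m := by exact_mod_cast hm
  have hq : 2 < q := by
    have : 0 < 2 / ((k : ℝ) + m) := by positivity
    linarith
  set δ₁ : ℝ := (q / 2) * (k + m) - (k + m + 1) with hδ₁
  have h1 : 0 < δ₁ := by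
    have h : 2 / ((k : ℝ) + m) < q - 2 := by linarith
    rw [div_lt_iff₀ (by positivity)] at h
    rw [hδ₁]
    nlinarith
  set σ : ℝ := max 0 (1 - (q - 2) * m / 4) with hσ
  set δ₂ : ℝ := k * (q - 2) - σ with hδ₂
  have h2 : 0 < δ₂ := by
    have h : 4 / (4 * (k : ℝ) + m) < q - 2 := by linarith
    rw [div_lt_iff₀ (by positivity)] at h
    rw [hδ₂, hσ]
    have h3 : 0 < k * (q - 2) := by
      apply mul_pos <;> linarith
    have h4 : 1 - (q - 2) * m / 4 < k * (q - 2) := by nlinarith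
    have := max_lt h3 h4
    linarith
  set ε : ℝ := min (min (δ₁ / 4) (δ₂ / 4)) 1 with hε
  have hε0 : 0 < ε := lt_min (lt_min (by positivity) (by positivity)) one_pos
  have hε1 : ε ≤ δ₁ / 4 := (min_le_left _ _).trans (min_le_left _ _)
  have hε2 : ε ≤ δ₂ / 4 := (min_le_left _ _).trans (min_le_right _ _)
  have hε3 : ε ≤ 1 := min_le_right _ _
  set κ : ℝ := min (min (δ₁ / (q * (k + m))) (δ₂ / (2 * k * (q - 1)))) (1 - 2 / q) with hκ
  have hq0 : 0 < q := by linarith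
  have hκ0 : 0 < κ := by
    refine lt_min (lt_min (by positivity) ?_) ?_
    · refine div_pos h2 ?_
      have : 0 < q - 1 := by linarith
      positivity
    · have : 2 / q < 1 := by rw [div_lt_one hq0]; exact hq
      linarith
  have hκ1 : κ ≤ δ₁ / (q * (k + m)) := (min_le_left _ _).trans (min_le_left _ _)
  have hκ2 : κ ≤ δ₂ / (2 * k * (q - 1)) := (min_le_left _ _).trans (min_le_right _ _)
  have hκ3 : κ ≤ 1 - 2 / q := min_le_right _ _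
  have hκlt : κ < 1 := by
    have : 0 < 2 / q := by positivity
    linarith
  refine ⟨κ, ε, hκ0, hκlt, hε0, hε3, ?_, ?_, ?_⟩
  · rw [le_div_iff₀ (by positivity)] at hκ1
    have e : ((k : ℝ) + m + 1) - (1 - κ) * (k + m) * (q / 2) + ε =
        -δ₁ + (κ * (q * (k + m))) / 2 + ε := by
      rw [hδ₁]; ring
    rw [e]
    linarith
  · rw [le_div_iff₀ (by
      have : 0 < q - 1 := by linarith
      positivity)] at hκ2
    have e : (k : ℝ) - (1 - κ) * k * (q - 1) + (σ + ε) + ε =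
        -δ₂ + (κ * (2 * k * (q - 1))) / 2 + 2 * ε := by
      rw [hδ₂]; ring
    rw [e]
    linarith
  · have h5 : 2 / q ≤ 1 - κ := by linarith
    have h6 : 1 ≤ (1 - κ) * (q / 2) := by
      rw [div_le_iff₀ hq0] at h5
      linarith
    have h7 : (1 - κ) * (q / 2) ≤ (1 - κ) * m * (q / 2) := by
      have h8 : 0 ≤ (1 - κ) * (q / 2) := by linarith
      nlinarith
    linarith

/-- the real bound -/
theorem realbd (k m : ℕ) (q κ ε σ D CK N : ℝ) (L : ℕ) (hN : 1 ≤ N) (hq : 2 < q)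
    (hκ1 : κ < 1) (hε : 0 < ε) (hε1 : ε ≤ 1) (hD : 0 ≤ D) (hCK : 0 ≤ CK)
    (e1 : ((k : ℝ) + m + 1) - (1 - κ) * (k + m) * (q / 2) + ε ≤ 0)
    (e2 : (k : ℝ) - (1 - κ) * k * (q - 1) + (σ + ε) + ε ≤ 0)
    (e3 : 1 - (1 - κ) * m * (q / 2) ≤ 0)
    (hL : (L : ℝ) + 1 ≤ D * N ^ (ε / q))
    (hL2 : N ≤ (2 ^ L : ℝ) ^ ((q - 2) / ((k : ℝ) + m + 2))) :
    4096 * ((L : ℝ) + 1) ^ q *
      ((2 * N) ^ (k + m + 1) * (2 ^ (k + m) * N ^ (-(1 - κ) * (k + m))) ^ (q / 2) +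
        (2 * N) ^ k * (2 ^ k * ((N ^ (-(1 - κ))) ^ k) ^ (q - 1) * (CK * N ^ (σ + ε))) +
        (2 * N) ^ (k + m + 1) *
          ((2 ^ (k + m) / 2 ^ L) ^ (q - 2) * (2 ^ (k + m) * N ^ (-(1 - κ) * (k + m))))) +
      2 * N * (2 ^ (2 * k + m) * N ^ (-(1 - κ) * m)) ^ (q / 2) ≤
    4096 * D ^ q * (2 ^ (k + m + 1) * (2 ^ (k + m)) ^ (q / 2) + 4 ^ k * CK +
      2 ^ (k + m + 1) * (2 ^ (k + m)) ^ (q - 1)) + 2 * (2 ^ (2 * k + m)) ^ (q / 2) := by
  have hN0 : 0 < N := by linarith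
  have hq0 : 0 < q := by linarith
  have hLq : ((L : ℝ) + 1) ^ q ≤ D ^ q * N ^ ε := by
    calc ((L : ℝ) + 1) ^ q ≤ (D * N ^ (ε / q)) ^ q :=
          Real.rpow_le_rpow (by positivity) hL hq0.le
      _ = D ^ q * N ^ ε := by
          rw [Real.mul_rpow hD (by positivity), ← Real.rpow_mul hN0.le]
          congr 2
          field_simp
  have hle1 : ∀ s : ℝ, s ≤ 0 → N ^ s ≤ 1 := fun s hs => Real.rpow_le_one_of_one_le_of_nonpos hN hs
  -- the first term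
  have t1 : N ^ ε * ((2 * N) ^ (k + m + 1) *
      (2 ^ (k + m) * N ^ (-(1 - κ) * (k + m))) ^ (q / 2)) ≤
      2 ^ (k + m + 1) * (2 ^ (k + m)) ^ (q / 2) := by
    have h1 : (2 * N) ^ (k + m + 1) = 2 ^ (k + m + 1) * N ^ ((k : ℝ) + m + 1) := by
      rw [mul_pow, ← Real.rpow_natCast N]
      push_cast
      rfl
    have h2 : (2 ^ (k + m) * N ^ (-(1 - κ) * (k + m))) ^ (q / 2) =
        ((2 : ℝ) ^ (k + m)) ^ (q / 2) * N ^ (-(1 - κ) * (k + m) * (q / 2)) := by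
      rw [Real.mul_rpow (by positivity) (by positivity), ← Real.rpow_mul hN0.le]
    rw [h1, h2]
    calc N ^ ε * (2 ^ (k + m + 1) * N ^ ((k : ℝ) + m + 1) * (((2 : ℝ) ^ (k + m)) ^ (q / 2) *
          N ^ (-(1 - κ) * (k + m) * (q / 2))))
        = 2 ^ (k + m + 1) * (2 ^ (k + m)) ^ (q / 2) *
          (N ^ ε * N ^ ((k : ℝ) + m + 1) * N ^ (-(1 - κ) * (k + m) * (q / 2))) := by ring
      _ = 2 ^ (k + m + 1) * (2 ^ (k + m)) ^ (q / 2) *
          N ^ (((k : ℝ) + m + 1) - (1 - κ) * (k + m) * (q / 2) + ε) := by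
          rw [← Real.rpow_add hN0, ← Real.rpow_add hN0]
          congr 2
          ring
      _ ≤ 2 ^ (k + m + 1) * (2 ^ (k + m)) ^ (q / 2) * 1 :=
          mul_le_mul_of_nonneg_left (hle1 _ e1) (by positivity)
      _ = _ := mul_one _
  -- the second term
  have t2 : N ^ ε * ((2 * N) ^ k * (2 ^ k * ((N ^ (-(1 - κ))) ^ k) ^ (q - 1) *
      (CK * N ^ (σ + ε)))) ≤ 4 ^ k * CK := by
    have h1 : (2 * N) ^ k = 2 ^ k * N ^ (k : ℝ) := by
      rw [mul_pow, ← Real.rpow_natCast N]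
    have h2 : ((N ^ (-(1 - κ))) ^ k) ^ (q - 1) = N ^ (-(1 - κ) * k * (q - 1)) := by
      rw [← Real.rpow_natCast (N ^ (-(1 - κ))), ← Real.rpow_mul hN0.le, ← Real.rpow_mul hN0.le]
    rw [h1, h2]
    calc N ^ ε * (2 ^ k * N ^ (k : ℝ) * (2 ^ k * N ^ (-(1 - κ) * k * (q - 1)) *
          (CK * N ^ (σ + ε))))
        = (2 ^ k * 2 ^ k) * CK * (N ^ ε * N ^ (k : ℝ) * N ^ (-(1 - κ) * k * (q - 1)) *
          N ^ (σ + ε)) := by ring
      _ = 4 ^ k * CK * N ^ ((k : ℝ) - (1 - κ) * k * (q - 1) + (σ + ε) + ε) := by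
          rw [← Real.rpow_add hN0, ← Real.rpow_add hN0, ← Real.rpow_add hN0, ← mul_pow]
          norm_num
          left
          congr 1
          ring
      _ ≤ 4 ^ k * CK * 1 := mul_le_mul_of_nonneg_left (hle1 _ e2) (by positivity)
      _ = _ := mul_one _
  -- the third term
  have t3 : N ^ ε * ((2 * N) ^ (k + m + 1) *
      ((2 ^ (k + m) / 2 ^ L) ^ (q - 2) * (2 ^ (k + m) * N ^ (-(1 - κ) * (k + m))))) ≤
      2 ^ (k + m + 1) * (2 ^ (k + m)) ^ (q - 1) := by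
    have h1 : (2 * N) ^ (k + m + 1) = 2 ^ (k + m + 1) * N ^ ((k : ℝ) + m + 1) := by
      rw [mul_pow, ← Real.rpow_natCast N]
      push_cast
      rfl
    have h2 : N ^ ((k : ℝ) + m + 2) ≤ ((2 : ℝ) ^ L) ^ (q - 2) := by
      calc N ^ ((k : ℝ) + m + 2) ≤ ((2 ^ L : ℝ) ^ ((q - 2) / ((k : ℝ) + m + 2))) ^
            ((k : ℝ) + m + 2) := Real.rpow_le_rpow hN0.le hL2 (by positivity)
        _ = _ := by
            rw [← Real.rpow_mul (by positivity)]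
            congr 1
            field_simp
    have h3 : ((2 : ℝ) ^ (k + m) / 2 ^ L) ^ (q - 2) ≤
        ((2 : ℝ) ^ (k + m)) ^ (q - 2) * N ^ (-((k : ℝ) + m + 2)) := by
      rw [Real.div_rpow (by positivity) (by positivity), Real.rpow_neg hN0.le, ← div_eq_mul_inv]
      exact div_le_div_of_nonneg_left (by positivity) (by positivity) h2
    have h4 : N ^ (-(1 - κ) * ((k : ℝ) + m)) ≤ 1 := hle1 _ (by
      have : 0 ≤ (1 - κ) * ((k : ℝ) + m) := by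
        have : 0 ≤ 1 - κ := by linarith
        positivity
      linarith)
    have h5 : ((2 : ℝ) ^ (k + m)) ^ (q - 1) = ((2 : ℝ) ^ (k + m)) ^ (q - 2) * 2 ^ (k + m) := by
      nth_rewrite 3 [← Real.rpow_one ((2 : ℝ) ^ (k + m))]
      rw [← Real.rpow_add (by positivity)]
      congr 1
      ring
    rw [h1, h5]
    calc N ^ ε * (2 ^ (k + m + 1) * N ^ ((k : ℝ) + m + 1) *
          ((2 ^ (k + m) / 2 ^ L) ^ (q - 2) * (2 ^ (k + m) * N ^ (-(1 - κ) * (k + m)))))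
        ≤ N ^ ε * (2 ^ (k + m + 1) * N ^ ((k : ℝ) + m + 1) *
          ((((2 : ℝ) ^ (k + m)) ^ (q - 2) * N ^ (-((k : ℝ) + m + 2))) * (2 ^ (k + m) * 1))) := by
          gcongr
      _ = 2 ^ (k + m + 1) * (((2 : ℝ) ^ (k + m)) ^ (q - 2) * 2 ^ (k + m)) *
          (N ^ ε * N ^ ((k : ℝ) + m + 1) * N ^ (-((k : ℝ) + m + 2))) := by ring
      _ = 2 ^ (k + m + 1) * (((2 : ℝ) ^ (k + m)) ^ (q - 2) * 2 ^ (k + m)) * N ^ (ε - 1) := by
          rw [← Real.rpow_add hN0, ← Real.rpow_add hN0]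
          congr 2
          ring
      _ ≤ 2 ^ (k + m + 1) * (((2 : ℝ) ^ (k + m)) ^ (q - 2) * 2 ^ (k + m)) * 1 :=
          mul_le_mul_of_nonneg_left (hle1 _ (by linarith)) (by positivity)
      _ = _ := mul_one _
  -- the fourth term
  have t4 : 2 * N * (2 ^ (2 * k + m) * N ^ (-(1 - κ) * m)) ^ (q / 2) ≤
      2 * (2 ^ (2 * k + m)) ^ (q / 2) := by
    rw [Real.mul_rpow (by positivity) (by positivity), ← Real.rpow_mul hN0.le]
    calc 2 * N * (((2 : ℝ) ^ (2 * k + m)) ^ (q / 2) * N ^ (-(1 - κ) * m * (q / 2)))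
        = 2 * ((2 : ℝ) ^ (2 * k + m)) ^ (q / 2) * (N ^ (1 : ℝ) * N ^ (-(1 - κ) * m * (q / 2))) := by
          rw [Real.rpow_one]; ring
      _ = 2 * ((2 : ℝ) ^ (2 * k + m)) ^ (q / 2) * N ^ (1 - (1 - κ) * m * (q / 2)) := by
          rw [← Real.rpow_add hN0]
          congr 2
          ring
      _ ≤ 2 * ((2 : ℝ) ^ (2 * k + m)) ^ (q / 2) * 1 :=
          mul_le_mul_of_nonneg_left (hle1 _ e3) (by positivity)
      _ = _ := mul_one _
  set T1 := (2 * N) ^ (k + m + 1) * (2 ^ (k + m) * N ^ (-(1 - κ) * (k + m))) ^ (q / 2) with hT1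
  set T2 := (2 * N) ^ k * (2 ^ k * ((N ^ (-(1 - κ))) ^ k) ^ (q - 1) * (CK * N ^ (σ + ε))) with hT2
  set T3 := (2 * N) ^ (k + m + 1) *
    ((2 ^ (k + m) / 2 ^ L) ^ (q - 2) * (2 ^ (k + m) * N ^ (-(1 - κ) * (k + m)))) with hT3
  have p1 : 0 ≤ T1 := by positivity
  have p2 : 0 ≤ T2 := by positivity
  have p3 : 0 ≤ T3 := by positivity
  have h5 : 4096 * ((L : ℝ) + 1) ^ q * (T1 + T2 + T3) ≤
      4096 * D ^ q * (N ^ ε * T1 + N ^ ε * T2 + N ^ ε * T3) := by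
    calc 4096 * ((L : ℝ) + 1) ^ q * (T1 + T2 + T3)
        ≤ 4096 * (D ^ q * N ^ ε) * (T1 + T2 + T3) := by
          gcongr
      _ = _ := by ring
  have h6 : 4096 * D ^ q * (N ^ ε * T1 + N ^ ε * T2 + N ^ ε * T3) ≤
      4096 * D ^ q * (2 ^ (k + m + 1) * (2 ^ (k + m)) ^ (q / 2) + 4 ^ k * CK +
      2 ^ (k + m + 1) * (2 ^ (k + m)) ^ (q - 1)) :=
    mul_le_mul_of_nonneg_left (by linarith) (by positivity)
  linarith

theorem core (hk : 1 ≤ k) (hm : 1 ≤ m) (q : ℝ) (hq1 : 2 + 2 / ((k : ℝ) + m) < q)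
    (hq2 : 2 + 4 / (4 * (k : ℝ) + m) < q) (hq4 : q ≤ 4) :
    ∃ κ : ℝ, 0 < κ ∧ κ < 1 ∧ ∃ C : ℝ, 0 ≤ C ∧ ∀ N : ℝ, 1 ≤ N → ∀ M : ℝ, N ^ (1 - κ) ≤ M →
      ∀ ρ : ℝ≥0, (ρ : ℝ) ≤ N ^ (-(1 - κ) * m) →
      ∀ (Ω : Type*) [MeasurableSpace Ω] (P : Measure Ω) [IsProbabilityMeasure P]
        (W : (Fin k → ℤ) → Ω → (Fin m → ℝ)), (∀ j, Measurable (W j)) → Four W P →
        (∀ j, P.map (W j) ≤ ρ • (volume : Measure (Fin m → ℝ))) →
        ∀ f : (Fin k → ℝ) × (Fin m → ℝ) → ℂ, Measurable f → (∀ z, ‖f z‖ ≤ 1) →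
          ∫⁻ ω, (∫⁻ p in Bx k m N, ‖FF (Cb k) (sh M f fun j => W j ω) p‖ₑ ^ q) ∂P ≤
            ENNReal.ofReal C := by
  have hq : 2 < q := by
    have : 0 < 2 / ((k : ℝ) + m) := by positivity
    linarith
  obtain ⟨κ, ε, hκ0, hκ1, hε, hε1, e1, e2, e3⟩ := numer k m hk hm q hq1 hq2
  obtain ⟨CK, hCK, hKq⟩ := Kq hm q ε hq hε
  obtain ⟨D, hD, hsc⟩ := scales ((q - 2) / ((k : ℝ) + m + 2)) (ε / q)
    (div_pos (by linarith) (by positivity)) (div_pos hε (by linarith))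
  set σ : ℝ := max 0 (1 - (q - 2) * m / 4) with hσ
  set C' : ℝ := 4096 * D ^ q * (2 ^ (k + m + 1) * (2 ^ (k + m)) ^ (q / 2) + 4 ^ k * CK +
      2 ^ (k + m + 1) * (2 ^ (k + m)) ^ (q - 1)) + 2 * (2 ^ (2 * k + m)) ^ (q / 2) with hC'
  have hC'0 : 0 ≤ C' := by positivity
  refine ⟨κ, hκ0, hκ1, 2 ^ (q - 1) * C', by positivity, ?_⟩
  intro N hN M hM ρ hρ Ω _ P _ W hW h4 hlaw f hf hf1
  have hN0 : 0 < N := by linarith
  have hNk : 0 < N ^ (1 - κ) := by positivity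
  have hM0 : 0 < M := lt_of_lt_of_le hNk hM
  obtain ⟨L, hL2, hL⟩ := hsc N hN
  have hMinv : M⁻¹ ≤ N ^ (-(1 - κ)) := by
    rw [Real.rpow_neg hN0.le]
    exact inv_anti₀ hNk hM
  set V : ℝ := 2 ^ (k + m) * N ^ (-(1 - κ) * (k + m)) with hV
  have hV0 : 0 ≤ V := by positivity
  have hρE : (ρ : ℝ≥0∞) ≤ ENNReal.ofReal (N ^ (-(1 - κ) * m)) := by
    rw [← ENNReal.ofReal_coe_nnreal]
    exact ENNReal.ofReal_le_ofReal hρ
  have hME : ENNReal.ofReal M⁻¹ ≤ ENNReal.ofReal (N ^ (-(1 - κ))) :=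
    ENNReal.ofReal_le_ofReal hMinv
  have hVE : 2 ^ (k + m) * (ρ : ℝ≥0∞) * ENNReal.ofReal M⁻¹ ^ k ≤ ENNReal.ofReal V := by
    calc 2 ^ (k + m) * (ρ : ℝ≥0∞) * ENNReal.ofReal M⁻¹ ^ k
        ≤ 2 ^ (k + m) * ENNReal.ofReal (N ^ (-(1 - κ) * m)) *
          ENNReal.ofReal (N ^ (-(1 - κ))) ^ k :=
          mul_le_mul' (mul_le_mul' le_rfl hρE) (pow_le_pow_left' hME k)
      _ = ENNReal.ofReal V := by
          rw [← ENNReal.ofReal_pow (by positivity), ← Real.rpow_natCast (N ^ (-(1 - κ))),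
            ← Real.rpow_mul hN0.le]
          have h2 : (2 : ℝ≥0∞) ^ (k + m) = ENNReal.ofReal (2 ^ (k + m)) := by
            rw [ENNReal.ofReal_pow (by norm_num), ENNReal.ofReal_ofNat]
          rw [h2, ← ENNReal.ofReal_mul (by positivity), ← ENNReal.ofReal_mul (by positivity), hV,
            mul_assoc, ← Real.rpow_add hN0]
          congr 3
          ring
  have hb := box W hW h4 ρ hlaw M hM0 f hf hf1 q hq.le hq4 V hV0 hVE L N
    (ENNReal.ofReal (CK * N ^ (σ + ε))) (hKq N hN)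
  refine hb.trans ?_
  have h2q : (2 : ℝ≥0∞) ^ (q - 1) = ENNReal.ofReal (2 ^ (q - 1)) := by
    rw [← ENNReal.ofReal_rpow_of_pos (by norm_num : (0 : ℝ) < 2), ENNReal.ofReal_ofNat]
  rw [ENNReal.ofReal_mul (p := 2 ^ (q - 1)) (by positivity), h2q]
  refine mul_le_mul' le_rfl ?_
  have hr := realbd k m q κ ε σ D CK N L hN hq hκ1 hε hε1 hD hCK e1 e2 e3 hL hL2
  refine le_trans ?_ (ENNReal.ofReal_le_ofReal hr)
  have z1 : ENNReal.ofReal (2 * N) ^ (k + m + 1) * ENNReal.ofReal (V ^ (q / 2)) ≤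
      ENNReal.ofReal ((2 * N) ^ (k + m + 1) * V ^ (q / 2)) := by
    rw [ENNReal.ofReal_mul (p := (2 * N) ^ (k + m + 1)) (by positivity),
      ENNReal.ofReal_pow (by positivity : (0 : ℝ) ≤ 2 * N)]
  have z2 : ENNReal.ofReal (2 * N) ^ k * (2 ^ k * (ENNReal.ofReal (M⁻¹) ^ k) ^ (q - 1) *
      ENNReal.ofReal (CK * N ^ (σ + ε))) ≤ ENNReal.ofReal ((2 * N) ^ k *
        (2 ^ k * ((N ^ (-(1 - κ))) ^ k) ^ (q - 1) * (CK * N ^ (σ + ε)))) := by
    have h2 : (2 : ℝ≥0∞) ^ k = ENNReal.ofReal (2 ^ k) := by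
      rw [ENNReal.ofReal_pow (by norm_num), ENNReal.ofReal_ofNat]
    rw [ENNReal.ofReal_mul (p := (2 * N) ^ k) (by positivity),
      ENNReal.ofReal_mul (p := 2 ^ k * ((N ^ (-(1 - κ))) ^ k) ^ (q - 1)) (by positivity),
      ENNReal.ofReal_mul (p := 2 ^ k) (by positivity), ← h2,
      ENNReal.ofReal_pow (by positivity : (0 : ℝ) ≤ 2 * N),
      ← ENNReal.ofReal_rpow_of_nonneg (x := (N ^ (-(1 - κ))) ^ k) (by positivity) (by linarith),
      ENNReal.ofReal_pow (by positivity : 0 ≤ N ^ (-(1 - κ)))]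
    refine mul_le_mul' le_rfl (mul_le_mul' (mul_le_mul' le_rfl ?_) le_rfl)
    exact ENNReal.rpow_le_rpow (pow_le_pow_left' hME k) (by linarith)
  have z3 : ENNReal.ofReal (2 * N) ^ (k + m + 1) *
      ENNReal.ofReal ((2 ^ (k + m) / 2 ^ L) ^ (q - 2) * V) ≤
      ENNReal.ofReal ((2 * N) ^ (k + m + 1) * ((2 ^ (k + m) / 2 ^ L) ^ (q - 2) * V)) := by
    rw [ENNReal.ofReal_mul (p := (2 * N) ^ (k + m + 1)) (by positivity),
      ENNReal.ofReal_pow (by positivity)]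
  have z4 : ENNReal.ofReal (2 * N) * (2 ^ (2 * k + m) * (ρ : ℝ≥0∞)) ^ (q / 2) ≤
      ENNReal.ofReal (2 * N * (2 ^ (2 * k + m) * N ^ (-(1 - κ) * m)) ^ (q / 2)) := by
    have h2 : (2 : ℝ≥0∞) ^ (2 * k + m) = ENNReal.ofReal (2 ^ (2 * k + m)) := by
      rw [ENNReal.ofReal_pow (by norm_num), ENNReal.ofReal_ofNat]
    rw [ENNReal.ofReal_mul (p := 2 * N) (by positivity),
      ← ENNReal.ofReal_rpow_of_nonneg (x := 2 ^ (2 * k + m) * N ^ (-(1 - κ) * m))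
        (by positivity) (by linarith),
      ENNReal.ofReal_mul (p := 2 ^ (2 * k + m)) (by positivity), ← h2]
    exact mul_le_mul' le_rfl (ENNReal.rpow_le_rpow (mul_le_mul' le_rfl hρE) (by linarith))
  rw [ENNReal.ofReal_add (by positivity) (by positivity),
    ENNReal.ofReal_mul (p := 4096 * ((L : ℝ) + 1) ^ q) (by positivity),
    ENNReal.ofReal_add (by positivity) (by positivity),
    ENNReal.ofReal_add (by positivity) (by positivity)]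
  exact add_le_add (mul_le_mul' le_rfl (add_le_add (add_le_add z1 z2) z3)) z4

end Pool.Agent.T9h8.RS
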